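import Pool.Agent.Lib.H76Y.E3
import Pool.Agent.Lib.H76Q.X8

/-!
# L8: the semilinear automorphism for linked idempotents, algebras without a form
-/

set_option autoImplicit false
set_option linter.unusedSectionVars false
namespace Pool.Agent.H86L
open Module Matrix Polynomial TensorProduct Pool.Agent.H53Toric
open Pool.Agent.H76P Pool.Agent.H76Q
open Pool.Agent.H76Y (LcN ThetaN det_phi trace_phi)
open Pool.Agent.H76T (IsIdeal Fam Lc)
open Pool.Agent.H76V (Cmp)
open Pool.Agent.H76U (cmp preL IsSplitting)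
open Pool.Agent.H76RM (spanK similD)

variable {ι : Type*} [Fintype ι] [DecidableEq ι] {K : Type*} [Field K] [CharZero K]
  [IsAlgClosed K] {J : Matrix ι ι K} {S : Set (Matrix ι ι K)} {e x : Matrix ι ι K} {n : ℕ}
  {U : Matrix ι (Fin n) K} {V : Matrix (Fin n) ι K} {d : Fin n → K}

/-- The semilinear automorphism for linked idempotents, with its values on the operators which commute with `a`;
no form. -/
theorem exists_theta2N (hUV : e = U * V) (hVU : V * U = 1) (hec : EC x U d) (hex : e * x = x * e)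
    {τ : K ≃+* K} {a a' : Matrix ι ι K}
    (h1 : a * a' = e.map τ) (h2 : a' * a = e) (h3 : e * a' = a') (h4 : a' * e.map τ = a')
    (h5 : e.map τ * a = a) (hxa : x * a' = a' * x)
    (hza : ∀ A ∈ zlie S, a * A = A * a)
    (hx : x.map τ = x) (hJ : J.map τ = J) (hS : ∀ s ∈ S, s.map τ = s)
    {σ : Equiv.Perm (Fin n)} (hσ : ∀ k, τ (d k) = d (σ k)) :
    ∃ θ : Module.End K (Fin n → K) ≃+* Module.End K (Fin n → K),
      ThetaN (LcN J S U V) θ τ σ ∧
      ∀ A : Matrix ι ι K, a * A.map τ = A.map τ * a → θ (phi (cmp U V A)) = phi (cmp U V (A.map τ)) := by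
  have hVe : V * e = V := by rw [hUV, ← Matrix.mul_assoc, hVU, Matrix.one_mul]
  have heU : e * U = U := by rw [hUV, Matrix.mul_assoc, hVU, Matrix.mul_one]
  have heUt : e.map τ * U.map τ = U.map τ := by rw [← e3_map_mul, heU]
  have hUVt : U.map τ * V.map τ = e.map τ := by rw [← e3_map_mul, ← hUV]
  obtain ⟨C, hC⟩ : ∃ C, C = V * a' * U.map τ := ⟨_, rfl⟩
  obtain ⟨C', hC'⟩ : ∃ C', C' = V.map τ * a * U := ⟨_, rfl⟩
  have hCC : C * C' = 1 := by
    calc C * C' = V * (a' * (U.map τ * V.map τ)) * a * U := by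
          rw [hC, hC']; simp only [Matrix.mul_assoc]
      _ = V * (a' * a) * U := by rw [hUVt, h4]; simp only [Matrix.mul_assoc]
      _ = 1 := by rw [h2, hVe, hVU]
  have hUC : U * C = a' * U.map τ := by
    calc U * C = (U * V) * a' * U.map τ := by rw [hC]; simp only [Matrix.mul_assoc]
      _ = _ := by rw [← hUV, h3]
  have hCl : ∀ l k, C l k ≠ 0 → l = σ k := by
    intro l k hne
    have hVx : V * x = Matrix.diagonal d * V := by
      calc V * x = V * e * x := by rw [hVe]
        _ = V * (x * U) * V := by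
            rw [Matrix.mul_assoc V e x, hex, hUV]
            simp only [Matrix.mul_assoc]
        _ = V * U * Matrix.diagonal d * V := by rw [hec.eig]; simp only [Matrix.mul_assoc]
        _ = _ := by rw [hVU, Matrix.one_mul]
    have hxU : x * U.map τ = U.map τ * Matrix.diagonal (fun k => d (σ k)) := by
      have g1 := congrArg (fun M : Matrix ι (Fin n) K => M.map τ) hec.eig
      beta_reduce at g1
      rw [e3_map_mul, e3_map_mul, hx] at g1
      rw [g1]
      congr 1
      ext a b
      rw [Matrix.map_apply, Matrix.diagonal_apply, Matrix.diagonal_apply]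
      split_ifs
      · exact hσ a
      · exact map_zero τ
    have g2 : Matrix.diagonal d * C = C * Matrix.diagonal (fun k => d (σ k)) := by
      calc Matrix.diagonal d * C = (Matrix.diagonal d * V) * a' * U.map τ := by
            rw [hC]; simp only [Matrix.mul_assoc]
        _ = V * (x * a') * U.map τ := by rw [← hVx]; simp only [Matrix.mul_assoc]
        _ = V * a' * (x * U.map τ) := by rw [hxa]; simp only [Matrix.mul_assoc]
        _ = C * Matrix.diagonal (fun k => d (σ k)) := by
            rw [hxU, hC]; simp only [Matrix.mul_assoc]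
    have g3 := congrFun (congrFun g2 l) k
    rw [Matrix.diagonal_mul, Matrix.mul_diagonal, mul_comm (C l k)] at g3
    exact hec.inj (mul_right_cancel₀ hne g3)
  have hmat : ∀ X : Module.End K (Fin n → K), ∃ y : Matrix (Fin n) (Fin n) K, X = phi y ∧
      LinearMap.toMatrix' X = y := by
    intro X
    obtain ⟨y, rfl⟩ := (phi (ι := Fin n) (K := K)).surjective X
    exact ⟨y, rfl, (phi (ι := Fin n) (K := K)).symm_apply_apply y⟩
  have hC'C : C' * C = 1 := _root_.mul_eq_one_comm.1 hCC
  have htr : ∀ X : Module.End K (Fin n → K), LinearMap.trace K (Fin n → K) (H76T.tht τ hCC X) =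
      τ (LinearMap.trace K (Fin n → K) X) := by
    intro X
    obtain ⟨y, rfl, -⟩ := hmat X
    rw [H76T.tht_apply, trace_phi, trace_phi, Matrix.trace_mul_comm, ← Matrix.mul_assoc, hC'C, Matrix.one_mul]
    exact (AddMonoidHom.map_trace (τ : K →+* K).toAddMonoidHom y).symm
  have hdet : ∀ X : Module.End K (Fin n → K), LinearMap.det (H76T.tht τ hCC X) =
      τ (LinearMap.det X) := by
    intro X
    obtain ⟨y, rfl, -⟩ := hmat X
    rw [H76T.tht_apply, det_phi, det_phi, Matrix.det_mul, Matrix.det_mul, mul_right_comm, ← Matrix.det_mul, hCC, Matrix.det_one, one_mul]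
    exact (RingHom.map_det (τ : K →+* K) y).symm
  have hcma : ∀ A ∈ preL J S, a * A = A * a := by
    rintro A ⟨⟨c₁, C₁, hC₁, hAC⟩, -⟩
    rw [hAC, Matrix.mul_add, Matrix.add_mul, hza C₁ hC₁, Matrix.mul_smul, Matrix.smul_mul,
      Matrix.mul_one, Matrix.one_mul]
  have hcmp' : ∀ A : Matrix ι ι K, a * A.map τ = A.map τ * a →
      H76T.tht τ hCC (phi (cmp U V A)) = phi (cmp U V (A.map τ)) := by
    intro A g1
    rw [H76T.tht_apply]
    congr 1
    rw [H76U.cmp_apply, H76U.cmp_apply, e3_map_mul, e3_map_mul, hC, hC']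
    calc V * a' * U.map τ * (V.map τ * A.map τ * U.map τ) * (V.map τ * a * U) =
        V * (a' * (U.map τ * V.map τ)) * A.map τ * (((U.map τ * V.map τ) * a) * U) := by
          simp only [Matrix.mul_assoc]
      _ = V * a' * (A.map τ * a) * U := by rw [hUVt, h4, h5]; simp only [Matrix.mul_assoc]
      _ = V * (a' * a) * A.map τ * U := by rw [← g1]; simp only [Matrix.mul_assoc]
      _ = _ := by rw [h2, hVe]
  have hcmp : ∀ A : Matrix ι ι K, A ∈ preL J S →
      H76T.tht τ hCC (phi (cmp U V A)) = phi (cmp U V (A.map τ)) :=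
    fun A hA => hcmp' A (hcma _ (e3_preL hJ hS hA))
  have hS' : ∀ s ∈ S, s.map τ.symm = s := by
    intro s hs
    nth_rw 1 [← hS s hs]
    exact H76T.map_symmm τ s
  have hJs : J.map τ.symm = J := by
    nth_rw 1 [← hJ]
    exact H76T.map_symmm τ J
  have hLb : ∀ X : Module.End K (Fin n → K), H76T.tht τ hCC X ∈ H76U.Lb J S U V ↔ X ∈ H76U.Lb J S U V := by
    intro X
    constructor
    · intro hX
      obtain ⟨y, hy, -⟩ := hmat (H76T.tht τ hCC X)
      rw [hy] at hX
      obtain ⟨A, hA, hAy⟩ := H76U.mem_Lb.1 hX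
      have g1 : H76T.tht τ hCC (phi (cmp U V (A.map τ.symm))) = H76T.tht τ hCC X := by
        rw [hcmp _ (e3_preL hJs hS' hA), H76T.map_symmm', hAy, hy]
      rw [← (H76T.tht τ hCC).injective g1]
      exact H76U.mem_Lb.2 ⟨_, e3_preL hJs hS' hA, rfl⟩
    · intro hX
      obtain ⟨y, rfl, -⟩ := hmat X
      obtain ⟨A, hA, rfl⟩ := H76U.mem_Lb.1 hX
      rw [hcmp _ hA]
      exact H76U.mem_Lb.2 ⟨_, e3_preL hJ hS hA, rfl⟩
  refine ⟨H76T.tht τ hCC, ⟨H76T.tht_smul τ hCC, fun g => ?_, fun X => ?_, fun X => ?_⟩, hcmp'⟩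
  · rw [← phi_diag, H76T.tht_apply, ← phi_diag]
    congr 1
    have g1 : C * (Matrix.diagonal g).map τ = Matrix.diagonal (fun k => τ (g (σ.symm k))) * C := by
      have g2 : (Matrix.diagonal g).map τ = Matrix.diagonal (fun k => τ (g k)) := by
        ext a b
        rw [Matrix.map_apply, Matrix.diagonal_apply, Matrix.diagonal_apply]
        split_ifs
        · rfl
        · exact map_zero τ
      rw [g2]
      ext l k
      rw [Matrix.diagonal_mul, Matrix.mul_diagonal]
      by_cases hz : C l k = 0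
      · rw [hz, zero_mul, mul_zero]
      · rw [hCl l k hz, Equiv.symm_apply_apply, mul_comm]
    rw [g1, Matrix.mul_assoc, hCC, Matrix.mul_one]
  · show (_ ∧ _) ↔ (_ ∧ _)
    rw [hLb, htr, map_eq_zero]
  · exact hdet X

end Pool.Agent.H86L
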