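import Pool.Agent.Lib.H86L.L2
import Pool.Agent.Lib.H86K.K10
import Pool.Agent.Lib.H76Y.W13b
import Pool.Agent.Lib.H76Y.W8d

/-!
# L3: fields with a real place, third version: one block which is its own conjugate
-/

set_option autoImplicit false
set_option linter.unusedSectionVars false
namespace Pool.Agent.H86L
open Module Matrix Polynomial Pool.Agent.H53Toric Pool.Agent.H76P Pool.Agent.H76Q Pool.Agent.H86K
open Pool.Agent.H76Y (Core3)
open Pool.Agent.H76T (IsIdeal Fam Lc)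
open Pool.Agent.H76V (Cmp)
open Pool.Agent.H76U (cmp preL IsSplitting)
open Pool.Agent.H76RM (spanK similD)

/-- Complex conjugation `c` on `Ω`: it maps the roots of the polynomials to the opposite roots; the image of the
component `b` is linked with its conjugate component; and the condition on the Hodge-Tate projectors: for almost all
`l` for which the elements of `T₀` are in `ℚ_l` there is a Hodge-Tate projector which commutes with the Frobenius
element and whose class is rational over `ℚ_l`. -/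
structure Real3 {Ω M : Type*} [Field Ω] [CharZero Ω] [Field M] {ι : Type*} [Fintype ι] [DecidableEq ι] {G : Type*}
    [Group G] (D : Subalgebra ℚ (Matrix ι ι ℚ))
    (ρ : ∀ (l : ℕ) [Fact l.Prime], G →* Matrix.GeneralLinearGroup ι ℚ_[l]) (σ : G) (q : ℚ) {m : ℕ}
    (bar : Fin m → Fin m) (e : Fin m → Matrix ι ι M) (F : Fin m → M[X])
    (j : M →+* Ω) (c : Ω ≃+* Ω) (T₀ : Finset Ω) (N : Set ℕ) : Prop where
  cc : ∀ x, c (c x) = x
  link : ∀ b, Linked D ((e (bar b)).map j) ((e b).map (c.toRingHom.comp j))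
  cT : ∀ x ∈ T₀, c x = x
  weil : ∀ b, ∀ y : Ω, (F b).eval₂ j y = 0 → y * c y = algebraMap ℚ Ω q
  fin : N.Finite
  ht : ∀ (l : ℕ) [Fact l.Prime], l ∉ N → ∀ i : Ω →+* AlgebraicClosure ℚ_[l],
    (∀ x ∈ T₀, ∃ y : ℚ_[l], i x = algebraMap ℚ_[l] (AlgebraicClosure ℚ_[l]) y) →
    ∃ h ∈ properProj (AlgebraicClosure ℚ_[l]) (ρ l),
      h * (ρ l σ).1.map (algebraMap ℚ_[l] (AlgebraicClosure ℚ_[l])) =
        (ρ l σ).1.map (algebraMap ℚ_[l] (AlgebraicClosure ℚ_[l])) * h ∧
      ∀ t : AlgebraicClosure ℚ_[l] ≃ₐ[ℚ_[l]] AlgebraicClosure ℚ_[l],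
        ∃ g g' : Matrix ι ι (AlgebraicClosure ℚ_[l]), g ∈ tgen (AlgebraicClosure ℚ_[l]) (ρ l) ∧ g * g' = 1 ∧
          h.map t = g * h * g'

variable {ι : Type*} [Fintype ι] [DecidableEq ι] {ψ : Matrix ι ι ℚ}
    {D : Subalgebra ℚ (Matrix ι ι ℚ)} {M : Type*} [Field M] [NumberField M]
    {m : ℕ} {bar : Fin m → Fin m} {e : Fin m → Matrix ι ι M} {G : Type*} [Group G]
    {ρ : ∀ (l : ℕ) [Fact l.Prime], G →* Matrix.GeneralLinearGroup ι ℚ_[l]}
    {p : ℕ} [Fact p.Prime] {σ : G} {q : ℚ} {F : Fin m → M[X]}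
    {φ μ ν : Matrix ι ι (AlgebraicClosure ℚ_[p])} {v : AlgebraicClosure ℚ_[p] → ℚ}
    {Δ : Set (AlgebraicClosure ℚ_[p] ≃+* AlgebraicClosure ℚ_[p])}
    {Ω : Type} [Field Ω] [CharZero Ω] [IsAlgClosed Ω] [Algebra.IsAlgebraic ℚ Ω] {j : M →+* Ω}
    {R : Finset Ω} {N : Set ℕ} (C : Core3 ψ D bar e ρ p σ q F φ μ ν v Δ j R N)

include C

/-- The elements of the span of `D` commute with the representation. -/
theorem lin_span (l : ℕ) [Fact l.Prime] {y : Matrix ι ι (AlgebraicClosure ℚ_[l])}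
    (hy : y ∈ spanK (AlgebraicClosure ℚ_[l]) D) (g : G) :
    (ρ l g).1.map (algebraMap ℚ_[l] (AlgebraicClosure ℚ_[l])) * y =
      y * (ρ l g).1.map (algebraMap ℚ_[l] (AlgebraicClosure ℚ_[l])) := by
  refine Submodule.span_induction (p := fun y _ => (ρ l g).1.map (algebraMap ℚ_[l] (AlgebraicClosure ℚ_[l])) * y =
      y * (ρ l g).1.map (algebraMap ℚ_[l] (AlgebraicClosure ℚ_[l]))) ?_ ?_ ?_ ?_ hy
  · rintro _ ⟨d, hd, rfl⟩
    have h7 := congrArg (fun m : Matrix ι ι ℚ_[l] => m.map (algebraMap ℚ_[l] (AlgebraicClosure ℚ_[l]))) (C.lin l g d hd)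
    have h8 : (d.map (algebraMap ℚ ℚ_[l])).map (algebraMap ℚ_[l] (AlgebraicClosure ℚ_[l])) =
        d.map (algebraMap ℚ (AlgebraicClosure ℚ_[l])) := by
      ext i j
      simp
    simp only [Matrix.map_mul] at h7
    rw [h8] at h7
    exact h7
  · rw [Matrix.mul_zero, Matrix.zero_mul]
  · intro y y' _ _ h7 h8
    rw [Matrix.mul_add, Matrix.add_mul, h7, h8]
  · intro c y _ h7
    rw [Matrix.mul_smul, Matrix.smul_mul, h7]

/-- The elements of the span of `D` commute with the monodromy. -/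
theorem zar_span (l : ℕ) [Fact l.Prime] {y : Matrix ι ι (AlgebraicClosure ℚ_[l])}
    (hy : y ∈ spanK (AlgebraicClosure ℚ_[l]) D) {A : Matrix ι ι (AlgebraicClosure ℚ_[l])}
    (hA : A ∈ zar (img (AlgebraicClosure ℚ_[l]) (ρ l) ⊤)) : A * y = y * A := by
  refine H76RM.zar_commute ?_ hA
  rintro _ ⟨s, -, rfl⟩
  exact lin_span C l hy s

/-- The elements of the span of `D` commute with the Hodge-Tate projectors. -/
theorem proj_span (l : ℕ) [Fact l.Prime] {y : Matrix ι ι (AlgebraicClosure ℚ_[l])}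
    (hy : y ∈ spanK (AlgebraicClosure ℚ_[l]) D) {h : Matrix ι ι (AlgebraicClosure ℚ_[l])}
    (hh : h ∈ properProj (AlgebraicClosure ℚ_[l]) (ρ l)) : h * y = y * h := by
  have h1 := hh.1.2 2 two_ne_zero
  have h2 := zar_span C l hy h1
  rw [add_mul, mul_add, one_mul, mul_one, smul_mul_assoc, mul_smul_comm] at h2
  have h3 := add_left_cancel h2
  have h4 : ((2 : AlgebraicClosure ℚ_[l]) - 1) = 1 := by norm_num
  rwa [h4, one_smul, one_smul] at h3

/-- The elements of the span of `D` commute with the group generated by the Hodge-Tate groups. -/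
theorem tgen_span (l : ℕ) [Fact l.Prime] {y : Matrix ι ι (AlgebraicClosure ℚ_[l])}
    (hy : y ∈ spanK (AlgebraicClosure ℚ_[l]) D) {g : Matrix ι ι (AlgebraicClosure ℚ_[l])}
    (hg : g ∈ tgen (AlgebraicClosure ℚ_[l]) (ρ l)) : g * y = y * g := by
  refine Submonoid.closure_induction (motive := fun g _ => g * y = y * g) ?_ ?_ ?_ hg
  · rintro _ ⟨k, hk, t, -, rfl⟩
    rw [add_mul, mul_add, one_mul, mul_one, smul_mul_assoc, mul_smul_comm, proj_span C l hy hk]
  · rw [one_mul, mul_one]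
  · intro a b _ _ h1 h2
    rw [mul_assoc, h2, ← mul_assoc, h1, mul_assoc]

/-- The opposition on the roots of a component which is its own conjugate. -/
theorem exists_bar (b : Fin m) (hb : bar b = b) {n : ℕ} {a : Fin n → Ω} (ha : Function.Injective a)
    (hroot : ∀ y : Ω, (F b).eval₂ j y = 0 ↔ ∃ k, y = a k) :
    ∃ π : Equiv.Perm (Fin n), ∀ k, a k * a (π k) = algebraMap ℚ Ω q := by
  have hlink : Linked D ((e (bar b)).map j) ((e b).map ((RingEquiv.refl Ω).toRingHom.comp j)) := by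
    refine ⟨1, ?_, ?_⟩
    · have h1 : (1 : Matrix ι ι Ω) = (1 : Matrix ι ι ℚ).map (algebraMap ℚ Ω) := by
        rw [Matrix.map_one _ (map_zero _) (map_one _)]
      rw [h1]
      exact Submodule.subset_span ⟨1, D.one_mem, rfl⟩
    · have h1 : (e b).map ((RingEquiv.refl Ω).toRingHom.comp j) = (e b).map j := rfl
      rw [hb, h1, mul_one, ← H76U.map_mul', C.hspl.idem b]
      exact (C.hspl.map j).ne_zero b
  obtain ⟨π, hπ, -⟩ := C.dual_linked b ha hroot (s := RingEquiv.refl Ω) hlink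
  exact ⟨π, hπ⟩

/-- The multiplier is not zero. -/
theorem q_ne (b : Fin m) : q ≠ 0 := by
  intro h1
  obtain ⟨-, hdet⟩ := gram_basic C.hψ C.hψ0 (AlgebraicClosure ℚ_[p])
  have hι : Nonempty ι := by
    by_contra hemp
    rw [not_nonempty_iff] at hemp
    apply C.hspl.ne_zero b
    ext i'
    exact (hemp.false i').elim
  have h3 := C.multp
  rw [h1, map_zero, zero_smul] at h3
  have h4 := congrArg Matrix.det h3
  rw [Matrix.det_mul, Matrix.det_mul, Matrix.det_transpose, Matrix.det_zero] at h4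
  exact mul_ne_zero (mul_ne_zero C.frobp.idc.1 hdet.ne_zero) C.frobp.idc.1 h4

/-- All odd functions are in the configuration. -/
theorem odd_gen3 {c : Ω ≃+* Ω} {T₀ : Finset Ω} {N' : Set ℕ}
    (hr : Real3 D ρ σ q bar e F j c T₀ N') (b : Fin m) (hb : bar b = b)
    {n : ℕ} {a : Fin n → Ω} (hn : 0 < n) (ha : Function.Injective a)
    (hroot : ∀ y : Ω, (F b).eval₂ j y = 0 ↔ ∃ k, y = a k) (hone : IsBlock (1 : Module.End ℚ (YS a)))
    (two : ∀ k : ℕ, 4 ≤ k → n ≠ 2 ^ k) {bar' : Equiv.Perm (Fin n)}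
    (hbar : ∀ k, a k * a (bar' k) = algebraMap ℚ Ω q) :
    (∀ k, bar' (bar' k) = k) ∧ (∀ k, bar' k ≠ k) ∧
      ∀ f : Fin n → ℚ, (∀ k, f (bar' k) = -f k) → f ∈ YS a := by
  classical
  have hq0 : (algebraMap ℚ Ω q) ≠ 0 := by
    rw [Ne, _root_.map_eq_zero]
    exact q_ne C b
  have ha0 : ∀ k, a k ≠ 0 := by
    intro k hk
    have h1 := hbar k
    rw [hk, zero_mul] at h1
    exact hq0 h1.symm
  have hca : ∀ k, c (a k) = a (bar' k) := by
    intro k
    apply mul_left_cancel₀ (ha0 k)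
    rw [hbar k, hr.weil b _ ((hroot _).2 ⟨k, rfl⟩)]
  have hbb : ∀ k, bar' (bar' k) = k := by
    intro k
    apply ha
    rw [← hca, ← hca, hr.cc]
  have loc : ∀ (l : ℕ) [Fact l.Prime], l ≠ p → ∀ i : Ω →+* AlgebraicClosure ℚ_[l],
      ∃ (H₀ : Subgroup G) (U : Matrix ι (Fin n) (AlgebraicClosure ℚ_[l]))
        (V : Matrix (Fin n) ι (AlgebraicClosure ℚ_[l])), H₀.FiniteIndex ∧
        Loc (ψ.map (algebraMap ℚ (AlgebraicClosure ℚ_[l]))) (img (AlgebraicClosure ℚ_[l]) (ρ l) H₀)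
          (properProj (AlgebraicClosure ℚ_[l]) (ρ l)) ((e b).map (i.comp j))
          ((ρ l σ).1.map (algebraMap ℚ_[l] (AlgebraicClosure ℚ_[l])))
          (algebraMap ℚ (AlgebraicClosure ℚ_[l]) q) U V (fun k => i (a k)) (YS a) :=
    fun l _ hlp i => C.locl_old b hb ha hroot l hlp i
  -- the finite set
  set T1 : Finset Ω := Finset.univ.image a ∪ T₀ ∪ Finset.univ.image (fun w : ι × ι => j ((e b) w.1 w.2)) with hT1
  set T : Finset Ω := T1 ∪ T1.image c with hT
  have hTc : ∀ x ∈ T, c x ∈ T := by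
    intro x hx
    rw [hT, Finset.mem_union] at hx ⊢
    rcases hx with hx | hx
    · exact Or.inr (Finset.mem_image_of_mem _ hx)
    · obtain ⟨y, hy, rfl⟩ := Finset.mem_image.1 hx
      rw [hr.cc]
      exact Or.inl hy
  have hTa : ∀ k, a k ∈ T := by
    intro k
    rw [hT, Finset.mem_union, hT1, Finset.mem_union, Finset.mem_union]
    exact Or.inl (Or.inl (Or.inl (Finset.mem_image_of_mem _ (Finset.mem_univ _))))
  have hT0 : ∀ x ∈ T₀, x ∈ T := by
    intro x hx
    rw [hT, Finset.mem_union, hT1, Finset.mem_union, Finset.mem_union]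
    exact Or.inl (Or.inl (Or.inr hx))
  have hTe : ∀ u v, j ((e b) u v) ∈ T := by
    intro u v
    rw [hT, Finset.mem_union, hT1, Finset.mem_union]
    exact Or.inl (Or.inr (Finset.mem_image_of_mem (fun w : ι × ι => j ((e b) w.1 w.2)) (Finset.mem_univ (u, v))))
  have hadj : ∀ x ∈ T, x ∈ IntermediateField.adjoin ℚ (T : Set Ω) :=
    fun x hx => IntermediateField.subset_adjoin ℚ _ hx
  -- `bar'` has no fixed point: local data at any prime
  have hbne0 : bar' ⟨0, hn⟩ ≠ ⟨0, hn⟩ := by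
    obtain ⟨l, hl, hlp⟩ : ∃ l : ℕ, l.Prime ∧ l ≠ p := by
      obtain ⟨l, hl, hlp⟩ := Nat.exists_infinite_primes (p + 1)
      exact ⟨l, hlp, by omega⟩
    have : Fact l.Prime := ⟨hl⟩
    let i : Ω →+* AlgebraicClosure ℚ_[l] :=
      (IsAlgClosed.lift (R := ℚ) (S := Ω) (M := AlgebraicClosure ℚ_[l])).toRingHom
    obtain ⟨H₀, U, V, -, hL⟩ := loc l hlp i
    intro hk
    have hbar' : ∀ k, i (a k) * i (a (bar' k)) = algebraMap ℚ (AlgebraicClosure ℚ_[l]) q := by
      intro k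
      rw [← map_mul, hbar k, eq_ratCast, eq_ratCast, map_ratCast]
    have h1 : ∀ k', (Uᵀ * ψ.map (algebraMap ℚ (AlgebraicClosure ℚ_[l])) * U) ⟨0, hn⟩ k' = 0 := by
      intro k'
      by_contra h2
      have h3 := pair_bar hL hbar' (fun k => (_root_.map_ne_zero i).2 (ha0 k)) _ _ h2
      rw [hk] at h3
      rw [h3] at h2
      have h4 := congrFun (congrFun hL.ts.cmp.Jt ⟨0, hn⟩) ⟨0, hn⟩
      rw [Matrix.transpose_apply, Matrix.neg_apply] at h4
      exact h2 (self_eq_neg.1 h4)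
    have h3 := hL.ts.cmp.Jd
    rw [Matrix.det_eq_zero_of_row_eq_zero _ h1] at h3
    exact not_isUnit_zero h3
  obtain ⟨l, hlf, hlN, i, t, ht1, ht2⟩ := exists_flip c hr.cc T hTc (hTa ⟨0, hn⟩)
    (by rw [hca]; exact fun h => hbne0 (ha h)) (N := N' ∪ {p}) (hr.fin.union (Set.finite_singleton p))
  have hlN' : l ∉ N' := fun h => hlN (Or.inl h)
  have hlp : l ≠ p := fun h => hlN (Or.inr h)
  obtain ⟨y, hy, hyx, hyt⟩ := hr.ht l hlN' i (fun x hx => ht2 x (hadj x (hT0 x hx)) (hr.cT x hx))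
  obtain ⟨g, g', hg, hgg, hconj⟩ := hyt t
  obtain ⟨H₀, U, V, -, hL⟩ := loc l hlp i
  -- linked idempotents
  have hlink : Linked D ((e b).map j) ((e b).map (c.toRingHom.comp j)) := by
    have h1 := hr.link b
    rwa [hb] at h1
  obtain ⟨a₁, ha₁, a', ha', h1, h2, h3, h4, h5, h6⟩ := (Pool.Agent.H76Y.pr_of_linked C.hspl j c b hlink).map i
  have e1 : ((e b).map j).map i = (e b).map (i.comp j) := by
    ext x y
    rfl
  have e2 : ((e b).map (c.toRingHom.comp j)).map i = (e b).map (i.comp (c.toRingHom.comp j)) := by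
    ext x y
    rfl
  have e3 : (e b).map (i.comp (c.toRingHom.comp j)) = ((e b).map (i.comp j)).map t.toRingEquiv := by
    ext x y
    exact (ht1 _ (hadj _ (hTe x y))).symm
  rw [e1] at h2 h3 h6
  rw [e2] at h1 h4 h5
  obtain ⟨c₁, hc₁⟩ := C.pr_form l b hb (i.comp j) (i.comp (c.toRingHom.comp j)) ha' h3 h4
  rw [e3] at h1 h4 h5 hc₁
  have hz : ∀ y ∈ spanK (AlgebraicClosure ℚ_[l]) D, ∀ A ∈ zlie (img (AlgebraicClosure ℚ_[l]) (ρ l) H₀), y * A = A * y := by
    intro y hy A hA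
    refine (H76RM.zlie_commute (img_one (ρ l) H₀) ?_ hA).symm
    rintro _ ⟨g, -, rfl⟩
    exact lin_span C l hy g
  have hge : g' * a₁ = a₁ * g' := by
    have h7 := tgen_span C l ha₁ hg
    have hg'g : g' * g = 1 := _root_.mul_eq_one_comm.1 hgg
    calc g' * a₁ = g' * (a₁ * (g * g')) := by rw [hgg, mul_one]
      _ = g' * ((a₁ * g) * g') := by rw [mul_assoc a₁ g g']
      _ = g' * ((g * a₁) * g') := by rw [h7]
      _ = (g' * g) * (a₁ * g') := by noncomm_ring
      _ = a₁ * g' := by rw [hg'g, one_mul]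
  have hay : a₁ * y.map t.toRingEquiv = y.map t.toRingEquiv * a₁ := by
    have h7 := tgen_span C l ha₁ hg
    have h8 := proj_span C l ha₁ hy
    have h9 : y.map t.toRingEquiv = g * y * g' := hconj
    rw [h9]
    calc a₁ * (g * y * g') = (a₁ * g) * y * g' := by noncomm_ring
      _ = g * (a₁ * y) * g' := by rw [← h7]; noncomm_ring
      _ = g * y * (a₁ * g') := by rw [← h8]; noncomm_ring
      _ = g * y * g' * a₁ := by rw [← hge]; noncomm_ring
  obtain ⟨hbne, hodd⟩ := full_local2 hL hone two (τ := t.toRingEquiv) h1 h2 h3 h4 h5 h6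
    (lin_span C l ha' σ) (hz a₁ ha₁) (hz a' ha') hc₁
    (H76Q.e6_fix t _) (by
      ext x y
      show t (algebraMap ℚ (AlgebraicClosure ℚ_[l]) (ψ x y)) = algebraMap ℚ (AlgebraicClosure ℚ_[l]) (ψ x y)
      rw [IsScalarTower.algebraMap_apply ℚ ℚ_[l] (AlgebraicClosure ℚ_[l]), t.commutes]) (fun x hx => by
      obtain ⟨g, -, rfl⟩ := hx
      exact H76Q.e6_fix t _)
    (bar := bar')
    (by
      intro k
      show t (i (a k)) = i (a (bar' k))
      rw [ht1 _ (hadj _ (hTa k)), hca])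
    (by
      intro k
      rw [← map_mul, hbar k, eq_ratCast, eq_ratCast, map_ratCast])
    hy hyx hg hgg hconj hay
  exact ⟨hbb, hbne, hodd⟩

/-- **Fields with a real place: no binomial exceptions** (third version): if the rank of a component which is its
own conjugate is a central binomial coefficient, then the Lie algebra is full. -/
theorem core3_binom {c : Ω ≃+* Ω} {T₀ : Finset Ω} {N' : Set ℕ}
    (hr : Real3 D ρ σ q bar e F j c T₀ N') (b : Fin m) (hb : bar b = b)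
    {n : ℕ} {a : Fin n → Ω} (ha : Function.Injective a)
    (hroot : ∀ y : Ω, (F b).eval₂ j y = 0 ↔ ∃ k, y = a k) (hone : IsBlock (1 : Module.End ℚ (YS a)))
    (hbin : ∃ k : ℕ, 3 ≤ k ∧ n = k.centralBinom) {K : Type*} [Field K] [CharZero K] [IsAlgClosed K]
    {L : Submodule K (Module.End K (Fin n → K))} {J : Matrix (Fin n) (Fin n) K} (hT : TS L J) (hY : Yo L = YS a)
    {X : Module.End K (Fin n → K)} (hX : adjE J X = -X) : X ∈ L := by
  obtain ⟨k, hk, hnk⟩ := hbin
  have hn : 0 < n := by rw [hnk]; exact Nat.centralBinom_pos k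
  have two : ∀ k : ℕ, 4 ≤ k → n ≠ 2 ^ k := by
    intro k' _ h
    rw [hnk] at h
    exact Pool.Agent.H49M.R3_binom_pow (by omega) h
  obtain ⟨bar', hbar⟩ := exists_bar C b hb ha hroot
  obtain ⟨hbb, hbne, hodd⟩ := odd_gen3 C hr b hb hn ha hroot hone two hbar
  have : Nonempty (Fin n) := ⟨⟨0, hn⟩⟩
  exact full_of_odd hT hY hone (by rw [Fintype.card_fin]; exact two) hbb hbne hodd hX

end Pool.Agent.H86L
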