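import Pool.Agent.Lib.H76Q.Q1
import Pool.Agent.Lib.H76U.Defs
import Mathlib.LinearAlgebra.QuadraticForm.Basic

/-!
# L4: a positive involution: the complex conjugate of a component is linked with its conjugate
-/

set_option autoImplicit false
set_option linter.unusedSectionVars false
namespace Pool.Agent.H86L
open Module Matrix Pool.Agent.H76Q
open Pool.Agent.H76U (IsSplitting)
open Pool.Agent.H76RM (spanK)

variable {ι : Type*} [Fintype ι] [DecidableEq ι] {ψ : Matrix ι ι ℚ} {D : Subalgebra ℚ (Matrix ι ι ℚ)}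

/-- The form `(u, v) ↦ tr (u v*)` on `D`, where `v*` is the adjoint of `v` for `ψ`. -/
noncomputable def posF (ψ : Matrix ι ι ℚ) (D : Subalgebra ℚ (Matrix ι ι ℚ)) : LinearMap.BilinForm ℚ D :=
  LinearMap.mk₂ ℚ (fun u v => (u.1 * (ψ⁻¹ * v.1ᵀ * ψ)).trace)
    (fun u u' v => by
      show ((u.1 + u'.1) * _).trace = _
      rw [add_mul, Matrix.trace_add])
    (fun c u v => by
      show ((c • u.1) * _).trace = _
      rw [smul_mul_assoc, Matrix.trace_smul])
    (fun u v v' => by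
      show (u.1 * (ψ⁻¹ * (v.1 + v'.1)ᵀ * ψ)).trace = _
      rw [Matrix.transpose_add, mul_add, add_mul, mul_add, Matrix.trace_add])
    (fun c u v => by
      show (u.1 * (ψ⁻¹ * (c • v.1)ᵀ * ψ)).trace = _
      rw [Matrix.transpose_smul, mul_smul_comm, smul_mul_assoc, mul_smul_comm, Matrix.trace_smul])

theorem posF_apply (u v : D) : posF ψ D u v = (u.1 * (ψ⁻¹ * v.1ᵀ * ψ)).trace := rfl

theorem posF_symm (hψ : ψᵀ = -ψ) (hψ0 : ψ.det ≠ 0) (u v : D) : posF ψ D u v = posF ψ D v u := by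
  have hdet : IsUnit ψ.det := hψ0.isUnit
  rw [posF_apply, posF_apply]
  have h1 : (ψ⁻¹)ᵀ = -ψ⁻¹ := by
    rw [Matrix.transpose_nonsing_inv, hψ]
    apply Matrix.inv_eq_left_inv
    rw [neg_mul_neg, Matrix.nonsing_inv_mul _ hdet]
  calc (u.1 * (ψ⁻¹ * v.1ᵀ * ψ)).trace = ((u.1 * (ψ⁻¹ * v.1ᵀ * ψ))ᵀ).trace := (Matrix.trace_transpose _).symm
    _ = (ψᵀ * v.1 * (ψ⁻¹)ᵀ * u.1ᵀ).trace := by
        simp only [Matrix.transpose_mul, Matrix.transpose_transpose, Matrix.mul_assoc]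
    _ = (ψ * (v.1 * ψ⁻¹ * u.1ᵀ)).trace := by
        rw [hψ, h1]
        congr 1
        simp only [Matrix.neg_mul, Matrix.mul_neg, neg_neg, Matrix.mul_assoc]
    _ = ((v.1 * ψ⁻¹ * u.1ᵀ) * ψ).trace := Matrix.trace_mul_comm _ _
    _ = _ := by simp only [Matrix.mul_assoc]

/-- The complex conjugate of a complex matrix. -/
noncomputable def cj (X : Matrix ι ι ℂ) : Matrix ι ι ℂ := X.map (starRingEnd ℂ)

/-- Positivity over `ℂ`. -/
theorem pos_ne (hψ : ψᵀ = -ψ) (hψ0 : ψ.det ≠ 0)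
    (hpos : ∀ d ∈ D, d ≠ 0 → 0 < (d * (ψ⁻¹ * dᵀ * ψ)).trace) {X : Matrix ι ι ℂ} (hX : X ∈ spanK ℂ D)
    (hX0 : X ≠ 0) :
    X * ((ψ.map (algebraMap ℚ ℂ))⁻¹ * (cj X)ᵀ * ψ.map (algebraMap ℚ ℂ)) ≠ 0 := by
  classical
  have hdet : IsUnit ψ.det := hψ0.isUnit
  letI : Invertible (2 : ℚ) := invertibleOfNonzero two_ne_zero
  obtain ⟨v, hv⟩ := LinearMap.BilinForm.exists_orthogonal_basis (B := posF ψ D)
    ⟨fun u v => posF_symm hψ hψ0 u v⟩
  have hort : ∀ i k, i ≠ k → posF ψ D (v i) (v k) = 0 := fun i k hik => hv hik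
  -- the expansion of `X`
  obtain ⟨x, hx⟩ : ∃ x : Fin (finrank ℚ D) → ℂ, X = ∑ i, x i • (v i).1.map (algebraMap ℚ ℂ) := by
    refine Submodule.span_induction (p := fun X _ => ∃ x : Fin (finrank ℚ D) → ℂ,
      X = ∑ i, x i • (v i).1.map (algebraMap ℚ ℂ)) ?_ ?_ ?_ ?_ hX
    · rintro _ ⟨d, hd, rfl⟩
      refine ⟨fun i => ((v.repr ⟨d, hd⟩ i : ℚ) : ℂ), ?_⟩
      have h1 := congrArg Subtype.val (v.sum_repr ⟨d, hd⟩)
      have h2 : d = ∑ i, v.repr ⟨d, hd⟩ i • (v i).1 := by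
        have h3 : ((∑ i, v.repr ⟨d, hd⟩ i • v i : D) : Matrix ι ι ℚ) = ∑ i, v.repr ⟨d, hd⟩ i • (v i).1 := by
          rw [AddSubmonoidClass.coe_finset_sum]
          rfl
        rw [← h3]
        exact h1.symm
      ext a b
      rw [Matrix.map_apply]
      conv_lhs => rw [h2]
      rw [Matrix.sum_apply, Matrix.sum_apply, map_sum]
      refine Finset.sum_congr rfl fun i _ => ?_
      rw [Matrix.smul_apply, Matrix.smul_apply, Matrix.map_apply, smul_eq_mul, smul_eq_mul, map_mul]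
      rfl
    · exact ⟨0, by simp⟩
    · rintro X Y _ _ ⟨x, hx⟩ ⟨y, hy⟩
      refine ⟨x + y, ?_⟩
      rw [hx, hy, ← Finset.sum_add_distrib]
      refine Finset.sum_congr rfl fun i _ => ?_
      rw [Pi.add_apply, add_smul]
    · rintro c X _ ⟨x, hx⟩
      refine ⟨c • x, ?_⟩
      rw [hx, Finset.smul_sum]
      refine Finset.sum_congr rfl fun i _ => ?_
      rw [Pi.smul_apply, smul_assoc]
  have hcj : (cj X)ᵀ = ∑ i, (starRingEnd ℂ) (x i) • ((v i).1.map (algebraMap ℚ ℂ))ᵀ := by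
    ext a b
    rw [Matrix.transpose_apply, cj, Matrix.map_apply, hx, Matrix.sum_apply, Matrix.sum_apply, map_sum]
    refine Finset.sum_congr rfl fun i _ => ?_
    rw [Matrix.smul_apply, Matrix.smul_apply, Matrix.transpose_apply, Matrix.map_apply, smul_eq_mul, smul_eq_mul, map_mul]
    congr 1
    rw [eq_ratCast, map_ratCast]
  intro h0
  have hinvm : (ψ.map (algebraMap ℚ ℂ))⁻¹ = ψ⁻¹.map (algebraMap ℚ ℂ) := by
    apply Matrix.inv_eq_left_inv
    have h1 := congrArg (fun A : Matrix ι ι ℚ => A.map (algebraMap ℚ ℂ)) (Matrix.nonsing_inv_mul ψ hdet)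
    simp only [Matrix.map_mul] at h1
    rw [h1, Matrix.map_one _ (map_zero _) (map_one _)]
  have htr : ∀ i k, ((v i).1.map (algebraMap ℚ ℂ) * ((ψ.map (algebraMap ℚ ℂ))⁻¹ * ((v k).1.map (algebraMap ℚ ℂ))ᵀ *
      ψ.map (algebraMap ℚ ℂ))).trace = algebraMap ℚ ℂ (posF ψ D (v i) (v k)) := by
    intro i k
    rw [hinvm, posF_apply]
    have h1 : (v i).1.map (algebraMap ℚ ℂ) * (ψ⁻¹.map (algebraMap ℚ ℂ) * ((v k).1.map (algebraMap ℚ ℂ))ᵀ *
        ψ.map (algebraMap ℚ ℂ)) = ((v i).1 * (ψ⁻¹ * (v k).1ᵀ * ψ)).map (algebraMap ℚ ℂ) := by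
      rw [Matrix.map_mul, Matrix.map_mul, Matrix.map_mul, Matrix.transpose_map]
    rw [h1]
    exact (AddMonoidHom.map_trace (algebraMap ℚ ℂ : ℚ →+* ℂ).toAddMonoidHom _).symm
  have hsum : (∑ i, (x i * (starRingEnd ℂ) (x i)) * algebraMap ℚ ℂ (posF ψ D (v i) (v i))) = 0 := by
    have h1 := congrArg Matrix.trace h0
    rw [hcj, Matrix.trace_zero] at h1
    nth_rw 1 [hx] at h1
    rw [Finset.mul_sum, Finset.sum_mul, Finset.sum_mul, Matrix.trace_sum] at h1
    rw [← h1]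
    refine Finset.sum_congr rfl fun i _ => ?_
    rw [Finset.mul_sum, Matrix.trace_sum, Finset.sum_eq_single i]
    · rw [mul_smul_comm, smul_mul_assoc, smul_mul_assoc, mul_smul_comm, smul_smul, Matrix.trace_smul, htr, smul_eq_mul]
    · intro k _ hki
      rw [mul_smul_comm, smul_mul_assoc, smul_mul_assoc, mul_smul_comm, smul_smul, Matrix.trace_smul, htr,
        hort i k (Ne.symm hki), map_zero, smul_zero]
    · intro h
      exact absurd (Finset.mem_univ i) h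
  have hreal : (∑ i, Complex.normSq (x i) * ((posF ψ D (v i) (v i) : ℚ) : ℝ)) = 0 := by
    have h1 : ((∑ i, Complex.normSq (x i) * ((posF ψ D (v i) (v i) : ℚ) : ℝ) : ℝ) : ℂ) = 0 := by
      rw [← hsum, Complex.ofReal_sum]
      refine Finset.sum_congr rfl fun i _ => ?_
      rw [Complex.mul_conj]
      push_cast
      rfl
    exact_mod_cast h1
  have hpos' : ∀ i, 0 < ((posF ψ D (v i) (v i) : ℚ) : ℝ) := by
    intro i
    have h1 : (v i).1 ≠ 0 := by
      intro h2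
      exact v.ne_zero i (Subtype.ext h2)
    exact_mod_cast hpos (v i).1 (v i).2 h1
  have hx0 : ∀ i, x i = 0 := by
    intro i
    have h1 := (Finset.sum_eq_zero_iff_of_nonneg (fun i _ =>
      mul_nonneg (Complex.normSq_nonneg (x i)) (hpos' i).le)).1 hreal i (Finset.mem_univ i)
    exact Complex.normSq_eq_zero.1 ((mul_eq_zero.1 h1).resolve_right (hpos' i).ne')
  apply hX0
  rw [hx]
  exact Finset.sum_eq_zero fun i _ => by rw [hx0 i, zero_smul]

/-- **Positivity.** The image of a component under a complex conjugation is linked with the conjugate component. -/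
theorem linked_of_pos (hψ : ψᵀ = -ψ) (hψ0 : ψ.det ≠ 0)
    (hpos : ∀ d ∈ D, d ≠ 0 → 0 < (d * (ψ⁻¹ * dᵀ * ψ)).trace) {M : Type*} [Field M] [NumberField M] {m : ℕ}
    {bar : Fin m → Fin m} {e : Fin m → Matrix ι ι M} (hspl : IsSplitting D ψ bar e) {Ω : Type*} [Field Ω] [CharZero Ω]
    (j : M →+* Ω) (κ : Ω →+* ℂ) (c : Ω ≃+* Ω) (hc : ∀ y, κ (c y) = (starRingEnd ℂ) (κ y)) (b : Fin m) :
    Linked D ((e (bar b)).map j) ((e b).map (c.toRingHom.comp j)) := by
  have h1D : (1 : Matrix ι ι Ω) ∈ spanK Ω D := by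
    have h1 : (1 : Matrix ι ι Ω) = (1 : Matrix ι ι ℚ).map (algebraMap ℚ Ω) := by
      rw [Matrix.map_one _ (map_zero _) (map_one _)]
    rw [h1]
    exact Submodule.subset_span ⟨1, D.one_mem, rfl⟩
  refine ⟨1, h1D, fun h0 => ?_⟩
  rw [mul_one] at h0
  have S := hspl.map (κ.comp j)
  refine pos_ne hψ hψ0 hpos (S.mem (bar b)) (S.ne_zero (bar b)) ?_
  have hadj := S.adj (bar b)
  rw [hspl.barbar] at hadj
  have hdet : IsUnit (ψ.map (algebraMap ℚ ℂ)).det := by
    have h5 : (ψ.map (algebraMap ℚ ℂ)).det = algebraMap ℚ ℂ ψ.det := (RingHom.map_det _ _).symm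
    rw [h5]
    exact ((_root_.map_ne_zero _).2 hψ0).isUnit
  -- the adjoint of the complex conjugate
  have h1 : (cj ((e (bar b)).map (κ.comp j)))ᵀ * ψ.map (algebraMap ℚ ℂ) =
      ψ.map (algebraMap ℚ ℂ) * cj ((e b).map (κ.comp j)) := by
    have h2 := congrArg cj hadj
    have h3 : ∀ A B : Matrix ι ι ℂ, cj (A * B) = cj A * cj B := fun A B => Matrix.map_mul
    have h4 : cj (ψ.map (algebraMap ℚ ℂ)) = ψ.map (algebraMap ℚ ℂ) := by
      ext a b
      rw [cj, Matrix.map_apply, Matrix.map_apply, eq_ratCast, map_ratCast]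
    rw [h3, h3, h4] at h2
    exact h2
  have h2 : cj ((e b).map (κ.comp j)) = ((e b).map (c.toRingHom.comp j)).map κ := by
    ext a a'
    rw [cj, Matrix.map_apply, Matrix.map_apply, Matrix.map_apply, Matrix.map_apply]
    exact (hc _).symm
  have h3 : (e (bar b)).map (κ.comp j) = ((e (bar b)).map j).map κ := by
    ext a a'
    rfl
  rw [mul_assoc, h1, ← mul_assoc (ψ.map (algebraMap ℚ ℂ))⁻¹, Matrix.nonsing_inv_mul _ hdet, one_mul, h2, h3,
    ← Matrix.map_mul, h0]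
  ext a a'
  simp

end Pool.Agent.H86L
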