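import Pool.Agent.Lib.H86L.M3
import Pool.Agent.Lib.H86L.L5
import Pool.Agent.Lib.H76Z.W11

/-!
# M4: number fields with a real place, fourth version; the component theorem with a real place
-/

set_option autoImplicit false
set_option linter.unusedSectionVars false
namespace Pool.Agent.H86L
open Module Matrix Polynomial Pool.Agent.H53Toric Pool.Agent.H76P Pool.Agent.H76Q Pool.Agent.H86K
open Pool.Agent.H76Y (LcN ThetaN TM CmpN NsL PartN)
open Pool.Agent.H76Z (Cl LocN Core3 Splits)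
open Pool.Agent.H76T (IsIdeal Fam)
open Pool.Agent.H76U (cmp preL IsSplitting)
open Pool.Agent.H76RM (spanK similD)

section
variable {ι : Type*} [Fintype ι] [DecidableEq ι] {ψ : Matrix ι ι ℚ} {D : Subalgebra ℚ (Matrix ι ι ℚ)}

/-- **Positivity.** The image of a component under a complex conjugation is linked with the conjugate component. -/
theorem linked_of_pos4 (hψ : ψᵀ = -ψ) (hψ0 : ψ.det ≠ 0)
    (hpos : ∀ d ∈ D, d ≠ 0 → 0 < (d * (ψ⁻¹ * dᵀ * ψ)).trace) {M : Type*} [Field M] [NumberField M] {m : ℕ}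
    {cl : Fin m → Cl} {bar : Fin m → Fin m} {e : Fin m → Matrix ι ι M} {u₀ : Matrix ι ι M}
    (hspl : Splits D ψ cl bar e u₀) {Ω : Type*} [Field Ω] [CharZero Ω]
    (j : M →+* Ω) (κ : Ω →+* ℂ) (c : Ω ≃+* Ω) (hc : ∀ y, κ (c y) = (starRingEnd ℂ) (κ y)) (b : Fin m) :
    Linked D ((e (bar b)).map j) ((e b).map (c.toRingHom.comp j)) := by
  refine ⟨u₀.map (c.toRingHom.comp j), (hspl.map (c.toRingHom.comp j)).umem, fun h0 => ?_⟩
  have S := hspl.map (κ.comp j)
  refine pos_ne hψ hψ0 hpos (S.mem (bar b)) (S.ne_zero (bar b)) ?_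
  have hadj := S.adj (bar b)
  rw [hspl.barbar] at hadj
  have hdet : IsUnit (ψ.map (algebraMap ℚ ℂ)).det := by
    have h5 : (ψ.map (algebraMap ℚ ℂ)).det = algebraMap ℚ ℂ ψ.det := (RingHom.map_det _ _).symm
    rw [h5]
    exact ((_root_.map_ne_zero _).2 hψ0).isUnit
  have hcm : ∀ A : Matrix ι ι M, cj (A.map (κ.comp j)) = (A.map (c.toRingHom.comp j)).map κ := by
    intro A
    ext a a'
    rw [cj, Matrix.map_apply, Matrix.map_apply, Matrix.map_apply, Matrix.map_apply]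
    exact (hc _).symm
  obtain ⟨W, hW⟩ : ∃ W, W = (u₀.map (c.toRingHom.comp j)).map κ := ⟨_, rfl⟩
  have hWd : IsUnit W.det := by
    have h1 : W.det = κ (u₀.map (c.toRingHom.comp j)).det := by
      rw [hW]
      exact (RingHom.map_det _ _).symm
    rw [h1]
    exact (hspl.map (c.toRingHom.comp j)).unit.map κ
  -- the adjoint of the complex conjugate
  have h1 : (cj ((e (bar b)).map (κ.comp j)))ᵀ * (ψ.map (algebraMap ℚ ℂ) * W) =
      ψ.map (algebraMap ℚ ℂ) * W * ((e b).map (c.toRingHom.comp j)).map κ := by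
    have h2 := congrArg cj hadj
    have h3 : ∀ A B : Matrix ι ι ℂ, cj (A * B) = cj A * cj B := fun A B => Matrix.map_mul
    have h4 : cj (ψ.map (algebraMap ℚ ℂ)) = ψ.map (algebraMap ℚ ℂ) := by
      ext a b
      rw [cj, Matrix.map_apply, Matrix.map_apply, eq_ratCast, map_ratCast]
    rw [h3, h3, h3, h3, h4, hcm, hcm, ← hW] at h2
    exact h2
  have h3 : (e (bar b)).map (κ.comp j) = ((e (bar b)).map j).map κ := by
    ext a a'
    rfl
  have h4 : (cj ((e (bar b)).map (κ.comp j)))ᵀ * ψ.map (algebraMap ℚ ℂ) =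
      ψ.map (algebraMap ℚ ℂ) * (W * ((e b).map (c.toRingHom.comp j)).map κ * W⁻¹) := by
    calc (cj ((e (bar b)).map (κ.comp j)))ᵀ * ψ.map (algebraMap ℚ ℂ) =
        (cj ((e (bar b)).map (κ.comp j)))ᵀ * (ψ.map (algebraMap ℚ ℂ) * W) * W⁻¹ := by
          rw [mul_assoc, mul_assoc, Matrix.mul_nonsing_inv _ hWd, mul_one]
      _ = _ := by rw [h1]; simp only [mul_assoc]
  rw [mul_assoc, h4, ← mul_assoc (ψ.map (algebraMap ℚ ℂ))⁻¹, Matrix.nonsing_inv_mul _ hdet, one_mul, h3, hW,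
    ← mul_assoc, ← mul_assoc, ← Matrix.map_mul, ← Matrix.map_mul, h0]
  have h5 : (0 : Matrix ι ι Ω).map κ = 0 := by
    ext a a'
    simp
  rw [h5, zero_mul]

end

/-- A number field with a real place gives `Real3`: the involution is positive, the eigenvalues are Weil numbers, and
the condition on the Hodge-Tate projectors. -/
theorem real_of4 {F M Ω : Type} [Field F] [NumberField F] [Field M] [NumberField M] [Field Ω] [CharZero Ω]
    [Algebra F Ω] [IsAlgClosure F Ω] (j : M →+* Ω) (τ₀ : F →+* ℝ)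
    {ι : Type*} [Fintype ι] [DecidableEq ι] {ψ : Matrix ι ι ℚ} (hψ : ψᵀ = -ψ) (hψ0 : ψ.det ≠ 0)
    {D : Subalgebra ℚ (Matrix ι ι ℚ)} (hpos : ∀ d ∈ D, d ≠ 0 → 0 < (d * (ψ⁻¹ * dᵀ * ψ)).trace)
    {m : ℕ} {cl : Fin m → Cl} {bar : Fin m → Fin m} {e : Fin m → Matrix ι ι M} {u₀ : Matrix ι ι M}
    (hspl : Splits D ψ cl bar e u₀) {G : Type*} [Group G]
    (ρ : ∀ (l : ℕ) [Fact l.Prime], G →* Matrix.GeneralLinearGroup ι ℚ_[l]) (σ : G) (p : ℕ)
    (χ : Fin m → M[X]) (f : ℤ[X]) (weil : ∀ z : ℂ, aeval z f = 0 → ‖z‖ ^ 2 = p)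
    (hroot : ∀ b, ∀ a : Ω, (χ b).eval₂ j a = 0 → aeval a f = 0) (N : Set ℕ) (hN : N.Finite)
    (ht : ∀ (l : ℕ) [Fact l.Prime], l ∉ N → Nonempty (F →+* ℚ_[l]) →
      ∃ h ∈ properProj (AlgebraicClosure ℚ_[l]) (ρ l),
        h * (ρ l σ).1.map (algebraMap ℚ_[l] (AlgebraicClosure ℚ_[l])) =
          (ρ l σ).1.map (algebraMap ℚ_[l] (AlgebraicClosure ℚ_[l])) * h ∧
        ∀ t : AlgebraicClosure ℚ_[l] ≃ₐ[ℚ_[l]] AlgebraicClosure ℚ_[l],
          ∃ g g' : Matrix ι ι (AlgebraicClosure ℚ_[l]), g ∈ tgen (AlgebraicClosure ℚ_[l]) (ρ l) ∧ g * g' = 1 ∧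
            h.map t = g * h * g') :
    ∃ (c : Ω ≃+* Ω) (T₀ : Finset Ω), Real3 D ρ σ (p : ℚ) bar e χ j c T₀ N := by
  classical
  have hcl : IsAlgClosed Ω := IsAlgClosure.isAlgClosed F
  have halgF : Algebra.IsAlgebraic F Ω := IsAlgClosure.isAlgebraic
  have halg : Algebra.IsAlgebraic ℚ Ω := Algebra.IsAlgebraic.trans ℚ F Ω
  letI : Algebra F ℂ := (Complex.ofRealHom.comp τ₀).toAlgebra
  let κ : Ω →ₐ[F] ℂ := IsAlgClosed.lift
  obtain ⟨c, hc⟩ := exists_res (Ω := Ω) (κ : Ω →+* ℂ) (starRingAut : ℂ ≃+* ℂ)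
  have hc' : ∀ y, κ (c y) = (starRingEnd ℂ) (κ y) := fun y => (hc y).symm
  have hinj : Function.Injective κ := κ.toRingHom.injective
  set bas := Module.finBasis ℚ F with hbas
  refine ⟨c, Finset.univ.image fun k => algebraMap F Ω (bas k), ?_, ?_, ?_, ?_, hN, ?_⟩
  · intro x
    apply hinj
    rw [hc', hc', Complex.conj_conj]
  · intro b
    exact linked_of_pos4 hψ hψ0 hpos hspl j (κ : Ω →+* ℂ) c hc' b
  · intro x hx
    obtain ⟨k, -, rfl⟩ := Finset.mem_image.1 hx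
    apply hinj
    rw [hc', κ.commutes]
    show (starRingEnd ℂ) ((τ₀ (bas k) : ℝ) : ℂ) = ((τ₀ (bas k) : ℝ) : ℂ)
    exact Complex.conj_ofReal _
  · intro b y hy
    apply hinj
    have h1 : aeval (κ y) f = 0 := by
      have h2 := hroot b y hy
      have h3 : aeval (κ y) f = κ (aeval y f) := by
        rw [aeval_def, aeval_def]
        have h4 : (algebraMap ℤ ℂ) = (κ : Ω →+* ℂ).comp (algebraMap ℤ Ω) := RingHom.ext_int _ _
        rw [h4]
        exact (hom_eval₂ f (algebraMap ℤ Ω) (κ : Ω →+* ℂ) y).symm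
      rw [h3, h2, map_zero]
    rw [map_mul, hc', Complex.mul_conj]
    have h5 := weil _ h1
    rw [Complex.normSq_eq_norm_sq, h5]
    rw [eq_ratCast, map_ratCast]
    push_cast
    rfl
  · intro l _ hl i hi
    refine ht l hl (exists_factor (i.comp (algebraMap F Ω)) (algebraMap ℚ_[l] (AlgebraicClosure ℚ_[l]))
      (algebraMap ℚ_[l] (AlgebraicClosure ℚ_[l])).injective fun x => ?_)
    have h1 : ∀ k, ∃ y : ℚ_[l], i (algebraMap F Ω (bas k)) = algebraMap ℚ_[l] (AlgebraicClosure ℚ_[l]) y :=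
      fun k => hi _ (Finset.mem_image_of_mem _ (Finset.mem_univ k))
    choose y hy using h1
    refine ⟨∑ k, ((bas.repr x k : ℚ) : ℚ_[l]) * y k, ?_⟩
    have h2 : x = ∑ k, (bas.repr x k : ℚ) • bas k := (bas.sum_repr x).symm
    rw [RingHom.comp_apply]
    conv_lhs => rw [h2]
    rw [map_sum, map_sum, map_sum]
    refine Finset.sum_congr rfl fun k _ => ?_
    rw [Rat.smul_def, map_mul, map_mul, map_mul, hy, map_ratCast, map_ratCast, map_ratCast]

section
variable {ι : Type*} [Fintype ι] [DecidableEq ι] {ψ : Matrix ι ι ℚ}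
    {D : Subalgebra ℚ (Matrix ι ι ℚ)} {M : Type*} [Field M] [NumberField M]
    {m : ℕ} {cl : Fin m → Cl} {bar : Fin m → Fin m} {e : Fin m → Matrix ι ι M} {u₀ : Matrix ι ι M}
    {G : Type*} [Group G]
    {ρ : ∀ (l : ℕ) [Fact l.Prime], G →* Matrix.GeneralLinearGroup ι ℚ_[l]}
    {p : ℕ} [Fact p.Prime] {σ : G} {q : ℚ} {F : Fin m → M[X]}
    {φ μ ν : Matrix ι ι (AlgebraicClosure ℚ_[p])} {v : AlgebraicClosure ℚ_[p] → ℚ}
    {Δ : Set (AlgebraicClosure ℚ_[p] ≃+* AlgebraicClosure ℚ_[p])}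
    {Ω : Type} [Field Ω] [CharZero Ω] [IsAlgClosed Ω] [Algebra.IsAlgebraic ℚ Ω] {j : M →+* Ω}
    {R : Finset Ω} {N : Set ℕ} (C : Core3 ψ D cl bar e u₀ ρ p σ q F φ μ ν v Δ j R N)

include C

/-- The component theorem with a real place: if the rank of a component with a form is a central binomial
coefficient, there is a real place.  (`Core3.comp` is the case in which these ranks are excluded.) -/
theorem comp_real (part : ∀ b (k : ℕ) (c : Ω → Fin k) (A : Fin k → ℕ), 2 ≤ k →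
      PartN D j (cl b = .s) (e b) (e (bar b)) (F b) q R c A → (e b).rank ≠ ∏ x, A x)
    (two : ∀ b (k : ℕ), 3 ≤ k → (cl b = .s → 4 ≤ k) → (cl b = .n → 4 ≤ k ∧ Even k) →
      (e b).rank ≠ 2 ^ k)
    (binom : ∀ b (k : ℕ), (cl b = .s → 3 ≤ k ∧ Odd k) → (cl b = .o → 4 ≤ k ∧ Even k) →
      cl b ≠ .n → (e b).rank = k.centralBinom →
        ∃ (c : Ω ≃+* Ω) (T₀ : Finset Ω) (N' : Set ℕ), Real3 D ρ σ q bar e F j c T₀ N') (b : Fin m) :
    ∃ a : Fin (e b).rank → Ω, Function.Injective a ∧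
      (∀ y : Ω, (F b).eval₂ j y = 0 ↔ ∃ k, y = a k) ∧
      ∀ (K : Type) [Field K] [CharZero K] [IsAlgClosed K]
        (L : Submodule K (Module.End K (Fin (e b).rank → K))), TM L → Yo L = YS a →
        (cl b = .s → ∀ J : Matrix (Fin (e b).rank) (Fin (e b).rank) K, Jᵀ = -J → IsUnit J.det →
          (∀ X ∈ L, adjE J X = -X) → ∀ X, adjE J X = -X → X ∈ L) ∧
        (cl b = .o → ∀ J : Matrix (Fin (e b).rank) (Fin (e b).rank) K, Jᵀ = J → IsUnit J.det →
          (∀ X ∈ L, adjE J X = -X) → ∀ X, adjE J X = -X → X ∈ L) ∧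
        (cl b = .n → NsL L → ∀ X : Module.End K (Fin (e b).rank → K),
          LinearMap.trace K (Fin (e b).rank → K) X = 0 → X ∈ L) := by
  obtain ⟨a, ha, hroot⟩ := C.enum b
  obtain ⟨hn, hev⟩ := C.rank_even b
  obtain ⟨-, ha0, -, -⟩ := C.w9_prod b ha hroot
  have hsep : ∀ k l, k ≠ l → ∃ g ∈ YS a, g k ≠ g l :=
    YS_sep ha0 fun k l n hn h => ha (C.tor b ((hroot _).2 ⟨k, rfl⟩) ((hroot _).2 ⟨l, rfl⟩) hn h)
  have hs : ∀ g ∈ YS a, ∑ k, g k = 0 := fun g hg => hg.1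
  obtain ⟨FF, hFF, horth, hsum, hperm, hone⟩ := H76Z.exists_blocksN hn hs (cl b) fun h8 h9 =>
    two b 3 le_rfl (fun h => by rw [h8] at h; cases h) (fun h => by rw [h8] at h; cases h)
      (by rw [h9]; norm_num)
  have : Nonempty (Fin (e b).rank) := ⟨⟨0, hn⟩⟩
  have hF1 : FF.card = 1 := by
    rcases Nat.lt_or_ge FF.card 2 with h5 | h5
    · interval_cases h6 : FF.card
      · exfalso
        have hcard : (e b).rank = 1 := by
          have h7 := prod_nz hs hsep (fun P hP => (hFF P hP).1) horth hsum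
          rw [Finset.card_eq_zero.1 h6, Finset.prod_empty, Fintype.card_fin] at h7
          exact h7
        rw [hcard] at hev
        exact absurd hev (by decide)
      · rfl
    · exfalso
      obtain ⟨c, A, h7, h8⟩ := C.partd b ha hroot hn hFF horth hsum hperm (by omega)
      exact part b FF.card c A h5 h7 h8
  have hB := hone hF1
  refine ⟨a, ha, hroot, fun K _ _ _ L hT hY => ⟨fun hb J hJ hJd hsk X hX => ?_,
    fun hb J hJ hJd hsk X hX => ?_, fun hb hns X hX => ?_⟩⟩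
  · have hTS : TS L J := ⟨⟨hT.cmp.lie, hT.cmp.irr, hJ, hJd, hsk, hT.cmp.gen⟩, hT.diag, hT.sep⟩
    by_cases hbin : ∃ k : ℕ, 3 ≤ k ∧ Odd k ∧ (e b).rank = k.centralBinom
    · obtain ⟨k, hk, hk2, hk3⟩ := hbin
      obtain ⟨c, T₀, N', hr⟩ := binom b k (fun _ => ⟨hk, hk2⟩) (fun h => by rw [hb] at h; cases h)
        (by rw [hb]; decide) hk3
      exact core4_binomS C hr b (by rw [hb]; decide) ha hroot hB ⟨k, hk, hk3⟩ hTS hY hX
    · refine full_of_one hTS hY hB (fun k hk => ?_) (fun k hk hk2 h => hbin ⟨k, hk, hk2, ?_⟩) hX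
      · rw [Fintype.card_fin]
        exact two b k (by omega) (fun _ => hk) (fun h => by rw [hb] at h; cases h)
      · rwa [Fintype.card_fin] at h
  · by_cases hbin : ∃ k : ℕ, 4 ≤ k ∧ Even k ∧ (e b).rank = k.centralBinom
    · obtain ⟨k, hk, hk2, hk3⟩ := hbin
      obtain ⟨c, T₀, N', hr⟩ := binom b k (fun h => by rw [hb] at h; cases h) (fun _ => ⟨hk, hk2⟩)
        (by rw [hb]; decide) hk3
      exact core4_binomO C hr b (by rw [hb]; decide) ha hroot hB ⟨k, by omega, hk3⟩ hT hJ hJd hsk hY hX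
    · refine H76Y.full_of_oneO hT hJ hJd hsk hY hB (fun k hk => ?_) (fun k hk hk2 h => hbin ⟨k, hk, hk2, ?_⟩) hX
      · rw [Fintype.card_fin]
        exact two b k hk (fun h => by rw [hb] at h; cases h) (fun h => by rw [hb] at h; cases h)
      · rwa [Fintype.card_fin] at h
  · refine H76Y.one_nsX hT hns hY hB (fun k hk hk2 => ?_) X hX
    rw [Fintype.card_fin]
    exact two b k (by omega) (fun h => by rw [hb] at h; cases h) (fun _ => ⟨hk, hk2⟩)

end

end Pool.Agent.H86L
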