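import Pool.Agent.Lib.H25Y.FullO
import Pool.Agent.Lib.H76W.G5c
import Pool.Agent.Lib.H45U.Big1

/-!
# O2: components with a symmetric form of rank `2 ^ k`, one class of Hodge-Tate cocharacters
-/

set_option autoImplicit false
set_option linter.unusedSectionVars false
namespace Pool.Agent.H86L
open Module Matrix Polynomial Pool.Agent.H53Toric Pool.Agent.H76P Pool.Agent.H76Q
open Pool.Agent.H76Y (LcN TM CmpN)
open Pool.Agent.H76Z (Cl OrL Splits)
open Pool.Agent.H45U (Core5 LocU)
open Pool.Agent.H45Q (Gen1 od od_self od_odd sp_odd fam_one)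
open Pool.Agent.H76T (IsIdeal Fam)
open Pool.Agent.H76U (cmp preL IsSplitting)

section
variable {κ : Type*} {K : Type*} [Field K] [CharZero K] [Fintype κ] [DecidableEq κ]
  {L : Submodule K (Module.End K (κ → K))} {J : Matrix κ κ K} [IsAlgClosed K] [Nonempty κ]
  {Y : Submodule ℚ (κ → ℚ)}

/-- If all odd functions are diagonal elements, there is an element of small rank. -/
theorem smallN (h : CmpN L) {bar : Equiv.Perm κ} (hbb : ∀ k, bar (bar k) = k) (hbne : ∀ k, bar k ≠ k)
    (hodd : ∀ f : κ → ℚ, (∀ k, f (bar k) = -f k) → dq f ∈ L) (hn : 3 ≤ Fintype.card κ) :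
    ∃ N ∈ L, N * N = 0 ∧ N ≠ 0 ∧ finrank K (LinearMap.range N) ≤ 2 := by
  classical
  obtain ⟨k₀⟩ := ‹Nonempty κ›
  -- a nonzero entry outside the plane of `k₀`
  obtain ⟨X, hX, k, l, hk1, hk2, hlS, hXkl⟩ : ∃ X ∈ L, ∃ k l, k ≠ k₀ ∧ k ≠ bar k₀ ∧ (l = k₀ ∨ l = bar k₀) ∧
      LinearMap.toMatrix' X k l ≠ 0 := by
    by_contra hcon
    push Not at hcon
    let W : Submodule K (κ → K) :=
      { carrier := {v | ∀ a, a ≠ k₀ → a ≠ bar k₀ → v a = 0}
        add_mem' := fun {u v} hu hv a h1 h2 => by
          rw [Pi.add_apply, hu a h1 h2, hv a h1 h2, add_zero]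
        zero_mem' := fun a _ _ => rfl
        smul_mem' := fun c v hv a h1 h2 => by rw [Pi.smul_apply, hv a h1 h2, smul_zero] }
    have hW : W = ⊥ ∨ W = ⊤ := by
      refine h.irr W fun X hX w hw a h1 h2 => ?_
      have h3 : X w a = ∑ b, LinearMap.toMatrix' X a b * w b := by
        have h4 : X w = LinearMap.toMatrix' X *ᵥ w := by
          rw [← Matrix.toLin'_apply, Matrix.toLin'_toMatrix']
        rw [h4]
        rfl
      rw [h3]
      refine Finset.sum_eq_zero fun b _ => ?_
      by_cases hb : b = k₀ ∨ b = bar k₀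
      · rw [hcon X hX a b h1 h2 hb, zero_mul]
      · push Not at hb
        rw [hw b hb.1 hb.2, mul_zero]
    rcases hW with hW | hW
    · have h1 : (Pi.single k₀ 1 : κ → K) ∈ W := by
        intro a ha _
        rw [Pi.single_eq_of_ne ha]
      rw [hW, Submodule.mem_bot] at h1
      have h2 := congrFun h1 k₀
      rw [Pi.single_eq_same] at h2
      exact one_ne_zero h2
    · obtain ⟨a, ha1, ha2⟩ : ∃ a, a ≠ k₀ ∧ a ≠ bar k₀ := by
        by_contra hcon
        push Not at hcon
        have h1 : Fintype.card κ ≤ ({k₀, bar k₀} : Finset κ).card := by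
          rw [← Finset.card_univ]
          refine Finset.card_le_card fun a _ => ?_
          rw [Finset.mem_insert, Finset.mem_singleton]
          by_cases h2 : a = k₀
          · exact Or.inl h2
          · exact Or.inr (hcon a h2)
        have h2 := Finset.card_le_two (a := k₀) (b := bar k₀)
        omega
      have h1 : (Pi.single a 1 : κ → K) ∈ W := by rw [hW]; exact Submodule.mem_top
      have h2 := h1 a ha1 ha2
      rw [Pi.single_eq_same] at h2
      exact one_ne_zero h2
  have hlk : l ≠ k := by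
    rintro rfl
    rcases hlS with h1 | h1
    · exact hk1 h1
    · exact hk2 h1
  have hlbk : l ≠ bar k := by
    intro h1
    rcases hlS with h2 | h2
    · apply hk2
      rw [← h2, h1, hbb]
    · apply hk1
      have h3 : bar k = bar k₀ := by rw [← h1, h2]
      exact bar.injective h3
  -- the two diagonal elements
  let F : κ → κ → ℚ := fun x a => if a = x then 1 else if a = bar x then -1 else 0
  have hF : ∀ x, dq (F x) ∈ L := by
    intro x
    refine hodd _ fun a => ?_
    show (if bar a = x then (1 : ℚ) else if bar a = bar x then -1 else 0) =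
      -(if a = x then (1 : ℚ) else if a = bar x then -1 else 0)
    by_cases h1 : a = x
    · rw [h1, if_neg (hbne x), if_pos rfl, if_pos rfl]
    · by_cases h2 : a = bar x
      · rw [h2, hbb, if_pos rfl, if_neg (hbne x), if_pos rfl, neg_neg]
      · have h3 : bar a ≠ x := by
          intro h4
          apply h2
          rw [← h4, hbb]
        have h4 : bar a ≠ bar x := fun h5 => h1 (bar.injective h5)
        rw [if_neg h3, if_neg h4, if_neg h1, if_neg h2, neg_zero]
  have hFv : ∀ x a, F x a = 1 ∨ F x a = -1 ∨ F x a = 0 := by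
    intro x a
    show (if a = x then (1 : ℚ) else if a = bar x then -1 else 0) = 1 ∨ _ ∨ _
    by_cases h1 : a = x
    · left; rw [if_pos h1]
    · by_cases h2 : a = bar x
      · right; left
        show (if a = x then (1 : ℚ) else if a = bar x then -1 else 0) = -1
        rw [if_neg h1, if_pos h2]
      · right; right
        show (if a = x then (1 : ℚ) else if a = bar x then -1 else 0) = 0
        rw [if_neg h1, if_neg h2]
  have hF1 : ∀ x a, F x a = 1 → a = x := by
    intro x a h1
    by_contra h2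
    have h3 : F x a = if a = bar x then -1 else 0 := if_neg h2
    rw [h3] at h1
    split_ifs at h1 <;> norm_num at h1
  have hFm : ∀ x a, F x a = -1 → a = bar x := by
    intro x a h1
    by_contra h2
    have h3 : F x a = if a = x then 1 else 0 := by
      show (if a = x then (1 : ℚ) else if a = bar x then -1 else 0) = _
      rw [if_neg h2]
    rw [h3] at h1
    split_ifs at h1 <;> norm_num at h1
  -- the polynomials
  let p : Polynomial K := Polynomial.C (-(1 / 6 : K)) * ((Polynomial.X + Polynomial.C 2) * (Polynomial.X + Polynomial.C 1) *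
    Polynomial.X * (Polynomial.X - Polynomial.C 2))
  let p' : Polynomial K := Polynomial.C ((1 / 6 : K)) * ((Polynomial.X - Polynomial.C 2) * (Polynomial.X - Polynomial.C 1) *
    Polynomial.X * (Polynomial.X + Polynomial.C 2))
  have hp : ∀ t : K, p.eval t = -(1 / 6) * ((t + 2) * (t + 1) * t * (t - 2)) := by
    intro t
    show Polynomial.eval t (Polynomial.C (-(1 / 6 : K)) * ((Polynomial.X + Polynomial.C 2) * (Polynomial.X + Polynomial.C 1) *
      Polynomial.X * (Polynomial.X - Polynomial.C 2))) = _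
    simp only [Polynomial.eval_mul, Polynomial.eval_C, Polynomial.eval_add, Polynomial.eval_sub, Polynomial.eval_X]
  have hp' : ∀ t : K, p'.eval t = (1 / 6) * ((t - 2) * (t - 1) * t * (t + 2)) := by
    intro t
    show Polynomial.eval t (Polynomial.C ((1 / 6 : K)) * ((Polynomial.X - Polynomial.C 2) * (Polynomial.X - Polynomial.C 1) *
      Polynomial.X * (Polynomial.X + Polynomial.C 2))) = _
    simp only [Polynomial.eval_mul, Polynomial.eval_C, Polynomial.eval_add, Polynomial.eval_sub, Polynomial.eval_X]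
  obtain ⟨Z, hZ, hZe⟩ := Pool.Agent.H86K.poly_diag h.lie (f := fun a => (F k a : K)) (hF k) p X hX
  obtain ⟨N, hN, hNe⟩ := Pool.Agent.H86K.poly_diag h.lie (f := fun a => (F l a : K)) (hF l) p' Z hZ
  have hpv : ∀ a b, p.eval ((F k a : K) - (F k b : K)) ≠ 0 → F k a - F k b = 1 := by
    intro a b h1
    rw [hp] at h1
    rcases hFv k a with e1 | e1 | e1 <;> rcases hFv k b with e2 | e2 | e2 <;> rw [e1, e2] at h1 ⊢ <;>
      first
        | (exfalso; norm_num at h1; done)
        | (norm_num; done)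
  have hpv' : ∀ a b, p'.eval ((F l a : K) - (F l b : K)) ≠ 0 → F l a - F l b = -1 := by
    intro a b h1
    rw [hp'] at h1
    rcases hFv l a with e1 | e1 | e1 <;> rcases hFv l b with e2 | e2 | e2 <;> rw [e1, e2] at h1 ⊢ <;>
      first
        | (exfalso; norm_num at h1; done)
        | (norm_num; done)
  -- the entries
  have hentry : ∀ a b, LinearMap.toMatrix' N a b ≠ 0 → (a = k ∧ b = l) ∨ (a = bar l ∧ b = bar k) := by
    intro a b hab
    rw [hNe, hZe] at hab
    have h1 := left_ne_zero_of_mul hab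
    have h2 := left_ne_zero_of_mul (right_ne_zero_of_mul hab)
    have h3 := hpv a b h2
    have h4 := hpv' a b h1
    rcases hFv k a with e1 | e1 | e1
    · left
      have ha := hF1 k a e1
      refine ⟨ha, ?_⟩
      rcases hFv l b with e2 | e2 | e2
      · exact hF1 l b e2
      · exfalso
        rw [e2] at h4
        rcases hFv l a with e3 | e3 | e3 <;> rw [e3] at h4 <;> norm_num at h4
      · exfalso
        rw [e2] at h4
        have e3 : F l a = -1 := by linarith
        have h5 := hFm l a e3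
        rw [ha] at h5
        apply hlbk
        rw [h5, hbb]
    · exfalso
      rw [e1] at h3
      rcases hFv k b with e3 | e3 | e3 <;> rw [e3] at h3 <;> norm_num at h3
    · right
      rw [e1] at h3
      have e2 : F k b = -1 := by linarith
      have hb := hFm k b e2
      refine ⟨?_, hb⟩
      rcases hFv l a with e3 | e3 | e3
      · exfalso
        rw [e3] at h4
        rcases hFv l b with e4 | e4 | e4 <;> rw [e4] at h4 <;> norm_num at h4
      · exact hFm l a e3
      · exfalso
        rw [e3] at h4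
        have e4 : F l b = 1 := by linarith
        have h5 := hF1 l b e4
        apply hlbk
        rw [← h5, hb]
  have hNkl : LinearMap.toMatrix' N k l ≠ 0 := by
    have e1 : F k k = 1 := if_pos rfl
    have e2 : F k l = 0 := by
      show (if l = k then (1 : ℚ) else if l = bar k then -1 else 0) = 0
      rw [if_neg hlk, if_neg hlbk]
    have e3 : F l l = 1 := if_pos rfl
    have e4 : F l k = 0 := by
      show (if k = l then (1 : ℚ) else if k = bar l then -1 else 0) = 0
      have : k ≠ bar l := by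
        intro h5
        apply hlbk
        rw [h5, hbb]
      rw [if_neg (Ne.symm hlk), if_neg this]
    rw [hNe, hZe, hp, hp', e1, e2, e3, e4]
    norm_num
    exact hXkl
  have hbl : bar l ≠ l := hbne l
  refine ⟨N, hN, ?_, ?_, ?_⟩
  · apply LinearMap.toMatrix'.injective
    rw [LinearMap.toMatrix'_mul, map_zero]
    ext a b
    rw [Matrix.mul_apply, Matrix.zero_apply]
    refine Finset.sum_eq_zero fun c _ => ?_
    by_contra h1
    rcases hentry a c (left_ne_zero_of_mul h1) with ⟨-, h2⟩ | ⟨-, h2⟩ <;>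
      rcases hentry c b (right_ne_zero_of_mul h1) with ⟨h3, -⟩ | ⟨h3, -⟩
    · exact hlk (h2.symm.trans h3)
    · exact hbl (h3.symm.trans h2)
    · exact hbne k (h2.symm.trans h3)
    · exact hlk (bar.injective (h3.symm.trans h2))
  · intro h0
    rw [h0, map_zero] at hNkl
    exact hNkl rfl
  · have h1 : LinearMap.range N ≤ Submodule.span K (({Pi.single k 1, Pi.single (bar l) 1} : Finset (κ → K)) : Set (κ → K)) := by
      rintro _ ⟨v, rfl⟩
      have h2 : N v = (N v k) • Pi.single k 1 + (N v (bar l)) • Pi.single (bar l) 1 := by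
        ext a
        rw [Pi.add_apply, Pi.smul_apply, Pi.smul_apply, smul_eq_mul, smul_eq_mul]
        have h3 : ∀ a, N v a = ∑ b, LinearMap.toMatrix' N a b * v b := by
          intro a
          have h4 : N v = LinearMap.toMatrix' N *ᵥ v := by
            rw [← Matrix.toLin'_apply, Matrix.toLin'_toMatrix']
          rw [h4]
          rfl
        have hkbl : k ≠ bar l := by
          intro h5
          apply hlbk
          rw [h5, hbb]
        by_cases ha : a = k
        · rw [ha, Pi.single_eq_same, Pi.single_eq_of_ne hkbl, mul_one, mul_zero, add_zero]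
        · by_cases ha' : a = bar l
          · rw [ha', Pi.single_eq_same, Pi.single_eq_of_ne (Ne.symm hkbl), mul_one, mul_zero, zero_add]
          · rw [Pi.single_eq_of_ne ha, Pi.single_eq_of_ne ha', mul_zero, mul_zero, add_zero, h3]
            refine Finset.sum_eq_zero fun b _ => ?_
            by_contra h5
            rcases hentry a b (left_ne_zero_of_mul h5) with ⟨h6, -⟩ | ⟨h6, -⟩
            · exact ha h6
            · exact ha' h6
      rw [h2]
      refine Submodule.add_mem _ (Submodule.smul_mem _ _ (Submodule.subset_span ?_))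
        (Submodule.smul_mem _ _ (Submodule.subset_span ?_))
      · simp
      · simp
    calc finrank K (LinearMap.range N) ≤ finrank K (Submodule.span K
          (({Pi.single k 1, Pi.single (bar l) 1} : Finset (κ → K)) : Set (κ → K))) := Submodule.finrank_mono h1
      _ ≤ ({Pi.single k 1, Pi.single (bar l) 1} : Finset (κ → K)).card := finrank_span_finset_le_card _
      _ ≤ 2 := Finset.card_le_two

/-- All odd functions are in the configuration: a component with a symmetric form is full. -/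
theorem full_oddO (h : TM L) (hJ : Jᵀ = J) (hdet : IsUnit J.det) (hsk : ∀ X ∈ L, adjE J X = -X)
    (hY : Yo L = Y) {bar : Equiv.Perm κ} (hbb : ∀ k, bar (bar k) = k) (hbne : ∀ k, bar k ≠ k)
    (hodd : ∀ f : κ → ℚ, (∀ k, f (bar k) = -f k) → f ∈ Y) (hsk' : ∀ f ∈ Y, ∀ k, f (bar k) = -f k)
    (hn : 4 < Fintype.card κ) (h8 : Fintype.card κ ≠ 8)
    {X : Module.End K (κ → K)} (hX : adjE J X = -X) : X ∈ L := by
  classical
  subst hY
  obtain ⟨m, I, hF⟩ := Pool.Agent.H76T.exists_fam h.cmp.lie h.cmp.irr h.cmp.tr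
  rcases Nat.lt_or_ge m 2 with hm | hm
  · interval_cases m
    · exfalso
      have hL : L = ⊥ := by
        rw [← hF.sup]
        exact iSup_of_empty _
      have h2 : ∀ y ∈ L, y * y = 1 → False := by
        intro y hy hy2
        rw [hL, Submodule.mem_bot] at hy
        rw [hy, mul_zero] at hy2
        exact zero_ne_one hy2
      obtain ⟨k⟩ := ‹Nonempty κ›
      have h3 : (dq (od bar k) : Module.End K (κ → K)) ∈ L := Yo_mem (hodd _ (od_odd hbb hbne k))
      rw [hL, Submodule.mem_bot] at h3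
      have h4 := congrFun (congrArg (fun T : Module.End K (κ → K) => T fun _ => 1) h3) k
      unfold dq at h4
      simp only [dg_apply, LinearMap.zero_apply, Pi.zero_apply, mul_one] at h4
      rw [od_self] at h4
      norm_num at h4
    · rcases CmpN.simpleO h.cmp hF hJ hdet hsk with h2 | ⟨n, hn3, -, hn2, hn4⟩ | ⟨k, hk, hk2, hk3, hk4⟩
      · exact h2 X hX
      · exfalso
        obtain ⟨N, hN, hN2, hN0, hr⟩ := smallN h.cmp hbb hbne (fun f hf => Yo_mem (hodd f hf)) (by omega)
        have h16 : 4 ≤ n := by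
          by_contra hcon
          have h9 : n = 3 := by omega
          rw [h9] at hn2
          exact h8 hn2
        have h5 : 2 ^ 4 ≤ 2 ^ n := Nat.pow_le_pow_right (by norm_num) h16
        have h7 := hn4 N hN hN2 hN0
        omega
      · exfalso
        have h5 : 6 ≤ (k - 1).centralBinom := by
          have h6 : Nat.centralBinom 2 ≤ (k - 1).centralBinom := Nat.centralBinom_strictMono.monotone (by omega)
          have h7 : Nat.centralBinom 2 = 6 := by decide
          omega
        obtain ⟨N, hN, hN2, hN0, hr⟩ := smallN h.cmp hbb hbne (fun f hf => Yo_mem (hodd f hf)) (by omega)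
        have h7 := hk4 N hN hN2 hN0
        omega
  · exfalso
    have hij : (⟨0, by omega⟩ : Fin m) ≠ ⟨1, by omega⟩ := by
      intro e
      exact absurd (congrArg Fin.val e) (by norm_num)
    obtain ⟨i, hi⟩ : ∃ i : Fin m, i = ⟨0, by omega⟩ := ⟨_, rfl⟩
    obtain ⟨j, hj⟩ : ∃ j : Fin m, j = ⟨1, by omega⟩ := ⟨_, rfl⟩
    rw [← hi, ← hj] at hij
    obtain ⟨P, hP1, hP2, hP3, hPS⟩ := H76Y.exists_proj h.cmp hF i
    have hSp : Sp P := Sp_iff.2 hPS
    obtain ⟨f, hf, hf0, hfi⟩ := h.exists_diag hF i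
    obtain ⟨f', hf', hf0', hfi'⟩ := h.exists_diag hF j
    rcases sp_odd hbb hbne hodd hsk' hn hSp with h3 | h3
    · have h4 := hP2 ⟨f, hf⟩ hfi
      rw [h3, LinearMap.zero_apply] at h4
      exact hf0 (congrArg Subtype.val h4).symm
    · have h4 := hP3 j (Ne.symm hij) ⟨f', hf'⟩ hfi'
      rw [h3, Module.End.one_apply] at h4
      exact hf0' (congrArg Subtype.val h4)

/-- The configuration of the whole orthogonal algebra of even dimension is the space of all odd functions. -/
theorem exists_oddO (h : TM L) (hJ : Jᵀ = J) (hdet : IsUnit J.det) (hsk : ∀ X ∈ L, adjE J X = -X)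
    (hev : Even (Fintype.card κ)) (hfull : ∀ X : Module.End K (κ → K), adjE J X = -X → X ∈ L) :
    ∃ bar : Equiv.Perm κ, (∀ k, bar (bar k) = k) ∧ (∀ k, bar k ≠ k) ∧
      (∀ f : κ → ℚ, (∀ k, f (bar k) = -f k) → f ∈ Yo L) ∧ ∀ f ∈ Yo L, ∀ k, f (bar k) = -f k := by
  classical
  have hex : ∀ k, ∃ l, J k l ≠ 0 := by
    intro k
    by_contra hcon
    push Not at hcon
    have h3 := hdet
    rw [Matrix.det_eq_zero_of_row_eq_zero k hcon] at h3
    exact not_isUnit_zero h3
  choose b hb using hex
  have hdq : ∀ f : κ → ℚ, (dq f : Module.End K (κ → K)) = phi (Matrix.diagonal fun a => (f a : K)) := by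
    intro f
    refine LinearMap.ext fun v => funext fun a => ?_
    rw [phi_apply, Matrix.mulVec_diagonal]
    exact dg_apply _ _ _
  have hopp : ∀ k l, J k l ≠ 0 → ∀ f ∈ Yo L, f l = -f k := by
    intro k l hkl f hf
    have h1 := hsk _ (Yo_mem hf)
    rw [hdq, skew_iff hdet] at h1
    have h3 := congrFun (congrFun h1 k) l
    rw [Matrix.add_apply, Matrix.diagonal_transpose, Matrix.diagonal_mul, Matrix.mul_diagonal,
      Matrix.zero_apply] at h3
    have h4 : ((f k : K) + (f l : K)) * J k l = 0 := by rw [← h3]; ring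
    have h5 := (mul_eq_zero.1 h4).resolve_right hkl
    have h6 : f k + f l = 0 := by exact_mod_cast h5
    linarith
  have huniq : ∀ k l l', J k l ≠ 0 → J k l' ≠ 0 → l = l' := by
    intro k l l' h1 h2
    by_contra hne
    obtain ⟨f, hf, hf2⟩ := h.sep l l' hne
    exact hf2 (by rw [hopp k l h1 f hf, hopp k l' h2 f hf])
  have hsym : ∀ k l, J k l ≠ 0 → J l k ≠ 0 := by
    intro k l hkl h0
    have h1 := congrFun (congrFun hJ k) l
    rw [Matrix.transpose_apply, h0] at h1
    exact hkl h1.symm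
  have hbb : ∀ k, b (b k) = k := fun k => huniq (b k) _ _ (hb (b k)) (hsym _ _ (hb k))
  have hfix1 : ∀ k l, b k = k → b l = l → k = l := by
    intro k l hk hl
    by_contra hne
    obtain ⟨f, hf, hf2⟩ := h.sep k l hne
    have h1 := hopp k (b k) (hb k) f hf
    have h2 := hopp l (b l) (hb l) f hf
    rw [hk] at h1
    rw [hl] at h2
    exact hf2 (by linarith)
  have hfix : ∀ k, b k ≠ k := by
    intro k hk
    have h1 := Equiv.Perm.card_fixedPoints_modEq (α := κ) (f := b) (p := 2) (n := 1) (by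
      rw [pow_one, pow_two]
      exact funext hbb)
    have h2 : Fintype.card (Function.fixedPoints b) = 1 := by
      rw [Fintype.card_eq_one_iff]
      exact ⟨⟨k, hk⟩, fun y => Subtype.ext (hfix1 _ _ y.2 hk)⟩
    rw [h2] at h1
    obtain ⟨c, hc⟩ := hev
    unfold Nat.ModEq at h1
    omega
  refine ⟨⟨b, b, hbb, hbb⟩, hbb, hfix, fun f hf => ?_, fun f hf k => hopp k (b k) (hb k) f hf⟩
  refine h.diag f (hfull _ ?_)
  rw [hdq, skew_iff hdet, Matrix.diagonal_transpose]
  ext x y
  rw [Matrix.add_apply, Matrix.diagonal_mul, Matrix.mul_diagonal, Matrix.zero_apply]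
  by_cases hxy : J x y = 0
  · rw [hxy, mul_zero, zero_mul, add_zero]
  · have h1 : y = b x := huniq x y (b x) hxy (hb x)
    have h2 : f y = -f x := by rw [h1]; exact hf x
    rw [h2]
    push_cast
    ring

end

section
variable {ι : Type*} [Fintype ι] [DecidableEq ι] {ψ : Matrix ι ι ℚ}
    {D : Subalgebra ℚ (Matrix ι ι ℚ)} {M : Type*} [Field M] [NumberField M]
    {m : ℕ} {cl : Fin m → Cl} {bar : Fin m → Fin m} {e : Fin m → Matrix ι ι M} {u₀ : Matrix ι ι M} {G : Type*} [Group G]
    {ρ : ∀ (l : ℕ) [Fact l.Prime], G →* Matrix.GeneralLinearGroup ι ℚ_[l]}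
    {p : ℕ} [Fact p.Prime] {σ : G} {q : ℚ} {F : Fin m → M[X]}
    {φ μ ν : Matrix ι ι (AlgebraicClosure ℚ_[p])} {v : AlgebraicClosure ℚ_[p] → ℚ}
    {Δ : Set (AlgebraicClosure ℚ_[p] ≃+* AlgebraicClosure ℚ_[p])}
    {Ω : Type*} [Field Ω] [CharZero Ω] [IsAlgClosed Ω] [Algebra.IsAlgebraic ℚ Ω] {j : M →+* Ω}
    {R : Finset Ω} {N : Set ℕ} {hd : Fin m → Ω → ℕ} {ub : Fin m → Prop}
    (C : Core5 ψ D cl bar e u₀ ρ p σ q F φ μ ν v Δ j R N hd ub)

include C

/-- **One class: at one prime a component with a symmetric form is simple.** -/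
theorem simple5O (hg : Gen1 ρ) (b : Fin m) (hb : cl b = .o) {n : ℕ} {a : Fin n → Ω} (ha : Function.Injective a)
    (hroot : ∀ y : Ω, (F b).eval₂ j y = 0 ↔ ∃ k, y = a k) :
    ∃ (l : ℕ) (_ : Fact l.Prime) (L : Submodule (AlgebraicClosure ℚ_[l])
        (Module.End (AlgebraicClosure ℚ_[l]) (Fin n → AlgebraicClosure ℚ_[l]))),
      0 < n ∧ H76Y.TM L ∧ OrL L ∧ H76P.Yo L = YS a ∧
      ∃ I : Fin 1 → Submodule (AlgebraicClosure ℚ_[l]) (Module.End (AlgebraicClosure ℚ_[l]) (Fin n → AlgebraicClosure ℚ_[l])),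
        Fam L I := by
  obtain ⟨l, hl, h, hh, hgen⟩ := hg
  let i : Ω →+* AlgebraicClosure ℚ_[l] :=
    (IsAlgClosed.lift (R := ℚ) (S := Ω) (M := AlgebraicClosure ℚ_[l])).toRingHom
  obtain ⟨H₀, U, V, x, -, hL, hcls⟩ := H76W.loc_any5 C b ha hroot l i
  have hor := hcls.2.1 hb
  have hT := (H45U.tm_iff (Or.inr hor)).1 hL.ts
  refine ⟨l, hl, _, hL.pos, hT, hor, (H45U.Yo_eq (Or.inr hor)).symm.trans hL.yo, ?_⟩
  have hspl := C.hspl.map (i.comp j)
  have hne : Nonempty (Fin n) := ⟨⟨0, hL.pos⟩⟩
  have hn := C.card b ha hroot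
  obtain ⟨m', I, hF⟩ := Pool.Agent.H76T.exists_fam hT.cmp.lie hT.cmp.irr hT.cmp.tr
  have h1 : m' = 1 := by
    refine fam_one (Gs := img (AlgebraicClosure ℚ_[l]) (ρ l) ⊤) hL.pos hL.UV hL.VU hT.cmp.irr hT.cmp.tr
      (fun k hk => ⟨(hL.par k hk).1, (hL.par k hk).2.1, H76W.par_one hL hk ?_⟩)
      (fun Z hZ => hspl.corner b Z (C.commt l ⊤ inferInstance Z hZ)) hh ?_ hF
    · rw [C.bal l k hk (i.comp j) b (by rw [hb]; decide), hn]
    · rintro _ ⟨g, -, rfl⟩
      exact hgen g
  subst h1
  exact ⟨I, hF⟩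

/-- The components of rank `2 ^ k` with a symmetric form. -/
theorem odd_two5O (hg : Gen1 ρ) (b : Fin m) (hb : cl b = .o) {n : ℕ} {a : Fin n → Ω} (ha : Function.Injective a)
    (hroot : ∀ y : Ω, (F b).eval₂ j y = 0 ↔ ∃ k, y = a k) {k : ℕ} (hk : n = 2 ^ k)
    (hk' : k % 4 = 1 ∨ k % 4 = 2) :
    ∃ bar' : Equiv.Perm (Fin n), (∀ k, bar' (bar' k) = k) ∧ (∀ k, bar' k ≠ k) ∧
      (∀ f : Fin n → ℚ, (∀ k, f (bar' k) = -f k) → f ∈ YS a) ∧ ∀ f ∈ YS a, ∀ k, f (bar' k) = -f k := by
  obtain ⟨l, hl, L, hn, hT, ⟨J, hJ, hdet, hsk⟩, hY, I, hF⟩ := simple5O C hg b hb ha hroot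
  have hne : Nonempty (Fin n) := ⟨⟨0, hn⟩⟩
  rw [← hY]
  refine exists_oddO hT hJ hdet hsk ?_ ?_
  · rw [Fintype.card_fin, hk]
    exact (Nat.even_pow.2 ⟨even_two, by omega⟩)
  rcases CmpN.simpleO hT.cmp hF hJ hdet hsk with h2 | ⟨n', hn', hn2', hn3', -⟩ | ⟨k', hk1, hk2, hk3, -⟩
  · exact h2
  · exfalso
    rw [Fintype.card_fin, hk] at hn3'
    have h3 : k = n' := Nat.pow_right_injective le_rfl hn3'
    omega
  · exfalso
    rw [Fintype.card_fin, hk] at hk3
    exact Pool.Agent.H49M.R3_binom_pow (by omega) hk3.symm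

/-- **The components of rank `2 ^ k`, `k ≡ 1, 2 mod 4`, with a symmetric form are full.** -/
theorem full_two5O (hg : Gen1 ρ) (b : Fin m) (hb : cl b = .o) {n : ℕ} {a : Fin n → Ω} (ha : Function.Injective a)
    (hroot : ∀ y : Ω, (F b).eval₂ j y = 0 ↔ ∃ k, y = a k) {k : ℕ} (hk3 : 3 ≤ k) (hk : n = 2 ^ k)
    (hk' : k % 4 = 1 ∨ k % 4 = 2) {K : Type} [Field K] [CharZero K] [IsAlgClosed K]
    {L : Submodule K (Module.End K (Fin n → K))} {J : Matrix (Fin n) (Fin n) K} (hT : H76Y.TM L) (hJ : Jᵀ = J)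
    (hdet : IsUnit J.det) (hsk : ∀ X ∈ L, adjE J X = -X)
    (hY : H76P.Yo L = YS a) {X : Module.End K (Fin n → K)} (hX : adjE J X = -X) : X ∈ L := by
  have hn : 0 < n := by rw [hk]; positivity
  have hne : Nonempty (Fin n) := ⟨⟨0, hn⟩⟩
  obtain ⟨bar', hbb, hbne, hodd, hsk'⟩ := odd_two5O C hg b hb ha hroot hk hk'
  have h5 : 2 ^ 5 ≤ 2 ^ k := Nat.pow_le_pow_right (by norm_num) (by omega)
  refine full_oddO hT hJ hdet hsk hY hbb hbne hodd hsk' ?_ ?_ hX <;> rw [Fintype.card_fin] <;> omega

end

end Pool.Agent.H86L
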