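import Pool.Agent.Lib.H86L.N4
import Pool.Agent.Lib.H45U.W11
import Pool.Agent.Lib.H76W.G5c
import Pool.Agent.Lib.H86L.O2

/-!
# N5: the component theorem with a real place, fifth version
-/

set_option autoImplicit false
set_option linter.unusedSectionVars false
namespace Pool.Agent.H86L
open Module Matrix Polynomial Pool.Agent.H53Toric Pool.Agent.H76P Pool.Agent.H76Q Pool.Agent.H86K
open Pool.Agent.H76Y (LcN ThetaN SyL)
open Pool.Agent.H76Z (Cl LocN Splits OrL)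
open Pool.Agent.H45U (Core5 LocU PartU Big)
open Pool.Agent.H45Q (Gen1)
open Pool.Agent.H76T (IsIdeal Fam)
open Pool.Agent.H76U (cmp preL IsSplitting)
open Pool.Agent.H76RM (spanK similD)

/-- A balanced place makes the condition on binomial coefficients superfluous. -/
theorem bin_half {Ω : Type*} {R : Finset Ω} {h : Ω → ℕ} {n : ℕ} (hn : 0 < n) {r₀ : Ω} (hr₀ : r₀ ∈ R)
    (h0 : 2 * h r₀ = n) (h1 : ∃ r ∈ R, h r ≠ 0 ∧ h r ≠ n ∧ 2 * h r ≠ n) {N k : ℕ} (hk : 2 ≤ k)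
    (hkN : k + 2 ≤ N) (hnk : n = N.choose k) :
    ∃ r ∈ R, h r ≠ 0 ∧ h r ≠ n ∧ h r ≠ (N - 1).choose k ∧ h r ≠ (N - 1).choose (k - 1) := by
  obtain ⟨N', rfl⟩ : ∃ N', N = N' + 1 := ⟨N - 1, by omega⟩
  obtain ⟨k', rfl⟩ : ∃ k', k = k' + 1 := ⟨k - 1, by omega⟩
  rw [Nat.choose_succ_succ'] at hnk
  simp only [Nat.add_sub_cancel] at *
  by_cases h2 : h r₀ = N'.choose (k' + 1) ∨ h r₀ = N'.choose k'
  · obtain ⟨r₁, hr₁, h3, h4, h5⟩ := h1
    refine ⟨r₁, hr₁, h3, h4, ?_, ?_⟩ <;> omega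
  · push Not at h2
    exact ⟨r₀, hr₀, by omega, by omega, h2.1, h2.2⟩

variable {ι : Type*} [Fintype ι] [DecidableEq ι] {ψ : Matrix ι ι ℚ}
    {D : Subalgebra ℚ (Matrix ι ι ℚ)} {M : Type*} [Field M] [NumberField M]
    {m : ℕ} {cl : Fin m → Cl} {bar : Fin m → Fin m} {e : Fin m → Matrix ι ι M} {u₀ : Matrix ι ι M} {G : Type*} [Group G]
    {ρ : ∀ (l : ℕ) [Fact l.Prime], G →* Matrix.GeneralLinearGroup ι ℚ_[l]}
    {p : ℕ} [Fact p.Prime] {σ : G} {q : ℚ} {F : Fin m → M[X]}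
    {φ μ ν : Matrix ι ι (AlgebraicClosure ℚ_[p])} {v : AlgebraicClosure ℚ_[p] → ℚ}
    {Δ : Set (AlgebraicClosure ℚ_[p] ≃+* AlgebraicClosure ℚ_[p])}
    {Ω : Type} [Field Ω] [CharZero Ω] [IsAlgClosed Ω] [Algebra.IsAlgebraic ℚ Ω] {j : M →+* Ω}
    {R : Finset Ω} {N : Set ℕ} {hd : Fin m → Ω → ℕ} {ub : Fin m → Prop}
    (C : Core5 ψ D cl bar e u₀ ρ p σ q F φ μ ν v Δ j R N hd ub)

include C

/-- The component theorem with a real place, fifth version: if the rank of a component with a form is a central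
binomial coefficient, there is a real place; for the components without a form there is a real place or the
condition on binomial coefficients; if the rank of a component with a form is a power of two, there
is one class of Hodge-Tate cocharacters (`Gen1`).  (`Core5.comp` is the case in which these ranks are
excluded.) -/
theorem comp_real5 (part : ∀ b (k : ℕ) (c : Ω → Option (Fin k)) (A : Fin k → ℕ), 2 ≤ k →
      PartU D j (cl b = .s) (ub b) (e b) (e (bar b)) (F b) q R (hd b) c A → Big (cl b) (e b).rank A →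
      (e b).rank ≠ ∏ x, A x)
    (two : ∀ b (k : ℕ), 3 ≤ k → (e b).rank = 2 ^ k →
      (cl b = .s → 4 ≤ k → Gen1 ρ ∧ ¬ (5 ≤ k ∧ (k % 4 = 1 ∨ k % 4 = 2))) ∧
      (cl b = .o → Gen1 ρ ∧ (k % 4 = 1 ∨ k % 4 = 2)))
    (binom : ∀ b (k : ℕ), (cl b = .s → 3 ≤ k ∧ Odd k) → (cl b = .o → 4 ≤ k ∧ Even k) →
      cl b ≠ .n → (e b).rank = k.centralBinom →
        ∃ (c : Ω ≃+* Ω) (T₀ : Finset Ω) (N' : Set ℕ), Real3 D ρ σ q bar e F j c T₀ N')
    (twon : ∀ b, cl b = .n → (∀ r ∈ R, hd b r = 0 ∨ hd b r = (e b).rank ∨ 2 * hd b r = (e b).rank) →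
      ∀ k : ℕ, 4 ≤ k → Even k → (e b).rank ≠ 2 ^ k)
    (bin : ∀ b, cl b = .n → (∃ r ∈ R, hd b r ≠ 0 ∧ hd b r ≠ (e b).rank ∧ 2 * hd b r ≠ (e b).rank) →
      (∀ N k : ℕ, 2 ≤ k → k + 2 ≤ N → (e b).rank = N.choose k →
        ∃ r ∈ R, hd b r ≠ 0 ∧ hd b r ≠ (e b).rank ∧ hd b r ≠ (N - 1).choose k ∧
          hd b r ≠ (N - 1).choose (k - 1)) ∨
      ∃ (c : Ω ≃+* Ω) (r : Ω), r ∈ R ∧ c r = r ∧ Linked D ((e (bar b)).map j) ((e b).map (c.toRingHom.comp j)))
    (b : Fin m) :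
    ∃ a : Fin (e b).rank → Ω, Function.Injective a ∧
      (∀ y : Ω, (F b).eval₂ j y = 0 ↔ ∃ k, y = a k) ∧
      ∀ (K : Type) [Field K] [CharZero K] [IsAlgClosed K]
        (L : Submodule K (Module.End K (Fin (e b).rank → K))), H25U.TM L → H25U.Yo L = YS a →
        (cl b = .s → ∀ J : Matrix (Fin (e b).rank) (Fin (e b).rank) K, Jᵀ = -J → IsUnit J.det →
          (∀ X ∈ L, adjE J X = -X) → ∀ X, adjE J X = -X → X ∈ L) ∧
        (cl b = .o → ∀ J : Matrix (Fin (e b).rank) (Fin (e b).rank) K, Jᵀ = J → IsUnit J.det →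
          (∀ X ∈ L, adjE J X = -X) → ∀ X, adjE J X = -X → X ∈ L) ∧
        (cl b = .n → ∀ X : Module.End K (Fin (e b).rank → K),
          LinearMap.trace K (Fin (e b).rank → K) X = 0 → X ∈ L) := by
  have hbin' : ∀ b, cl b = .n → (∃ r ∈ R, hd b r ≠ 0 ∧ hd b r ≠ (e b).rank ∧ 2 * hd b r ≠ (e b).rank) →
      ∀ N k : ℕ, 2 ≤ k → k + 2 ≤ N → (e b).rank = N.choose k →
        ∃ r ∈ R, hd b r ≠ 0 ∧ hd b r ≠ (e b).rank ∧ hd b r ≠ (N - 1).choose k ∧
          hd b r ≠ (N - 1).choose (k - 1) := by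
    intro b hb h1 N k hk hkN hnk
    rcases bin b hb h1 with h2 | ⟨c, r, hr, hcr, hlink⟩
    · exact h2 N k hk hkN hnk
    · exact bin_half (C.rank_pos b) hr (hd_fix C b hlink hr hcr) h1 hk hkN hnk
  obtain ⟨a, ha, hroot⟩ := C.enum b
  have hn := C.rank_pos b
  have ha0 := C.ne b hroot
  have hsep : ∀ k l, k ≠ l → ∃ g ∈ YS a, g k ≠ g l :=
    YS_sep ha0 fun k l n hn h => ha (C.tor b ((hroot _).2 ⟨k, rfl⟩) ((hroot _).2 ⟨l, rfl⟩) hn h)
  have hs : ∀ g ∈ YS a, ∑ k, g k = 0 := fun g hg => hg.1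
  obtain ⟨FF, hFF, horth, hsum, hperm, hone, hblock⟩ := H45U.exists_blocksU2 hn hs (cl b) fun h8 h9 =>
    absurd ((two b 3 le_rfl (by rw [h9]; norm_num)).2 h8).2 (by decide)
  have : Nonempty (Fin (e b).rank) := ⟨⟨0, hn⟩⟩
  have hF2 : FF.card ≤ 1 := by
    by_contra h5
    obtain ⟨c, h7, h8⟩ := C.partd2 b ha hroot hn hFF horth hsum hperm FF.equivFin
    exact part b FF.card c _ (by omega) h7 (C.big_of b ha hroot hblock hFF (by omega) FF.equivFin) h8
  have hF0 : FF.card = 0 → (e b).rank = 1 := by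
    intro h6
    have h7 := prod_nz hs hsep (fun P hP => (hFF P hP).1) horth hsum
    rw [Finset.card_eq_zero.1 h6, Finset.prod_empty, Fintype.card_fin] at h7
    exact h7
  have hB : cl b ≠ .n ∨ 1 < (e b).rank → IsBlock (1 : Module.End ℚ (YS a)) := by
    intro h
    refine hone ?_
    by_contra h6
    have h7 : (e b).rank = 1 := hF0 (by omega)
    rcases h with h | h
    · have h8 := C.rank_even b h
      rw [h7] at h8
      exact absurd h8 (by decide)
    · omega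
  refine ⟨a, ha, hroot, fun K _ _ _ L hT hY => ⟨fun hb J hJ hJd hsk X hX => ?_,
    fun hb J hJ hJd hsk X hX => ?_, fun hb X hX => ?_⟩⟩
  · have hsy : SyL L := ⟨J, hJ, hJd, hsk⟩
    have hT' := (H45U.tm_iff (Or.inl hsy)).1 hT
    have hY' : H76P.Yo L = YS a := (H45U.Yo_eq (Or.inl hsy)).symm.trans hY
    have hTS : TS L J := ⟨⟨hT'.cmp.lie, hT'.cmp.irr, hJ, hJd, hsk, hT'.cmp.gen⟩, hT'.diag, hT'.sep⟩
    by_cases htwo : ∃ k : ℕ, 4 ≤ k ∧ (e b).rank = 2 ^ k
    · obtain ⟨k, hk4, hk⟩ := htwo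
      obtain ⟨hg, hk'⟩ := (two b k (by omega) hk).1 hb hk4
      exact H76W.full_two5 C hg b hb ha hroot hk hk' hTS hY' hX
    by_cases hbin : ∃ k : ℕ, 3 ≤ k ∧ Odd k ∧ (e b).rank = k.centralBinom
    · obtain ⟨k, hk, hk2, hk3⟩ := hbin
      obtain ⟨c, T₀, N', hr⟩ := binom b k (fun _ => ⟨hk, hk2⟩) (fun h => by rw [hb] at h; cases h)
        (by rw [hb]; decide) hk3
      exact core5_binomS C hr b (by rw [hb]; decide) ha hroot (hB (Or.inl (by rw [hb]; decide)))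
        ⟨k, hk, hk3⟩ hTS hY' hX
    · refine full_of_one hTS hY' (hB (Or.inl (by rw [hb]; decide))) (fun k hk => ?_)
        (fun k hk hk2 h => hbin ⟨k, hk, hk2, ?_⟩) hX
      · rw [Fintype.card_fin]
        exact fun h => htwo ⟨k, hk, h⟩
      · rwa [Fintype.card_fin] at h
  · have hor : OrL L := ⟨J, hJ, hJd, hsk⟩
    have hT' := (H45U.tm_iff (Or.inr hor)).1 hT
    have hY' : H76P.Yo L = YS a := (H45U.Yo_eq (Or.inr hor)).symm.trans hY
    by_cases htwo : ∃ k : ℕ, 3 ≤ k ∧ (e b).rank = 2 ^ k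
    · obtain ⟨k, hk3, hk⟩ := htwo
      obtain ⟨hg, hk'⟩ := (two b k hk3 hk).2 hb
      exact full_two5O C hg b hb ha hroot hk3 hk hk' hT' hJ hJd hsk hY' hX
    by_cases hbin : ∃ k : ℕ, 4 ≤ k ∧ Even k ∧ (e b).rank = k.centralBinom
    · obtain ⟨k, hk, hk2, hk3⟩ := hbin
      obtain ⟨c, T₀, N', hr⟩ := binom b k (fun h => by rw [hb] at h; cases h) (fun _ => ⟨hk, hk2⟩)
        (by rw [hb]; decide) hk3
      exact core5_binomO C hr b (by rw [hb]; decide) ha hroot (hB (Or.inl (by rw [hb]; decide)))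
        ⟨k, by omega, hk3⟩ hT' hJ hJd hsk hY' hX
    · refine H76Y.full_of_oneO hT' hJ hJd hsk hY' (hB (Or.inl (by rw [hb]; decide))) (fun k hk => ?_)
        (fun k hk hk2 h => hbin ⟨k, hk, hk2, ?_⟩) hX
      · rw [Fintype.card_fin]
        exact fun h => htwo ⟨k, hk, h⟩
      · rwa [Fintype.card_fin] at h
  · by_cases h1 : (e b).rank = 1
    · have h2 : X = 0 := by
        have h3 : Subsingleton (Fin (e b).rank) := by rw [h1]; infer_instance
        obtain ⟨k⟩ := ‹Nonempty (Fin (e b).rank)›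
        have h4 : LinearMap.trace K (Fin (e b).rank → K) X = LinearMap.toMatrix' X k k := by
          rw [LinearMap.trace_eq_matrix_trace K (Pi.basisFun K _), LinearMap.toMatrix_eq_toMatrix',
            Matrix.trace, Fintype.sum_subsingleton _ k]
          rfl
        rw [h4] at hX
        apply LinearMap.toMatrix'.injective
        rw [map_zero]
        ext x y
        rw [Subsingleton.elim x k, Subsingleton.elim y k, hX]
        rfl
      rw [h2]
      exact Submodule.zero_mem _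
    · have h2 : 1 < (e b).rank := by omega
      exact H25U.full_of_Yo hT (fun f hf => by
        rw [hY]
        exact C.full_p b hb h2 (twon b hb) (hbin' b hb) ha hroot (hB (Or.inr h2)) hf) X hX

end Pool.Agent.H86L
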