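import Pool.Agent.Lib.H86L.O2
import Pool.Agent.Lib.H45U.W11a

/-!
# O4: components of rank four with a symmetric form
-/

set_option autoImplicit false
set_option linter.unusedSectionVars false
namespace Pool.Agent.H86L
open Module Matrix Polynomial Pool.Agent.H53Toric Pool.Agent.H76P Pool.Agent.H76Q
open Pool.Agent.H76Y (LcN TM CmpN)
open Pool.Agent.H76Z (Cl OrL Splits)
open Pool.Agent.H45U (Core5 LocU GoodU PartU)
open Pool.Agent.H45Q (od od_self od_odd)
open Pool.Agent.H76T (IsIdeal Fam)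
open Pool.Agent.H76U (cmp preL IsSplitting)

section
variable {κ : Type*} {K : Type*} [Field K] [CharZero K] [Fintype κ] [DecidableEq κ]
  {L : Submodule K (Module.End K (κ → K))} {J : Matrix κ κ K}

theorem dq_phi' (f : κ → ℚ) : (dq f : Module.End K (κ → K)) = phi (Matrix.diagonal fun a => (f a : K)) := by
  refine LinearMap.ext fun v => funext fun a => ?_
  rw [phi_apply, Matrix.mulVec_diagonal]
  exact dg_apply _ _ _

theorem dq_eq_zero {f : κ → ℚ} (h : (dq f : Module.End K (κ → K)) = 0) : f = 0 := by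
  funext k
  have h1 := congrFun (congrArg (fun T : Module.End K (κ → K) => T fun _ => 1) h) k
  unfold dq at h1
  simp only [dg_apply, LinearMap.zero_apply, Pi.zero_apply, mul_one] at h1
  exact_mod_cast h1

/-- The orthogonal algebra in dimension four has an ideal which contains one of two diagonal elements. -/
theorem so4_ideal (hJ : Jᵀ = J) (hdet : IsUnit J.det) (hL : ∀ X : Module.End K (κ → K), X ∈ L ↔ adjE J X = -X)
    {bar : Equiv.Perm κ} (hbb : ∀ k, bar (bar k) = k) (hbne : ∀ k, bar k ≠ k)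
    (hJb : ∀ k l, J k l ≠ 0 → l = bar k) {x y : κ} (hxy : y ≠ x) (hxy' : y ≠ bar x)
    (huniv : (Finset.univ : Finset κ) = {x, bar x, y, bar y}) :
    ∃ I : Submodule K (Module.End K (κ → K)), IsIdeal L I ∧
      (∀ f : κ → ℚ, (dq f : Module.End K (κ → K)) ∈ L → (dq f ∈ I ↔ f x + f y = 0)) := by
  classical
  have hy'x : bar y ≠ x := fun h => hxy' (by rw [← h, hbb])
  have hy'x' : bar y ≠ bar x := fun h => hxy (bar.injective h)
  have hsum : ∀ f : κ → K, ∑ k, f k = f x + f (bar x) + f y + f (bar y) := by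
    intro f
    rw [huniv, Finset.sum_insert, Finset.sum_insert, Finset.sum_insert, Finset.sum_singleton]
    · ring
    · simp only [Finset.mem_singleton]
      exact (hbne y).symm
    · simp only [Finset.mem_insert, Finset.mem_singleton]
      push Not
      exact ⟨hxy'.symm, hy'x'.symm⟩
    · simp only [Finset.mem_insert, Finset.mem_singleton]
      push Not
      exact ⟨(hbne x).symm, hxy.symm, hy'x.symm⟩
  have hJ0 : ∀ k l, l ≠ bar k → J k l = 0 := fun k l h => by
    by_contra h1
    exact h (hJb k l h1)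
  have hJn : ∀ k, J k (bar k) ≠ 0 := by
    intro k h0
    have h1 : ∀ l, J k l = 0 := by
      intro l
      by_cases hl : l = bar k
      · rw [hl, h0]
      · exact hJ0 k l hl
    have h3 := hdet
    rw [Matrix.det_eq_zero_of_row_eq_zero k h1] at h3
    exact not_isUnit_zero h3
  have hJs : ∀ k l, J k l = J l k := fun k l => congrFun (congrFun hJ l) k |>.symm ▸ rfl
  -- the relations between the entries
  have hrel : ∀ A : Matrix κ κ K, phi A ∈ L → ∀ k l, J (bar l) l * A (bar l) k + J k (bar k) * A (bar k) l = 0 := by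
    intro A hA k l
    rw [hL, skew_iff hdet] at hA
    have h1 := congrFun (congrFun hA k) l
    rw [Matrix.add_apply, Matrix.zero_apply, Matrix.mul_apply, Matrix.mul_apply,
      Finset.sum_eq_single (bar l), Finset.sum_eq_single (bar k), Matrix.transpose_apply] at h1
    · rw [← h1]
      ring
    · intro m _ hm
      rw [hJ0 k m hm, zero_mul]
    · intro h; exact absurd (Finset.mem_univ _) h
    · intro m _ hm
      rw [hJ0 m l, mul_zero]
      intro h
      apply hm
      rw [h, hbb]
    · intro h; exact absurd (Finset.mem_univ _) h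
  have hbar0 : ∀ A : Matrix κ κ K, phi A ∈ L → ∀ k, A (bar k) k = 0 := by
    intro A hA k
    have h1 := hrel A hA k k
    rw [hJs (bar k) k] at h1
    have h2 : (2 : K) * (J k (bar k) * A (bar k) k) = 0 := by linear_combination h1
    exact ((mul_eq_zero.1 h2).resolve_left two_ne_zero |> mul_eq_zero.1).resolve_left (hJn k)
  have hbar0' : ∀ A : Matrix κ κ K, phi A ∈ L → ∀ k, A k (bar k) = 0 := by
    intro A hA k
    have h1 := hbar0 A hA (bar k)
    rwa [hbb] at h1
  have hdiag : ∀ A : Matrix κ κ K, phi A ∈ L → ∀ k, A (bar k) (bar k) = -A k k := by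
    intro A hA k
    have h1 := hrel A hA k (bar k)
    rw [hbb] at h1
    have h2 : J k (bar k) * (A k k + A (bar k) (bar k)) = 0 := by linear_combination h1
    have h3 := (mul_eq_zero.1 h2).resolve_left (hJn k)
    linear_combination h3
  have hoff : ∀ A : Matrix κ κ K, phi A ∈ L → A x (bar y) = 0 → A y (bar x) = 0 := by
    intro A hA h0
    have h1 := hrel A hA (bar x) (bar y)
    rw [hbb, hbb, h0, mul_zero, add_zero] at h1
    refine (mul_eq_zero.1 h1).resolve_left ?_
    exact hJn y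
  have hoff' : ∀ A : Matrix κ κ K, phi A ∈ L → A (bar x) y = 0 → A (bar y) x = 0 := by
    intro A hA h0
    have h1 := hrel A hA x y
    rw [h0, mul_zero, add_zero] at h1
    refine (mul_eq_zero.1 h1).resolve_left ?_
    rw [hJs]
    exact hJn y
  let I : Submodule K (Module.End K (κ → K)) :=
    { carrier := {X | X ∈ L ∧ (phi (ι := κ) (K := K)).symm X x (bar y) = 0 ∧
        (phi (ι := κ) (K := K)).symm X (bar x) y = 0 ∧
        (phi (ι := κ) (K := K)).symm X x x + (phi (ι := κ) (K := K)).symm X y y = 0}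
      add_mem' := by
        rintro X Z ⟨h1, h2, h3, h4⟩ ⟨h1', h2', h3', h4'⟩
        refine ⟨L.add_mem h1 h1', ?_, ?_, ?_⟩ <;> rw [map_add] <;> simp only [Matrix.add_apply]
        · rw [h2, h2', add_zero]
        · rw [h3, h3', add_zero]
        · linear_combination h4 + h4'
      zero_mem' := by
        refine ⟨L.zero_mem, ?_, ?_, ?_⟩ <;> rw [map_zero] <;> simp
      smul_mem' := by
        rintro c X ⟨h1, h2, h3, h4⟩
        refine ⟨L.smul_mem c h1, ?_, ?_, ?_⟩ <;> rw [map_smul] <;> simp only [Matrix.smul_apply, smul_eq_mul]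
        · rw [h2, mul_zero]
        · rw [h3, mul_zero]
        · linear_combination c * h4 }
  have hI : ∀ X, X ∈ I ↔ X ∈ L ∧ (phi (ι := κ) (K := K)).symm X x (bar y) = 0 ∧
        (phi (ι := κ) (K := K)).symm X (bar x) y = 0 ∧
        (phi (ι := κ) (K := K)).symm X x x + (phi (ι := κ) (K := K)).symm X y y = 0 := fun X => Iff.rfl
  refine ⟨I, ⟨fun X hX => hX.1, fun Z hZ X hX => ?_⟩, fun f hf => ?_⟩
  · obtain ⟨hXL, h1, h2, h3⟩ := hX
    obtain ⟨A, rfl⟩ : ∃ A, X = phi A := ⟨phi.symm X, by simp⟩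
    obtain ⟨B, rfl⟩ : ∃ B, Z = phi B := ⟨phi.symm Z, by simp⟩
    rw [AlgEquiv.symm_apply_apply] at h1 h2 h3
    have hZX : phi B * phi A - phi A * phi B ∈ L := by
      rw [hL] at hXL hZ ⊢
      rw [← map_mul, ← map_mul, ← map_sub, skew_iff hdet] 
      rw [skew_iff hdet] at hXL hZ
      rw [Matrix.transpose_sub, Matrix.transpose_mul, Matrix.transpose_mul]
      have e1 : Aᵀ * J = -(J * A) := eq_neg_of_add_eq_zero_left hXL
      have e2 : Bᵀ * J = -(J * B) := eq_neg_of_add_eq_zero_left hZ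
      rw [Matrix.sub_mul, Matrix.mul_assoc, e2, Matrix.mul_assoc, e1, Matrix.mul_neg, Matrix.mul_neg,
        ← Matrix.mul_assoc, ← Matrix.mul_assoc, e1, e2]
      noncomm_ring
    have a1 := hbar0 A hXL
    have a1' := hbar0' A hXL
    have a2 := hdiag A hXL
    have a3 := hoff A hXL h1
    have a4 := hoff' A hXL h2
    have b1 := hbar0 B hZ
    have b1' := hbar0' B hZ
    have b2 := hdiag B hZ
    have hmat : (phi (ι := κ) (K := K)).symm (phi B * phi A - phi A * phi B) = B * A - A * B := by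
      rw [← map_mul, ← map_mul, ← map_sub, AlgEquiv.symm_apply_apply]
    refine ⟨hZX, ?_, ?_, ?_⟩ <;> rw [hmat] <;>
      simp only [Matrix.sub_apply, Matrix.mul_apply, hsum]
    · rw [h1, a1' x, a1' y, b1' x, b1' y, a2 y]
      linear_combination (-B x (bar y)) * h3
    · rw [h2, a1 x, a1 y, b1 x, b1 y, a2 x]
      linear_combination (B (bar x) y) * h3
    · rw [h1, h2, a1 x, a1' x, a1 y, a1' y, b1 x, b1' x, b1 y, b1' y, a3, a4]
      ring
  · rw [hI]
    rw [dq_phi', AlgEquiv.symm_apply_apply] 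
    simp only [Matrix.diagonal_apply_eq, Matrix.diagonal_apply_ne _ hy'x.symm, Matrix.diagonal_apply_ne _ hxy'.symm]
    constructor
    · rintro ⟨-, -, -, h⟩
      exact_mod_cast h
    · intro h
      refine ⟨by rw [← dq_phi']; exact hf, trivial, trivial, ?_⟩
      exact_mod_cast h

variable [IsAlgClosed K] [Nonempty κ] {m : ℕ} {I : Fin m → Submodule K (Module.End K (κ → K))}

/-- No simple ideal contains all diagonal elements. -/
theorem no_all (h : TM L) (hJ : Jᵀ = J) (hdet : IsUnit J.det) (hsk : ∀ X ∈ L, adjE J X = -X)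
    (h4 : Fintype.card κ = 4) (hF : Fam L I) (j : Fin m) : ∃ f ∈ Yo L, (dq f : Module.End K (κ → K)) ∉ I j := by
  classical
  by_contra hcon
  push Not at hcon
  have hm : m = 1 := by
    by_contra hne
    obtain ⟨i, hi⟩ : ∃ i : Fin m, i ≠ j := by
      have hm2 : 1 < Fintype.card (Fin m) := by
        rw [Fintype.card_fin]
        have := j.2
        omega
      exact Fintype.exists_ne_of_one_lt_card hm2 j
    obtain ⟨f, hf, hf0, hfi⟩ := h.exists_diag hF i
    have h1 := Pool.Agent.H76V.Fam.disj hF hi hfi (hcon f hf)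
    exact hf0 (dq_eq_zero h1)
  subst hm
  have hfull : ∀ X : Module.End K (κ → K), adjE J X = -X → X ∈ L := by
    rcases CmpN.simpleO h.cmp hF hJ hdet hsk with h2 | ⟨n, hn3, -, hn2, -⟩ | ⟨k, hk, -, hk3, -⟩
    · exact h2
    · exfalso
      have h5 : 2 ^ 3 ≤ 2 ^ n := Nat.pow_le_pow_right (by norm_num) hn3
      omega
    · exfalso
      have h6 : Nat.centralBinom 4 ≤ k.centralBinom := Nat.centralBinom_strictMono.monotone hk
      have h7 : Nat.centralBinom 4 = 70 := by decide
      omega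
  obtain ⟨bar, hbb, hbne, hodd, hsk'⟩ := exists_oddO h hJ hdet hsk (by rw [h4]; decide) hfull
  obtain ⟨x⟩ := ‹Nonempty κ›
  obtain ⟨y, hyx, hyx'⟩ : ∃ y, y ≠ x ∧ y ≠ bar x := by
    by_contra hc
    push Not at hc
    have h1 : (Finset.univ : Finset κ) ⊆ {x, bar x} := by
      intro z _
      rw [Finset.mem_insert, Finset.mem_singleton]
      by_cases hz : z = x
      · exact Or.inl hz
      · exact Or.inr (hc z hz)
    have h2 := Finset.card_le_card h1
    have h3 := Finset.card_le_two (a := x) (b := bar x)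
    rw [Finset.card_univ] at h2
    omega
  have huniv : (Finset.univ : Finset κ) = {x, bar x, y, bar y} := by
    refine (Finset.eq_of_subset_of_card_le (Finset.subset_univ _) ?_).symm
    rw [Finset.card_univ, h4]
    have hy'x : bar y ≠ x := fun h => hyx' (by rw [← h, hbb])
    have hy'x' : bar y ≠ bar x := fun h => hyx (bar.injective h)
    rw [Finset.card_insert_of_notMem, Finset.card_insert_of_notMem, Finset.card_insert_of_notMem,
      Finset.card_singleton]
    · simp only [Finset.mem_singleton]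
      exact (hbne y).symm
    · simp only [Finset.mem_insert, Finset.mem_singleton]
      push Not
      exact ⟨hyx'.symm, hy'x'.symm⟩
    · simp only [Finset.mem_insert, Finset.mem_singleton]
      push Not
      exact ⟨(hbne x).symm, hyx.symm, hy'x.symm⟩
  have hJb : ∀ k l, J k l ≠ 0 → l = bar k := by
    intro k l hkl
    by_contra hne
    obtain ⟨f, hf, hf2⟩ := h.sep l (bar k) hne
    apply hf2
    rw [hsk' f hf k]
    have h1 := hsk _ (Yo_mem hf)
    rw [dq_phi', skew_iff hdet] at h1
    have h3 := congrFun (congrFun h1 k) l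
    rw [Matrix.add_apply, Matrix.diagonal_transpose, Matrix.diagonal_mul, Matrix.mul_diagonal,
      Matrix.zero_apply] at h3
    have h4 : ((f k : K) + (f l : K)) * J k l = 0 := by rw [← h3]; ring
    have h5 := (mul_eq_zero.1 h4).resolve_right hkl
    have h6 : f k + f l = 0 := by exact_mod_cast h5
    linarith
  obtain ⟨I₀, hI₀, hI₀'⟩ := so4_ideal hJ hdet (L := L) (fun X => ⟨hsk X, hfull X⟩) hbb hbne hJb hyx hyx' huniv
  -- the two functions
  have hy'x : x ≠ bar y := fun h => hyx' (by rw [h, hbb])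
  have hox : od bar x y = 0 := by unfold od; rw [if_neg hyx, if_neg hyx']
  have hoy : od bar y x = 0 := by unfold od; rw [if_neg hyx.symm, if_neg hy'x]
  have hp : (fun k => od bar x k + od bar y k) ∈ Yo L := hodd _ fun k => by
    show od bar x (bar k) + od bar y (bar k) = -(od bar x k + od bar y k)
    rw [od_odd hbb hbne, od_odd hbb hbne]
    ring
  have hm' : (fun k => od bar x k - od bar y k) ∈ Yo L := hodd _ fun k => by
    show od bar x (bar k) - od bar y (bar k) = -(od bar x k - od bar y k)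
    rw [od_odd hbb hbne, od_odd hbb hbne]
    ring
  have h5 : (dq fun k => od bar x k - od bar y k : Module.End K (κ → K)) ∈ I₀ := by
    rw [hI₀' _ (Yo_mem hm')]
    show od bar x x - od bar y x + (od bar x y - od bar y y) = 0
    rw [hox, hoy, od_self, od_self]
    norm_num
  have h6 : (dq fun k => od bar x k + od bar y k : Module.End K (κ → K)) ∉ I₀ := by
    rw [hI₀' _ (Yo_mem hp)]
    show ¬ (od bar x x + od bar y x + (od bar x y + od bar y y) = 0)
    rw [hox, hoy, od_self, od_self]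
    norm_num
  have hid : IsIdeal L (I₀ ⊓ I j) :=
    ⟨inf_le_left.trans hI₀.1, fun Z hZ Y hY => ⟨hI₀.2 Z hZ Y hY.1, (hF.ideal j).2 Z hZ Y hY.2⟩⟩
  rcases hF.min j _ hid inf_le_right with h7 | h7
  · have h8 : (dq fun k => od bar x k - od bar y k : Module.End K (κ → K)) ∈ I₀ ⊓ I j := ⟨h5, hcon _ hm'⟩
    rw [h7, Submodule.mem_bot] at h8
    have h9 := congrFun (dq_eq_zero h8) x
    change od bar x x - od bar y x = 0 at h9
    rw [hoy, od_self] at h9
    norm_num at h9
  · have h8 : (dq fun k => od bar x k + od bar y k : Module.End K (κ → K)) ∈ I₀ ⊓ I j := by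
      rw [h7]
      exact hcon _ hp
    exact h6 h8.1

/-- An atom has at least two points. -/
theorem two_le_cnt {V : Type*} [AddCommGroup V] [Module ℚ V] {pt : κ → V} (hs : Spans pt)
    {q : Module.End ℚ V} (hq : q ≠ 0) : 2 ≤ cnt pt q := by
  classical
  by_contra hcon
  have h1 : (Finset.univ.image fun a => q (pt a)).card ≤ 1 := by
    unfold cnt at hcon
    omega
  apply hq
  refine hs.ext fun a b => ?_
  rw [map_sub, LinearMap.zero_apply, sub_eq_zero]
  exact Finset.card_le_one.1 h1 _ (Finset.mem_image_of_mem _ (Finset.mem_univ b)) _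
    (Finset.mem_image_of_mem _ (Finset.mem_univ a))

/-- The whole configuration is not an atom. -/
theorem four_split (h : TM L) (hJ : Jᵀ = J) (hdet : IsUnit J.det) (hsk : ∀ X ∈ L, adjE J X = -X)
    (h4 : Fintype.card κ = 4) : ¬ Atom (pt L) (1 : Module.End ℚ (Module.Dual ℚ (Yo L))) := by
  classical
  intro hA
  obtain ⟨m, I, hF⟩ := Pool.Agent.H76T.exists_fam h.cmp.lie h.cmp.irr h.cmp.tr
  rcases Nat.eq_zero_or_pos m with hm | hm
  · subst hm
    have hL : L = ⊥ := by
      rw [← hF.sup]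
      exact iSup_of_empty _
    obtain ⟨a, b, hab⟩ : ∃ a b : κ, a ≠ b := by
      have h1 : 1 < Fintype.card κ := by omega
      obtain ⟨a, b, hab⟩ := Fintype.one_lt_card_iff.1 h1
      exact ⟨a, b, hab⟩
    obtain ⟨f, hf, hfab⟩ := h.sep a b hab
    have h1 := Yo_mem hf
    rw [hL, Submodule.mem_bot] at h1
    rw [dq_eq_zero h1] at hfab
    exact hfab rfl
  · obtain ⟨P, hP1, hP2, -, hPS⟩ := H76Y.exists_proj h.cmp hF ⟨0, hm⟩
    obtain ⟨f, hf, hfn⟩ := no_all h hJ hdet hsk h4 hF ⟨0, hm⟩
    rcases hA.2.2 P.dualMap hPS (mul_one _) with h2 | h2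
    · obtain ⟨f, hf, hf0, hfi⟩ := h.exists_diag hF ⟨0, hm⟩
      have h3 : P = 0 := dualMap_inj (by rw [h2, dualMap_zero])
      have h4 := hP2 ⟨f, hf⟩ hfi
      rw [h3, LinearMap.zero_apply] at h4
      exact hf0 (congrArg Subtype.val h4).symm
    · have h3 : P = 1 := dualMap_inj (by rw [h2, dualMap_one])
      have h4 := hP1 ⟨f, hf⟩
      rw [h3] at h4
      exact hfn h4

/-- In dimension four the atoms are compatible with the simple ideals. -/
theorem comp_four {Y : Submodule ℚ (κ → ℚ)} {P : Module.End ℚ Y} (hA : Atom (ptS Y) P.dualMap) (h : TM L)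
    (hJ : Jᵀ = J) (hdet : IsUnit J.det) (hsk : ∀ X ∈ L, adjE J X = -X) (h4 : Fintype.card κ = 4)
    (hY : Yo L = Y) : Comp L P := by
  classical
  subst hY
  have hs : Spans (pt L) := H76Y.pt_spans h.cmp
  intro m I hF j
  obtain ⟨Pj, hP1, hP2, -, hPS⟩ := H76Y.exists_proj h.cmp hF j
  -- the two possibilities
  have caseA : Pj.dualMap * P.dualMap = Pj.dualMap → InP P (I j) := by
    intro h1 f hf hfj k k' hk
    have h2 : P * Pj = Pj := dualMap_inj (by rw [dualMap_mul]; exact h1)
    have h3 : P ⟨f, hf⟩ = ⟨f, hf⟩ := by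
      have h4 := congrArg (fun T : Module.End ℚ (Yo L) => T ⟨f, hf⟩) h2
      simp only [Module.End.mul_apply] at h4
      rwa [hP2 ⟨f, hf⟩ hfj] at h4
    have h5 := hk ⟨f, hf⟩
    rwa [h3] at h5
  have caseB : Pj.dualMap * P.dualMap = 0 → InP (1 - P) (I j) := by
    intro h1 f hf hfj k k' hk
    have h2 : P * Pj = 0 := dualMap_inj (by rw [dualMap_mul, dualMap_zero]; exact h1)
    have h3 : P ⟨f, hf⟩ = 0 := by
      have h4 := congrArg (fun T : Module.End ℚ (Yo L) => T ⟨f, hf⟩) h2
      simp only [Module.End.mul_apply] at h4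
      rwa [hP2 ⟨f, hf⟩ hfj] at h4
    have h5 := hk ⟨f, hf⟩
    rwa [LinearMap.sub_apply, Module.End.one_apply, h3, sub_zero] at h5
  have hA' : Atom (pt L) P.dualMap := hA
  rcases hA'.le_or hs hPS with h1 | h1
  · left
    have h2 : P.dualMap = Pj.dualMap := by
      by_contra hne
      obtain ⟨s, hsm, hsum⟩ := atoms_sum hs
      have h5 := spl_eq_sum hs hPS s hsm hsum (fun q => q * Pj.dualMap = q) fun q _ => Iff.rfl
      obtain ⟨q, hq, hq1, hq2⟩ : ∃ q ∈ s, q * Pj.dualMap = q ∧ q ≠ P.dualMap := by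
        by_contra hcon
        push Not at hcon
        apply hne
        rw [h5]
        have h6 : s.filter (fun q => q * Pj.dualMap = q) = {P.dualMap} := by
          ext q
          rw [Finset.mem_filter, Finset.mem_singleton]
          constructor
          · rintro ⟨h7, h8⟩
            exact hcon q h7 h8
          · rintro rfl
            exact ⟨(hsm _).2 hA', h1⟩
        rw [h6, Finset.sum_singleton]
      have hprod := card_prod hs h.pt_inj (s := s) (fun q hq => (hsm q).1 hq) hsum
      have hPs : P.dualMap ∈ s := (hsm _).2 hA'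
      have hs2 : s = {P.dualMap, q} := by
        by_contra hne2
        obtain ⟨r, hr, hr2⟩ : ∃ r ∈ s, r ∉ ({P.dualMap, q} : Finset _) := by
          by_contra hcon
          push Not at hcon
          apply hne2
          refine Finset.Subset.antisymm hcon ?_
          intro r hr
          rw [Finset.mem_insert, Finset.mem_singleton] at hr
          rcases hr with rfl | rfl
          · exact hPs
          · exact hq
        rw [Finset.mem_insert, Finset.mem_singleton] at hr2
        push Not at hr2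
        have h7 : ({r, P.dualMap, q} : Finset _) ⊆ s := by
          intro t ht
          rw [Finset.mem_insert, Finset.mem_insert, Finset.mem_singleton] at ht
          rcases ht with rfl | rfl | rfl
          · exact hr
          · exact hPs
          · exact hq
        have h8 : ∏ t ∈ ({r, P.dualMap, q} : Finset _), cnt (pt L) t ≤ ∏ t ∈ s, cnt (pt L) t := by
          refine Finset.prod_le_prod_of_subset_of_one_le' h7 fun t ht _ => ?_
          have := two_le_cnt hs ((hsm t).1 ht).2.1
          omega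
        rw [Finset.prod_insert, Finset.prod_insert, Finset.prod_singleton, ← hprod, h4] at h8
        · have c1 := two_le_cnt hs ((hsm r).1 hr).2.1
          have c2 := two_le_cnt hs hA'.2.1
          have c3 := two_le_cnt hs ((hsm q).1 hq).2.1
          have c4 : 2 * (2 * 2) ≤ cnt (pt L) r * (cnt (pt L) P.dualMap * cnt (pt L) q) :=
            Nat.mul_le_mul c1 (Nat.mul_le_mul c2 c3)
          omega
        · rw [Finset.mem_singleton]
          exact hq2.symm
        · rw [Finset.mem_insert, Finset.mem_singleton]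
          push Not
          exact hr2
      have h6 : Pj.dualMap = 1 := by
        rw [h5, ← hsum]
        congr 1
        rw [Finset.filter_eq_self]
        intro t ht
        rw [hs2, Finset.mem_insert, Finset.mem_singleton] at ht
        rcases ht with rfl | rfl
        · exact h1
        · exact hq1
      have h7 : Pj = 1 := dualMap_inj (by rw [h6, dualMap_one])
      obtain ⟨f, hf, hfn⟩ := no_all h hJ hdet hsk h4 hF j
      have h8 := hP1 ⟨f, hf⟩
      rw [h7] at h8
      exact hfn h8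
    refine caseA ?_
    rw [h2]
    exact hPS.1
  · right
    exact caseB (by rw [← Spl.comm hs hA'.1 hPS]; exact h1)

end

section
variable {n : ℕ} {Y : Submodule ℚ (Fin n → ℚ)}

/-- The atoms. -/
theorem exists_atoms [Nonempty (Fin n)] (h0 : ∀ f ∈ Y, ∑ k, f k = 0) :
    ∃ B : Finset (Module.End ℚ Y), (∀ P, P ∈ B ↔ Atom (ptS Y) P.dualMap) ∧ ∑ P ∈ B, P = 1 ∧
      (∀ P ∈ B, ∀ P' ∈ B, P ≠ P' → P * P' = 0) ∧ ∀ P ∈ B, Sp P ∧ P ≠ 0 := by
  classical
  have hs := ptS_spans (Y := Y) h0
  obtain ⟨FF, hFF, hsum⟩ := atoms_sum hs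
  have hspl : ∀ z ∈ FF, Spl (ptS Y) z ∧ z ≠ 0 := fun z hz => ⟨((hFF z).1 hz).1, ((hFF z).1 hz).2.1⟩
  -- lift to `End Y`
  have lift : ∀ z : Module.End ℚ (Module.Dual ℚ Y), ∃ P : Module.End ℚ Y, Spl (ptS Y) z → P.dualMap = z := by
    intro z
    by_cases hz : Spl (ptS Y) z
    · obtain ⟨P, -, hP⟩ := exists_P hz
      exact ⟨P, fun _ => hP⟩
    · exact ⟨0, fun h => absurd h hz⟩
  choose g hg using lift
  have hgF : ∀ z ∈ FF, (g z).dualMap = z := fun z hz => hg z (hspl z hz).1
  have hne0 : ∀ P : Module.End ℚ Y, P ≠ 0 ↔ P.dualMap ≠ 0 := by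
    intro P
    constructor
    · intro h h'
      exact h (dualMap_inj (h'.trans dualMap_zero.symm))
    · rintro h rfl
      exact h dualMap_zero
  have hmem : ∀ P, P ∈ FF.image g ↔ P.dualMap ∈ FF := by
    intro P
    rw [Finset.mem_image]
    constructor
    · rintro ⟨z, hz, rfl⟩
      rw [hgF z hz]
      exact hz
    · intro h
      exact ⟨_, h, dualMap_inj (hgF _ h)⟩
  refine ⟨FF.image g, fun P => ?_, ?_, fun P hP P' hP' hne => ?_, fun P hP => ?_⟩
  · rw [hmem, hFF]
  · refine dualMap_inj ?_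
    rw [dualMap_sum, Finset.sum_image, dualMap_one, ← hsum]
    · exact Finset.sum_congr rfl fun z hz => hgF z hz
    · intro z hz z' hz' h
      rw [← hgF z hz, ← hgF z' hz', h]
  · rw [hmem] at hP hP'
    refine dualMap_inj ?_
    rw [dualMap_mul, dualMap_zero]
    exact Atom.orth hs ((hFF _).1 hP') ((hFF _).1 hP) fun h => hne (dualMap_inj h.symm)
  · rw [hmem] at hP
    exact ⟨Sp_iff.2 (hspl _ hP).1, (hne0 P).2 (hspl _ hP).2⟩

/-- Permutations respecting the space of functions permute the atoms. -/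
theorem atom_perm {P : Module.End ℚ Y} {σ : Equiv.Perm (Fin n)} (hσ : ∀ f ∈ Y, f ∘ σ ∈ Y)
    (hP : Atom (ptS Y) P.dualMap) :
    ∃ P' : Module.End ℚ Y, Atom (ptS Y) P'.dualMap ∧ MvP σ P P' := by
  classical
  obtain ⟨S, hS, hA⟩ := exists_S hσ
  set P' : Module.End ℚ Y := S.symm.toLinearMap ∘ₗ P ∘ₗ S.toLinearMap with hP'
  have hconj : P'.dualMap = H76P.conj S.dualMap P.dualMap := by
    ext u f
    rfl
  have hval : ∀ (Q Q' : Module.End ℚ Y), (∀ f, S (Q' f) = Q (S f)) →
      ∀ k k', cz Q k k' ↔ cz Q' (σ k) (σ k') := by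
    intro Q Q' hQ k k'
    have h1 : ∀ (f : Y) (x : Fin n), (Q' f : Fin n → ℚ) (σ x) = (Q (S f) : Fin n → ℚ) x := by
      intro f x
      rw [← hQ f, hS]
      rfl
    constructor
    · intro h f
      rw [h1, h1]
      exact h (S f)
    · intro h f
      have h2 := h (S.symm f)
      rwa [h1, h1, LinearEquiv.apply_symm_apply] at h2
  have hSP : ∀ f, S (P' f) = P (S f) := by
    intro f
    rw [hP']
    simp
  refine ⟨P', by rw [hconj]; exact hP.conj hA, hval P P' hSP, hval (1 - P) (1 - P') fun f => ?_⟩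
  rw [LinearMap.sub_apply, LinearMap.sub_apply, Module.End.one_apply, Module.End.one_apply, map_sub, hSP]

end

section
variable {ι : Type*} [Fintype ι] [DecidableEq ι] {ψ : Matrix ι ι ℚ}
    {D : Subalgebra ℚ (Matrix ι ι ℚ)} {M : Type*} [Field M] [NumberField M]
    {m : ℕ} {cl : Fin m → Cl} {bar : Fin m → Fin m} {e : Fin m → Matrix ι ι M} {u₀ : Matrix ι ι M} {G : Type*} [Group G]
    {ρ : ∀ (l : ℕ) [Fact l.Prime], G →* Matrix.GeneralLinearGroup ι ℚ_[l]}
    {p : ℕ} [Fact p.Prime] {σ : G} {q : ℚ} {F : Fin m → M[X]}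
    {φ μ ν : Matrix ι ι (AlgebraicClosure ℚ_[p])} {v : AlgebraicClosure ℚ_[p] → ℚ}
    {Δ : Set (AlgebraicClosure ℚ_[p] ≃+* AlgebraicClosure ℚ_[p])}
    {Ω : Type*} [Field Ω] [CharZero Ω] [IsAlgClosed Ω] [Algebra.IsAlgebraic ℚ Ω] {j : M →+* Ω}
    {R : Finset Ω} {N : Set ℕ} {hd : Fin m → Ω → ℕ} {ub : Fin m → Prop}
    (C : Core5 ψ D cl bar e u₀ ρ p σ q F φ μ ν v Δ j R N hd ub)

include C

/-- **A component of rank four with a symmetric form decomposes the set `R`.** -/
theorem four_part (b : Fin m) (hb : cl b = .o) (h4 : (e b).rank = 4) :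
    ∃ (k : ℕ) (c : Ω → Option (Fin k)) (A : Fin k → ℕ), 2 ≤ k ∧
      PartU D j (cl b = .s) (ub b) (e b) (e (bar b)) (F b) q R (hd b) c A ∧ (e b).rank = ∏ x, A x := by
  classical
  obtain ⟨a, ha, hroot⟩ := C.enum b
  have hn : 0 < (e b).rank := by rw [h4]; norm_num
  have : Nonempty (Fin (e b).rank) := ⟨⟨0, hn⟩⟩
  have hs : ∀ g ∈ YS a, ∑ k, g k = 0 := fun g hg => hg.1
  have hcard : Fintype.card (Fin (e b).rank) = 4 := by rw [Fintype.card_fin, h4]
  obtain ⟨FF, hFF, hsum, horth, hsp⟩ := exists_atoms (Y := YS a) hs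
  have hgood : ∀ P ∈ FF, Sp P ∧ P ≠ 0 ∧ GoodU (cl b) P := by
    intro P hP
    refine ⟨(hsp P hP).1, (hsp P hP).2, ?_⟩
    intro K _ _ _ L hT hcls hY
    obtain ⟨J, hJ, hdet, hsk⟩ := hcls.2.1 hb
    have hor : OrL L := ⟨J, hJ, hdet, hsk⟩
    exact comp_four ((hFF P).1 hP) ((H45U.tm_iff (Or.inr hor)).1 hT) hJ hdet hsk hcard
      ((H45U.Yo_eq (Or.inr hor)).symm.trans hY)
  have hperm : ∀ π : Equiv.Perm (Fin (e b).rank), (∀ g ∈ YS a, g ∘ π ∈ YS a) → ∀ P ∈ FF,
      ∃ P' ∈ FF, MvP π P P' := by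
    intro π hπ P hP
    obtain ⟨P', h1, h2⟩ := atom_perm hπ ((hFF P).1 hP)
    exact ⟨P', (hFF P').2 h1, h2⟩
  obtain ⟨c, h1, h2⟩ := C.partd2 b ha hroot hn hgood horth hsum hperm FF.equivFin
  refine ⟨FF.card, c, _, ?_, h1, h2⟩
  by_contra hlt
  rcases Nat.lt_or_ge FF.card 1 with h3 | h3
  · have h4' : FF.card = 0 := by omega
    have : IsEmpty (Fin FF.card) := by rw [h4']; infer_instance
    rw [Fintype.prod_empty] at h2
    omega
  · have h4' : FF.card = 1 := by omega
    obtain ⟨P, hP⟩ := Finset.card_eq_one.1 h4'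
    rw [hP, Finset.sum_singleton] at hsum
    have h5 : Atom (ptS (YS a)) (1 : Module.End ℚ (Module.Dual ℚ (YS a))) := by
      have h6 := (hFF P).1 (by rw [hP]; exact Finset.mem_singleton_self P)
      rwa [hsum, dualMap_one] at h6
    obtain ⟨i⟩ := H76Z.w9_exists_i p Ω
    obtain ⟨H₀, U, V, -, hL, hcls⟩ := C.locp b ha hroot i
    obtain ⟨J, hJ, hdet, hsk⟩ := hcls.2.1 hb
    have hor : OrL (LcN (ψ.map (algebraMap ℚ (AlgebraicClosure ℚ_[p])))
      (img (AlgebraicClosure ℚ_[p]) (ρ p) H₀) U V) := ⟨J, hJ, hdet, hsk⟩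
    have hY : H76P.Yo _ = YS a := (H45U.Yo_eq (Or.inr hor)).symm.trans hL.yo
    refine four_split ((H45U.tm_iff (Or.inr hor)).1 hL.ts) hJ hdet hsk hcard ?_
    rw [← hY] at h5
    exact h5

end

end Pool.Agent.H86L
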