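import Pool.Agent.Lib.H86L.M4

/-!
# N6: the complex conjugation over a real place
-/

set_option autoImplicit false
set_option linter.unusedSectionVars false
namespace Pool.Agent.H86L
open Module Matrix Polynomial Pool.Agent.H53Toric Pool.Agent.H76P Pool.Agent.H76Q Pool.Agent.H86K
open Pool.Agent.H76Z (Cl Splits)

/-- **A real place.** A number field with a real place has an automorphism of its algebraic closure which fixes the
field and maps every component to a component linked with the conjugate component. -/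
theorem real_place5 {F M Ω : Type} [Field F] [NumberField F] [Field M] [NumberField M] [Field Ω] [CharZero Ω]
    [Algebra F Ω] [IsAlgClosure F Ω] (j : M →+* Ω) (hreal : Nonempty (F →+* ℝ))
    {ι : Type*} [Fintype ι] [DecidableEq ι] {ψ : Matrix ι ι ℚ} (hψ : ψᵀ = -ψ) (hψ0 : ψ.det ≠ 0)
    {D : Subalgebra ℚ (Matrix ι ι ℚ)} (hpos : ∀ d ∈ D, d ≠ 0 → 0 < (d * (ψ⁻¹ * dᵀ * ψ)).trace)
    {m : ℕ} {cl : Fin m → Cl} {bar : Fin m → Fin m} {e : Fin m → Matrix ι ι M} {u₀ : Matrix ι ι M}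
    (hspl : Splits D ψ cl bar e u₀) :
    ∃ c : Ω ≃+* Ω, (∀ x : F, c (algebraMap F Ω x) = algebraMap F Ω x) ∧
      ∀ b, Linked D ((e (bar b)).map j) ((e b).map (c.toRingHom.comp j)) := by
  classical
  obtain ⟨τ₀⟩ := hreal
  have hcl : IsAlgClosed Ω := IsAlgClosure.isAlgClosed F
  have halgF : Algebra.IsAlgebraic F Ω := IsAlgClosure.isAlgebraic
  have halg : Algebra.IsAlgebraic ℚ Ω := Algebra.IsAlgebraic.trans ℚ F Ω
  letI : Algebra F ℂ := (Complex.ofRealHom.comp τ₀).toAlgebra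
  let κ : Ω →ₐ[F] ℂ := IsAlgClosed.lift
  obtain ⟨c, hc⟩ := exists_res (Ω := Ω) (κ : Ω →+* ℂ) (starRingAut : ℂ ≃+* ℂ)
  have hc' : ∀ y, κ (c y) = (starRingEnd ℂ) (κ y) := fun y => (hc y).symm
  refine ⟨c, fun x => ?_, fun b => linked_of_pos4 hψ hψ0 hpos hspl j (κ : Ω →+* ℂ) c hc' b⟩
  apply κ.toRingHom.injective
  show κ (c (algebraMap F Ω x)) = κ (algebraMap F Ω x)
  rw [hc', κ.commutes]
  show (starRingEnd ℂ) ((τ₀ x : ℝ) : ℂ) = ((τ₀ x : ℝ) : ℂ)
  exact Complex.conj_ofReal _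

end Pool.Agent.H86L
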