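import Pool.Agent.Lib.H76Q.E3

/-!
# L1: the semilinear automorphism for linked idempotents, values on the algebra
-/

set_option autoImplicit false
set_option linter.unusedSectionVars false
namespace Pool.Agent.H86L
open Module Matrix Polynomial TensorProduct Pool.Agent.H53Toric
open Pool.Agent.H76P Pool.Agent.H76Q
open Pool.Agent.H76T (IsIdeal Fam Lc)
open Pool.Agent.H76V (Cmp)
open Pool.Agent.H76U (cmp preL IsSplitting)
open Pool.Agent.H76RM (spanK similD)

variable {ι : Type*} [Fintype ι] [DecidableEq ι] {K : Type*} [Field K] [CharZero K]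
  [IsAlgClosed K] {J : Matrix ι ι K} {S 𝓗 : Set (Matrix ι ι K)} {e x : Matrix ι ι K} {q : K} {n : ℕ}
  {U : Matrix ι (Fin n) K} {V : Matrix (Fin n) ι K} {d : Fin n → K}
  {Y : Submodule ℚ (Fin n → ℚ)}

/-- The semilinear automorphism for linked idempotents, with its values on the operators which commute with `a`. -/
theorem exists_theta2 (h : Loc J S 𝓗 e x q U V d Y) {τ : K ≃+* K} {a a' : Matrix ι ι K} {c : K}
    (h1 : a * a' = e.map τ) (h2 : a' * a = e) (h3 : e * a' = a') (h4 : a' * e.map τ = a')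
    (h5 : e.map τ * a = a) (h6 : a * e = a) (hxa : x * a' = a' * x)
    (hza : ∀ A ∈ zlie S, a * A = A * a) (hza' : ∀ A ∈ zlie S, a' * A = A * a')
    (hja : a'ᵀ * J * a' = c • (J * e.map τ))
    (hx : x.map τ = x) (hJ : J.map τ = J) (hS : ∀ s ∈ S, s.map τ = s)
    {σ : Equiv.Perm (Fin n)} (hσ : ∀ k, τ (d k) = d (σ k)) :
    ∃ θ : Module.End K (Fin n → K) ≃+* Module.End K (Fin n → K),
      Theta (Lc J S U V) (Uᵀ * J * U) θ τ σ ∧
      ∀ A : Matrix ι ι K, a * A.map τ = A.map τ * a → θ (phi (cmp U V A)) = phi (cmp U V (A.map τ)) := by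
  have hUV := h.UV
  have hVU := h.VU
  have hVe : V * e = V := by rw [hUV, ← Matrix.mul_assoc, hVU, Matrix.one_mul]
  have heU : e * U = U := by rw [hUV, Matrix.mul_assoc, hVU, Matrix.mul_one]
  have heUt : e.map τ * U.map τ = U.map τ := by rw [← e3_map_mul, heU]
  have hUVt : U.map τ * V.map τ = e.map τ := by rw [← e3_map_mul, ← hUV]
  obtain ⟨C, hC⟩ : ∃ C, C = V * a' * U.map τ := ⟨_, rfl⟩
  obtain ⟨C', hC'⟩ : ∃ C', C' = V.map τ * a * U := ⟨_, rfl⟩
  have hCC : C * C' = 1 := by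
    calc C * C' = V * (a' * (U.map τ * V.map τ)) * a * U := by
          rw [hC, hC']; simp only [Matrix.mul_assoc]
      _ = V * (a' * a) * U := by rw [hUVt, h4]; simp only [Matrix.mul_assoc]
      _ = 1 := by rw [h2, hVe, hVU]
  have hUC : U * C = a' * U.map τ := by
    calc U * C = (U * V) * a' * U.map τ := by rw [hC]; simp only [Matrix.mul_assoc]
      _ = _ := by rw [← hUV, h3]
  have hCl : ∀ l k, C l k ≠ 0 → l = σ k := by
    intro l k hne
    have hVx : V * x = Matrix.diagonal d * V := by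
      calc V * x = V * e * x := by rw [hVe]
        _ = V * (x * U) * V := by
            rw [Matrix.mul_assoc V e x, h.ex, hUV]
            simp only [Matrix.mul_assoc]
        _ = V * U * Matrix.diagonal d * V := by rw [h.ec.eig]; simp only [Matrix.mul_assoc]
        _ = _ := by rw [hVU, Matrix.one_mul]
    have hxU : x * U.map τ = U.map τ * Matrix.diagonal (fun k => d (σ k)) := by
      have g1 := congrArg (fun M : Matrix ι (Fin n) K => M.map τ) h.ec.eig
      beta_reduce at g1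
      rw [e3_map_mul, e3_map_mul, hx] at g1
      rw [g1]
      congr 1
      ext a b
      rw [Matrix.map_apply, Matrix.diagonal_apply, Matrix.diagonal_apply]
      split_ifs
      · exact hσ a
      · exact map_zero τ
    have g2 : Matrix.diagonal d * C = C * Matrix.diagonal (fun k => d (σ k)) := by
      calc Matrix.diagonal d * C = (Matrix.diagonal d * V) * a' * U.map τ := by
            rw [hC]; simp only [Matrix.mul_assoc]
        _ = V * (x * a') * U.map τ := by rw [← hVx]; simp only [Matrix.mul_assoc]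
        _ = V * a' * (x * U.map τ) := by rw [hxa]; simp only [Matrix.mul_assoc]
        _ = C * Matrix.diagonal (fun k => d (σ k)) := by
            rw [hxU, hC]; simp only [Matrix.mul_assoc]
    have g3 := congrFun (congrFun g2 l) k
    rw [Matrix.diagonal_mul, Matrix.mul_diagonal, mul_comm (C l k)] at g3
    exact h.ec.inj (mul_right_cancel₀ hne g3)
  obtain ⟨J', hJ'⟩ : ∃ J', J' = Uᵀ * J * U := ⟨_, rfl⟩
  have hJd : IsUnit J'.det := by rw [hJ']; exact h.ts.cmp.Jd
  have hJi : J'⁻¹ * J' = 1 := Matrix.nonsing_inv_mul _ hJd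
  have hJi' : J' * J'⁻¹ = 1 := Matrix.mul_nonsing_inv _ hJd
  have hJt : Cᵀ * J' * C = c • J'.map τ := by
    have e1 : (Uᵀ).map τ = (U.map τ)ᵀ := rfl
    calc Cᵀ * J' * C = (U * C)ᵀ * J * (U * C) := by
          rw [hJ', Matrix.transpose_mul]; simp only [Matrix.mul_assoc]
      _ = (U.map τ)ᵀ * (a'ᵀ * J * a') * U.map τ := by
          rw [hUC, Matrix.transpose_mul]; simp only [Matrix.mul_assoc]
      _ = c • ((U.map τ)ᵀ * J * (e.map τ * U.map τ)) := by
          rw [hja, Matrix.mul_smul, Matrix.smul_mul]; simp only [Matrix.mul_assoc]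
      _ = c • J'.map τ := by rw [heUt, hJ', e3_map_mul, e3_map_mul, hJ, e1]
  have hc0 : c ≠ 0 := by
    intro h0
    have hCt' : C'ᵀ * Cᵀ = 1 := by rw [← Matrix.transpose_mul, hCC, Matrix.transpose_one]
    have g1 : J' = 0 := by
      calc J' = (C'ᵀ * Cᵀ) * J' * (C * C') := by rw [hCt', hCC, Matrix.one_mul, Matrix.mul_one]
        _ = C'ᵀ * (Cᵀ * J' * C) * C' := by simp only [Matrix.mul_assoc]
        _ = 0 := by rw [hJt, h0, zero_smul, Matrix.mul_zero, Matrix.zero_mul]
    have : Nonempty (Fin n) := ⟨⟨0, h.pos⟩⟩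
    rw [g1, Matrix.det_zero] at hJd
    exact not_isUnit_zero hJd
  have hJC : c • (J'.map τ * C') = Cᵀ * J' := by
    rw [← Matrix.smul_mul, ← hJt, Matrix.mul_assoc, hCC, Matrix.mul_one]
  have hCt : C'ᵀ * Cᵀ = 1 := by rw [← Matrix.transpose_mul, hCC, Matrix.transpose_one]
  have hCJ : C * (J'⁻¹).map τ = c • (J'⁻¹ * C'ᵀ) := by
    have g1 : J'.map τ * (J'⁻¹).map τ = 1 := by rw [← H76T.map_mulm, hJi', H76T.map_onem]
    calc C * (J'⁻¹).map τ = (J'⁻¹ * (C'ᵀ * Cᵀ) * J') * (C * (J'⁻¹).map τ) := by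
          rw [hCt, Matrix.mul_one, hJi, Matrix.one_mul]
      _ = J'⁻¹ * C'ᵀ * ((Cᵀ * J' * C) * (J'⁻¹).map τ) := by simp only [Matrix.mul_assoc]
      _ = _ := by rw [hJt, Matrix.smul_mul, g1, Matrix.mul_smul, Matrix.mul_one]
  have hmat : ∀ X : Module.End K (Fin n → K), ∃ y : Matrix (Fin n) (Fin n) K, X = phi y ∧
      LinearMap.toMatrix' X = y := by
    intro X
    obtain ⟨y, rfl⟩ := (phi (ι := Fin n) (K := K)).surjective X
    exact ⟨y, rfl, (phi (ι := Fin n) (K := K)).symm_apply_apply y⟩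
  have hadj : ∀ X : Module.End K (Fin n → K), H76T.tht τ hCC (adjE J' X) = adjE J' (H76T.tht τ hCC X) := by
    intro X
    obtain ⟨y, rfl, -⟩ := hmat X
    rw [H76T.tht_apply, adjE_phi, adjE_phi, H76T.tht_apply]
    congr 1
    rw [H76T.map_mulm, H76T.map_mulm, Matrix.transpose_mul, Matrix.transpose_mul]
    have e4 : (yᵀ).map τ = (y.map τ)ᵀ := rfl
    rw [e4]
    calc C * ((J'⁻¹).map τ * (y.map τ)ᵀ * J'.map τ) * C' =
        (C * (J'⁻¹).map τ) * (y.map τ)ᵀ * (J'.map τ * C') := by simp only [Matrix.mul_assoc]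
      _ = J'⁻¹ * C'ᵀ * (y.map τ)ᵀ * (c • (J'.map τ * C')) := by
          rw [hCJ, Matrix.smul_mul, Matrix.smul_mul, Matrix.mul_smul]
      _ = _ := by rw [hJC]; simp only [Matrix.mul_assoc]
  have hcma : ∀ A ∈ preL J S, a * A = A * a := by
    rintro A ⟨⟨c₁, C₁, hC₁, hAC⟩, -⟩
    rw [hAC, Matrix.mul_add, Matrix.add_mul, hza C₁ hC₁, Matrix.mul_smul, Matrix.smul_mul,
      Matrix.mul_one, Matrix.one_mul]
  have hcmp' : ∀ A : Matrix ι ι K, a * A.map τ = A.map τ * a →
      H76T.tht τ hCC (phi (cmp U V A)) = phi (cmp U V (A.map τ)) := by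
    intro A g1
    rw [H76T.tht_apply]
    congr 1
    rw [H76U.cmp_apply, H76U.cmp_apply, e3_map_mul, e3_map_mul, hC, hC']
    calc V * a' * U.map τ * (V.map τ * A.map τ * U.map τ) * (V.map τ * a * U) =
        V * (a' * (U.map τ * V.map τ)) * A.map τ * (((U.map τ * V.map τ) * a) * U) := by
          simp only [Matrix.mul_assoc]
      _ = V * a' * (A.map τ * a) * U := by rw [hUVt, h4, h5]; simp only [Matrix.mul_assoc]
      _ = V * (a' * a) * A.map τ * U := by rw [← g1]; simp only [Matrix.mul_assoc]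
      _ = _ := by rw [h2, hVe]
  have hcmp : ∀ A : Matrix ι ι K, A ∈ preL J S →
      H76T.tht τ hCC (phi (cmp U V A)) = phi (cmp U V (A.map τ)) :=
    fun A hA => hcmp' A (hcma _ (e3_preL hJ hS hA))
  have hS' : ∀ s ∈ S, s.map τ.symm = s := by
    intro s hs
    nth_rw 1 [← hS s hs]
    exact H76T.map_symmm τ s
  have hJs : J.map τ.symm = J := by
    nth_rw 1 [← hJ]
    exact H76T.map_symmm τ J
  have hLb : ∀ X : Module.End K (Fin n → K), H76T.tht τ hCC X ∈ H76U.Lb J S U V ↔ X ∈ H76U.Lb J S U V := by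
    intro X
    constructor
    · intro hX
      obtain ⟨y, hy, -⟩ := hmat (H76T.tht τ hCC X)
      rw [hy] at hX
      obtain ⟨A, hA, hAy⟩ := H76U.mem_Lb.1 hX
      have g1 : H76T.tht τ hCC (phi (cmp U V (A.map τ.symm))) = H76T.tht τ hCC X := by
        rw [hcmp _ (e3_preL hJs hS' hA), H76T.map_symmm', hAy, hy]
      rw [← (H76T.tht τ hCC).injective g1]
      exact H76U.mem_Lb.2 ⟨_, e3_preL hJs hS' hA, rfl⟩
    · intro hX
      obtain ⟨y, rfl, -⟩ := hmat X
      obtain ⟨A, hA, rfl⟩ := H76U.mem_Lb.1 hX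
      rw [hcmp _ hA]
      exact H76U.mem_Lb.2 ⟨_, e3_preL hJ hS hA, rfl⟩
  refine ⟨H76T.tht τ hCC, ⟨H76T.tht_smul τ hCC, fun g => ?_, fun X => ?_, fun X => ?_⟩, hcmp'⟩
  · rw [← phi_diag, H76T.tht_apply, ← phi_diag]
    congr 1
    have g1 : C * (Matrix.diagonal g).map τ = Matrix.diagonal (fun k => τ (g (σ.symm k))) * C := by
      have g2 : (Matrix.diagonal g).map τ = Matrix.diagonal (fun k => τ (g k)) := by
        ext a b
        rw [Matrix.map_apply, Matrix.diagonal_apply, Matrix.diagonal_apply]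
        split_ifs
        · rfl
        · exact map_zero τ
      rw [g2]
      ext l k
      rw [Matrix.diagonal_mul, Matrix.mul_diagonal]
      by_cases hz : C l k = 0
      · rw [hz, zero_mul, mul_zero]
      · rw [hCl l k hz, Equiv.symm_apply_apply, mul_comm]
    rw [g1, Matrix.mul_assoc, hCC, Matrix.mul_one]
  · rw [H76T.mem_Lc, H76T.mem_Lc, hLb, ← hJ', ← hadj, ← map_neg, (H76T.tht τ hCC).injective.eq_iff]
  · rw [← hJ']
    exact hadj X

end Pool.Agent.H86L
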