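import Pool.Agent.Lib.H86K.K9
import Pool.Agent.Lib.H86L.L1

/-!
# L2: the local situation at a prime where the automorphism acts as the opposition, linked idempotents
-/

set_option autoImplicit false
set_option linter.unusedSectionVars false
namespace Pool.Agent.H86L
open Module Matrix Polynomial Pool.Agent.H53Toric Pool.Agent.H76P Pool.Agent.H76Q Pool.Agent.H86K
open Pool.Agent.H76T (IsIdeal Fam Lc)
open Pool.Agent.H76V (Cmp)
open Pool.Agent.H76U (cmp preL IsSplitting)
open Pool.Agent.H76RM (spanK similD)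

variable {ι : Type*} [Fintype ι] [DecidableEq ι] {K : Type*} [Field K] [CharZero K]
  [IsAlgClosed K] {J : Matrix ι ι K} {S 𝓗 : Set (Matrix ι ι K)} {e x : Matrix ι ι K} {q : K} {n : ℕ}
  {U : Matrix ι (Fin n) K} {V : Matrix (Fin n) ι K} {d : Fin n → K}
  {Y : Submodule ℚ (Fin n → ℚ)}

/-- The local situation at a prime where the automorphism acts as the opposition. -/
theorem full_local2 (h : Loc J S 𝓗 e x q U V d Y) (hone : IsBlock (1 : Module.End ℚ Y))
    (two : ∀ k : ℕ, 4 ≤ k → n ≠ 2 ^ k) {τ : K ≃+* K} {a a' : Matrix ι ι K} {c : K}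
    (h1 : a * a' = e.map τ) (h2 : a' * a = e) (h3 : e * a' = a') (h4 : a' * e.map τ = a')
    (h5 : e.map τ * a = a) (h6 : a * e = a) (hxa : x * a' = a' * x)
    (hza : ∀ A ∈ zlie S, a * A = A * a) (hza' : ∀ A ∈ zlie S, a' * A = A * a')
    (hja : a'ᵀ * J * a' = c • (J * e.map τ))
    (hx : x.map τ = x) (hJ : J.map τ = J) (hS : ∀ s ∈ S, s.map τ = s)
    {bar : Equiv.Perm (Fin n)} (hσ : ∀ k, τ (d k) = d (bar k)) (hbar : ∀ k, d k * d (bar k) = q)
    {y : Matrix ι ι K} (hy : y ∈ 𝓗) (hyx : y * x = x * y) {g g' : Matrix ι ι K}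
    (hg : g ∈ Submonoid.closure {y | ∃ k ∈ 𝓗, ∃ t : K, t ≠ 0 ∧ y = 1 + (t - 1) • k})
    (hgg : g * g' = 1) (hconj : y.map τ = g * y * g') (hay : a * y.map τ = y.map τ * a) :
    (∀ k, bar k ≠ k) ∧ ∀ f : Fin n → ℚ, (∀ k, f (bar k) = -f k) → f ∈ Y := by
  classical
  have hne : Nonempty (Fin n) := ⟨⟨0, h.pos⟩⟩
  have hd0 : ∀ k, d k ≠ 0 := h.ec.ne
  have hpair : ∀ k l, (Uᵀ * J * U) k l ≠ 0 → l = bar k := pair_bar h hbar hd0
  have hex : ∀ k, (Uᵀ * J * U) k (bar k) ≠ 0 := by
    intro k h0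
    have h1 : ∀ l, (Uᵀ * J * U) k l = 0 := by
      intro l
      by_contra h2
      have h3 := hpair k l h2
      rw [h3] at h2
      exact h2 h0
    have h3 := h.ts.cmp.Jd
    rw [Matrix.det_eq_zero_of_row_eq_zero k h1] at h3
    exact not_isUnit_zero h3
  have hbne : ∀ k, bar k ≠ k := by
    intro k hk
    have h1 := congrFun (congrFun h.ts.cmp.Jt k) k
    rw [Matrix.transpose_apply, Matrix.neg_apply] at h1
    have h2 := hex k
    rw [hk] at h2
    exact h2 (self_eq_neg.1 h1)
  refine ⟨hbne, fun f hf => ?_⟩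
  -- the involution
  obtain ⟨ε, hε⟩ := exists_HT h hy hyx
  obtain ⟨hval, hεY, hε1⟩ := HT_spec h hy hyx hε
  obtain ⟨hyy, hye, -, hyL⟩ := h.par y hy
  rw [hval] at hyL
  have hsq : (dq ε : Module.End K (Fin n → K)) * dq ε = 1 := by
    unfold dq
    rw [dg_mul, ← dg_one]
    congr 1
    funext k
    rw [Pi.mul_apply, Pi.one_apply]
    rcases hε1 k with h1 | h1
    · rw [h1]
      norm_num
    · rw [h1]
      norm_num
  -- the semilinear automorphism
  obtain ⟨θ, hθ, hθA⟩ := exists_theta2 h h1 h2 h3 h4 h5 h6 hxa hza hza' hja hx hJ hS hσ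
  have hneg : θ (dq ε) = -dq ε := by
    unfold dq
    rw [hθ.diag]
    have h1 : ∀ k, (τ ((ε (bar.symm k) : ℚ) : K)) = -((ε k : ℚ) : K) := by
      intro k
      rw [map_ratCast]
      have h2 : ε k = -ε (bar.symm k) := by
        have h3 := Pool.Agent.Lib.H86E.opp h.ts.cmp (by rw [h.yo]; exact hεY) (hex (bar.symm k))
        rwa [Equiv.apply_symm_apply] at h3
      rw [h2]
      push_cast
      ring
    have h2 : (fun k => τ ((ε (bar.symm k) : ℚ) : K)) = fun k => -((ε k : ℚ) : K) := funext h1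
    rw [h2]
    refine LinearMap.ext fun z => ?_
    funext k
    simp [dg_apply]
  have hge : g * e = e * g := cmp_comm h hg
  have hg'g : g' * g = 1 := _root_.mul_eq_one_comm.1 hgg
  have hg'e : g' * e = e * g' := by
    calc g' * e = g' * (e * (g * g')) := by rw [hgg, Matrix.mul_one]
      _ = g' * ((e * g) * g') := by rw [Matrix.mul_assoc e g g']
      _ = g' * ((g * e) * g') := by rw [hge]
      _ = (g' * g) * (e * g') := by simp only [Matrix.mul_assoc]
      _ = e * g' := by rw [hg'g, Matrix.one_mul]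
  have hmul : ∀ A B : Matrix ι ι K, B * e = e * B → phi (cmp U V (A * B)) = phi (cmp U V A) * phi (cmp U V B) := by
    intro A B hB
    rw [Pool.Agent.H76U.cmp_mul h.UV h.VU hB, map_mul]
  have h2y : ((2 : K) • y - 1) * e = e * ((2 : K) • y - 1) := by
    rw [sub_mul, mul_sub, one_mul, mul_one, smul_mul_assoc, mul_smul_comm, hye]
  have hGG : phi (cmp U V g) * phi (cmp U V g') = 1 := by
    rw [← hmul _ _ hg'e, hgg, Pool.Agent.H76U.cmp_one h.UV h.VU, map_one]
  have hflip : phi (cmp U V g) * dq ε * phi (cmp U V g') = -(dq ε : Module.End K (Fin n → K)) := by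
    have h4' : ((2 : K) • y - 1).map τ = (2 : K) • y.map τ - 1 := by
      ext a b
      rw [Matrix.map_apply, Matrix.sub_apply, Matrix.sub_apply, Matrix.smul_apply, Matrix.smul_apply, Matrix.map_apply,
        smul_eq_mul, smul_eq_mul, map_sub, map_mul, map_ofNat]
      congr 1
      by_cases hab : a = b
      · rw [hab, Matrix.one_apply_eq, map_one]
      · rw [Matrix.one_apply_ne hab, map_zero]
    have h5' : a * ((2 : K) • y - 1).map τ = ((2 : K) • y - 1).map τ * a := by
      rw [h4', Matrix.mul_sub, Matrix.sub_mul, Matrix.mul_smul, Matrix.smul_mul, hay, Matrix.mul_one, Matrix.one_mul]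
    have h6' := hθA _ h5'
    rw [hval, hneg, h4', hconj] at h6'
    have h7' : (2 : K) • (g * y * g') - 1 = g * ((2 : K) • y - 1) * g' := by
      rw [Matrix.mul_sub, Matrix.sub_mul, Matrix.mul_one, hgg, Matrix.mul_smul, Matrix.smul_mul]
    rw [h7', hmul _ _ hg'e, hmul _ _ h2y, hval] at h6'
    exact h6'.symm
  -- the Lie algebra is full
  obtain ⟨I, hF⟩ := simple_of_one h.ts h.yo hone (by rw [Fintype.card_fin]; exact two)
  have hfull : ∀ X : Module.End K (Fin n → K), adjE (Uᵀ * J * U) X = -X → X ∈ Lc J S U V := by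
    rcases Cmp.simple h.ts.cmp hF with h2 | ⟨k, hk, -, hk2, -⟩ | ⟨k, hk, hk2, hk3, hk4⟩
    · exact h2
    · rw [Module.finrank_fintype_fun_eq_card, Fintype.card_fin] at hk2
      exact absurd hk2 (two k (by omega))
    · rw [Module.finrank_fintype_fun_eq_card] at hk3
      intro X hX
      refine flip_full h.ts.cmp hF hyL hsq (fun m hm => ?_) (gen_tset h hg) hGG hflip hX
      rw [hk3] at hm
      exact Pool.Agent.H49M.R3_binom_pow (by omega) hm
  rw [← h.yo]
  refine h.ts.diag f (hfull _ (Pool.Agent.Lib.H86E.skew_of_opp h.ts.cmp fun k l hkl => ?_))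
  rw [hpair k l hkl]
  exact hf k

end Pool.Agent.H86L
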