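import Pool.Agent.Lib.H86K.K5
import Pool.Agent.Lib.H86N.O4
import Pool.Agent.Lib.H76Y.SimpleO

/-!
# L6: a frame for a given involution, symmetric forms
-/

set_option autoImplicit false
set_option linter.unusedSectionVars false
namespace Pool.Agent.H86L
open Module Polynomial Pool.Agent.H53Toric Pool.Agent.H49M Pool.Agent.H86N
open Pool.Agent.H86K (ext_aux AH bet bet_apply no_flip tset)

variable {K : Type*} [Field K] {V : Type*} [AddCommGroup V] [Module K V]

variable {L : Submodule K (Module.End K V)}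

/-- A frame for the given involution. -/
theorem frame_atN [IsAlgClosed K] [CharZero K] [FiniteDimensional K V] [Nontrivial V]
    (h : CoreN L) {y : Module.End K V} (hyg : y ∈ L) (hy2 : y * y = 1) :
    ∃ e f : Module.End K V, Frame L y e f := by
  have hS := A1_setup h hyg hy2
  obtain ⟨N₀, hN₀, hN₀0⟩ := Submodule.exists_mem_ne_zero_of_ne_bot (A2_ne h hyg hy2)
  obtain ⟨N₁, hN₁p, hN₁2, hN₁0, hext₁⟩ := ext_aux h.lie h.irr hS.tr y _ N₀ hN₀ (H86N.A2_pp hN₀ hN₀) rfl hN₀0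
  have hN₁g := hN₁p.1
  have hyN := hN₁p.2.1
  have hNy' := hN₁p.2.2
  obtain ⟨X, hX, hNX⟩ := exists_partner h.lie h.irr hS.tr hN₁g hN₁2
  set M₁ := (1 / 4 : K) • ((1 - y) * X * (1 + y)) with hM₁
  have hM₁g : M₁ ∈ L := L.smul_mem _ (h.lie.minus hyg hy2 hX)
  have hyM : y * M₁ = -M₁ := by
    rw [hM₁, mul_smul_comm, ← smul_neg]
    congr 1
    calc y * ((1 - y) * X * (1 + y)) = (y - y * y) * X * (1 + y) := by noncomm_ring
      _ = _ := by rw [hy2]; noncomm_ring
  have hMy : M₁ * y = M₁ := by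
    rw [hM₁, smul_mul_assoc]
    congr 1
    calc (1 - y) * X * (1 + y) * y = (1 - y) * X * (y + y * y) := by noncomm_ring
      _ = _ := by rw [hy2, add_comm]
  have hM₁2 : M₁ * M₁ = 0 := by
    have h1 : M₁ * (y * M₁) = M₁ * M₁ := by rw [← mul_assoc, hMy]
    rw [hyM, mul_neg] at h1
    have h2 : (2 : K) • (M₁ * M₁) = 0 := by
      rw [two_smul]
      nth_rw 1 [← h1]
      simp
    exact (smul_eq_zero.1 h2).resolve_left (by norm_num)
  have hNMN : N₁ * M₁ * N₁ = N₁ := by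
    have h1 : N₁ * (1 - y) = (2 : K) • N₁ := by
      rw [mul_sub, hNy', mul_one, two_smul]; abel
    have h2 : (1 + y) * N₁ = (2 : K) • N₁ := by
      rw [add_mul, hyN, one_mul, two_smul]
    calc N₁ * M₁ * N₁ = (1 / 4 : K) • ((N₁ * (1 - y)) * X * ((1 + y) * N₁)) := by
          rw [hM₁, mul_smul_comm, smul_mul_assoc]; congr 1
      _ = N₁ := by
          rw [h1, h2, smul_mul_assoc, smul_mul_assoc, mul_smul_comm, smul_smul, smul_smul, hNX]
          norm_num
  refine ⟨N₁, M₁ * N₁ * M₁, hyg, hy2, hN₁p, ⟨h.lie.sandwich hM₁g hM₁2 hN₁g, ?_, ?_⟩, hN₁0, ?_, ?_, hext₁⟩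
  · rw [← mul_assoc, ← mul_assoc, hyM]; noncomm_ring
  · rw [mul_assoc, hMy]
  · calc N₁ * (M₁ * N₁ * M₁) * N₁ = (N₁ * M₁ * N₁) * M₁ * N₁ := by noncomm_ring
      _ = N₁ := by rw [hNMN, hNMN]
  · calc M₁ * N₁ * M₁ * N₁ * (M₁ * N₁ * M₁) = M₁ * ((N₁ * M₁ * N₁) * M₁ * N₁) * M₁ := by
          noncomm_ring
      _ = _ := by rw [hNMN, hNMN]

/-- The binomial case, for the given involution. -/
theorem alpha_atO [IsAlgClosed K] [CharZero K] [FiniteDimensional K V] [Nontrivial V]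
    (h : CoreN L) {B : V →ₗ[K] V →ₗ[K] K} (hB : B ≠ 0) (hsym : ∀ v w, B v w = B w v)
    (hinv : ∀ X ∈ L, ∀ v w, B (X v) w + B v (X w) = 0) {s : Module.End K V} (hs : s ∈ L) (hs2 : s * s = 1)
    (hnot : ¬ ∀ X : Module.End K V, (∀ v w, B (X v) w + B v (X w) = 0) → X ∈ L)
    (hpow : ∀ m : ℕ, finrank K V ≠ 2 ^ m) :
    ∃ e f : Module.End K V, Frame L s e f ∧
      (∀ x ∈ Lp L s, ∀ y ∈ Lm L s, ∃ c : K, x * y * x = c • x ∧ y * x * y = c • y) ∧
      2 ≤ finrank K (Lm L s) := by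
  obtain ⟨e, f, F⟩ := frame_atN h hs hs2
  have ha : ∀ u ∈ J1 L s e f, u * f * u = 0 := by
    by_contra ha
    push Not at ha
    obtain ⟨u, hu, hu0⟩ := ha
    obtain ⟨e', f', G⟩ := P1_grid h F hu hu0
    by_cases hall : ∀ T : Module.End K V, e * f * T * (e * f) * (u * f') ∈ LL L (e * f) (e' * f')
    · exact hnot fun X hX => full_so' h G hall hB hsym hinv hX
    · have h1 := (P5_dich h G).resolve_left hall
      obtain ⟨t, ht, ht2⟩ := o3_spin h hB hsym hinv G h1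
      have h5 := (K5_eig h G.F.s_mem G.F.s_sq).2
      have h6 : finrank K V = 2 ^ (t + 1) := by rw [h5, ht, pow_succ]; ring
      exact hpow _ h6
  have hall := fun (x : Module.End K V) (hx : x ∈ Lp L s) (y : Module.End K V)
    (hy : y ∈ Lm L s) => K2_all h F ha hx hy
  refine ⟨e, f, F, hall, ?_⟩
  -- the dimension of the part of weight `-1`
  obtain ⟨n, x, y, hK, hx, hy, -, hyL', -, -⟩ := K3_system h F hall
  have hyL : ∀ i, y i ∈ Lm L s := fun i => ⟨hyL' i, hK.sy i, hK.ys i⟩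
  obtain ⟨k, hk1, hk2, h1, h2, h3, hcnt⟩ := R2_rank hK (by rw [hx]; exact F.e_ne)
  obtain ⟨-, h5⟩ := K5_eig h F.s_mem F.s_sq
  have hn : n ≠ 0 := by
    rintro rfl
    have hk : k = 1 := by omega
    rw [hk, Nat.choose_self] at h1
    rw [h1, mul_one] at h5
    exact hpow 1 (by rw [h5, pow_one])
  obtain ⟨n', rfl⟩ := Nat.exists_eq_succ_of_ne_zero hn
  have h01 : (0 : Fin (n' + 1 + 1)) ≠ 1 := by
    intro e
    exact absurd (congrArg Fin.val e) (by norm_num)
  have hf0 : f ≠ 0 := by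
    rintro rfl
    have h6 := F.efe
    rw [mul_zero, zero_mul] at h6
    exact F.e_ne h6.symm
  -- `y 0` and `y 1` are independent
  have hind : ∀ c : K, y 1 ≠ c • y 0 := by
    intro c hc
    have e1 := hK.r2 1 0 1
    rw [if_neg (Ne.symm h01), add_zero] at e1
    have e0 := hK.r2 0 0 0
    rw [if_pos rfl] at e0
    rw [hc] at e1
    have e2 : (c * c) • (y 0 * x 0 * y 0 + y 0 * x 0 * y 0) = 0 := by
      rw [← e1, smul_add]
      simp only [smul_mul_assoc, mul_smul_comm, smul_smul]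
    rw [e0, smul_eq_zero] at e2
    have e3 : c = 0 := by
      rcases e2 with e2 | e2
      · exact mul_self_eq_zero.1 e2
      · exfalso
        apply hf0
        rw [← hy]
        have e4 : (2 : K) • y 0 = 0 := by rw [two_smul]; exact e2
        exact (smul_eq_zero.1 e4).resolve_left (by norm_num)
    rw [e3, zero_smul] at hc
    have e5 := hK.r1 0 1 1
    rw [if_neg h01, if_pos rfl, hc, mul_zero, zero_mul, mul_zero, zero_mul, zero_add, zero_add] at e5
    exact F.e_ne (by rw [← hx, ← e5])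
  by_contra hlt
  push Not at hlt
  have hfin : finrank K (Lm L s) ≤ 1 := by omega
  obtain ⟨v, hv⟩ := finrank_le_one_iff.1 hfin
  obtain ⟨c0, hc0⟩ := hv ⟨y 0, hyL 0⟩
  obtain ⟨c1, hc1⟩ := hv ⟨y 1, hyL 1⟩
  have hc0' : c0 • (v : Module.End K V) = y 0 := congrArg Subtype.val hc0
  have hc1' : c1 • (v : Module.End K V) = y 1 := congrArg Subtype.val hc1
  have hc0n : c0 ≠ 0 := by
    rintro rfl
    apply hf0
    rw [← hy, ← hc0', zero_smul]
  apply hind (c1 * c0⁻¹)
  rw [← hc0', smul_smul, mul_assoc, inv_mul_cancel₀ hc0n, mul_one, hc1']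

/-- The data of the binomial case. -/
theorem ah_ofO [IsAlgClosed K] [CharZero K] [FiniteDimensional K V] [Nontrivial V]
    (h : CoreN L) {B : V →ₗ[K] V →ₗ[K] K} (hB : B ≠ 0) (hsym : ∀ v w, B v w = B w v)
    (hinv : ∀ X ∈ L, ∀ v w, B (X v) w + B v (X w) = 0) {s : Module.End K V} (hs : s ∈ L) (hs2 : s * s = 1)
    (hnot : ¬ ∀ X : Module.End K V, (∀ v w, B (X v) w + B v (X w) = 0) → X ∈ L)
    (hpow : ∀ m : ℕ, finrank K V ≠ 2 ^ m) :
    ∃ r : K, AH L s r ∧ 2 ≤ finrank K (Lm L s) := by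
  obtain ⟨e, f, F, hall, h2⟩ := alpha_atO h hB hsym hinv hs hs2 hnot hpow
  have hr0 : (finrank K (LinearMap.range e) : K) ≠ 0 := by
    rw [Nat.cast_ne_zero]
    intro h0
    exact F.e_ne (LinearMap.range_eq_bot.1 (Submodule.finrank_eq_zero.1 h0))
  refine ⟨(finrank K (LinearMap.range e) : K), ⟨h.lie, hs, hs2, fun x y => ?_, fun x y => ?_⟩, h2⟩
  · have h3 := (K3_trace h F hall x.2 y.2).1
    rw [bet_apply, ← smul_smul, ← h3, smul_smul, inv_mul_cancel₀ hr0, one_smul]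
  · have h3 := (K3_trace h F hall x.2 y.2).2
    rw [bet_apply, ← smul_smul, ← h3, smul_smul, inv_mul_cancel₀ hr0, one_smul]

/-- **A flipped involution**, symmetric forms. -/
theorem flip_fullO [IsAlgClosed K] [CharZero K] [FiniteDimensional K V] [Nontrivial V]
    (h : CoreN L) {B : V →ₗ[K] V →ₗ[K] K} (hB : B ≠ 0) (hsym : ∀ v w, B v w = B w v)
    (hinv : ∀ X ∈ L, ∀ v w, B (X v) w + B v (X w) = 0)
    {y : Module.End K V} (hy : y ∈ L) (hy2 : y * y = 1) (hpow : ∀ m : ℕ, finrank K V ≠ 2 ^ m)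
    {G G' : Module.End K V} (hG : G ∈ Submonoid.closure (tset L)) (hGG : G * G' = 1)
    (hflip : G * y * G' = -y) : ∀ X : Module.End K V, (∀ v w, B (X v) w + B v (X w) = 0) → X ∈ L := by
  by_contra hX'
  obtain ⟨r, hAH, hm⟩ := ah_ofO h hB hsym hinv hy hy2 hX' hpow
  exact no_flip hAH hm hG hGG hflip

end Pool.Agent.H86L
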