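import Pool.Agent.Lib.H86K.K8
import Pool.Agent.Lib.H86L.L6

/-!
# L7: all odd functions or a flipped involution, symmetric forms
-/

set_option autoImplicit false
set_option linter.unusedSectionVars false
namespace Pool.Agent.H86L
open Module Matrix Pool.Agent.H53Toric Pool.Agent.H76P Pool.Agent.H76Y
open Pool.Agent.H76T (IsIdeal Fam)
open Pool.Agent.H86K (poly_diag tset)

variable {κ : Type*} [Fintype κ] [DecidableEq κ] {K : Type*} [Field K] [CharZero K]
  {L : Submodule K (Module.End K (κ → K))} [Nonempty κ] [IsAlgClosed K]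

/-- If all odd functions are diagonal elements, there is an element of small rank. -/
theorem exists_smallN (h : CmpN L) {bar : Equiv.Perm κ} (hbb : ∀ k, bar (bar k) = k) (hbne : ∀ k, bar k ≠ k)
    (hodd : ∀ f : κ → ℚ, (∀ k, f (bar k) = -f k) → dq f ∈ L) (hn : 3 ≤ Fintype.card κ) :
    ∃ N ∈ L, N * N = 0 ∧ N ≠ 0 ∧ finrank K (LinearMap.range N) ≤ 2 := by
  classical
  obtain ⟨k₀⟩ := ‹Nonempty κ›
  -- a nonzero entry outside the plane of `k₀`
  obtain ⟨X, hX, k, l, hk1, hk2, hlS, hXkl⟩ : ∃ X ∈ L, ∃ k l, k ≠ k₀ ∧ k ≠ bar k₀ ∧ (l = k₀ ∨ l = bar k₀) ∧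
      LinearMap.toMatrix' X k l ≠ 0 := by
    by_contra hcon
    push Not at hcon
    let W : Submodule K (κ → K) :=
      { carrier := {v | ∀ a, a ≠ k₀ → a ≠ bar k₀ → v a = 0}
        add_mem' := fun {u v} hu hv a h1 h2 => by
          rw [Pi.add_apply, hu a h1 h2, hv a h1 h2, add_zero]
        zero_mem' := fun a _ _ => rfl
        smul_mem' := fun c v hv a h1 h2 => by rw [Pi.smul_apply, hv a h1 h2, smul_zero] }
    have hW : W = ⊥ ∨ W = ⊤ := by
      refine h.irr W fun X hX w hw a h1 h2 => ?_
      have h3 : X w a = ∑ b, LinearMap.toMatrix' X a b * w b := by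
        have h4 : X w = LinearMap.toMatrix' X *ᵥ w := by
          rw [← Matrix.toLin'_apply, Matrix.toLin'_toMatrix']
        rw [h4]
        rfl
      rw [h3]
      refine Finset.sum_eq_zero fun b _ => ?_
      by_cases hb : b = k₀ ∨ b = bar k₀
      · rw [hcon X hX a b h1 h2 hb, zero_mul]
      · push Not at hb
        rw [hw b hb.1 hb.2, mul_zero]
    rcases hW with hW | hW
    · have h1 : (Pi.single k₀ 1 : κ → K) ∈ W := by
        intro a ha _
        rw [Pi.single_eq_of_ne ha]
      rw [hW, Submodule.mem_bot] at h1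
      have h2 := congrFun h1 k₀
      rw [Pi.single_eq_same] at h2
      exact one_ne_zero h2
    · obtain ⟨a, ha1, ha2⟩ : ∃ a, a ≠ k₀ ∧ a ≠ bar k₀ := by
        by_contra hcon
        push Not at hcon
        have h1 : Fintype.card κ ≤ ({k₀, bar k₀} : Finset κ).card := by
          rw [← Finset.card_univ]
          refine Finset.card_le_card fun a _ => ?_
          rw [Finset.mem_insert, Finset.mem_singleton]
          by_cases h2 : a = k₀
          · exact Or.inl h2
          · exact Or.inr (hcon a h2)
        have h2 := Finset.card_le_two (a := k₀) (b := bar k₀)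
        omega
      have h1 : (Pi.single a 1 : κ → K) ∈ W := by rw [hW]; exact Submodule.mem_top
      have h2 := h1 a ha1 ha2
      rw [Pi.single_eq_same] at h2
      exact one_ne_zero h2
  have hlk : l ≠ k := by
    rintro rfl
    rcases hlS with h1 | h1
    · exact hk1 h1
    · exact hk2 h1
  have hlbk : l ≠ bar k := by
    intro h1
    rcases hlS with h2 | h2
    · apply hk2
      rw [← h2, h1, hbb]
    · apply hk1
      have h3 : bar k = bar k₀ := by rw [← h1, h2]
      exact bar.injective h3
  -- the two diagonal elements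
  let F : κ → κ → ℚ := fun x a => if a = x then 1 else if a = bar x then -1 else 0
  have hF : ∀ x, dq (F x) ∈ L := by
    intro x
    refine hodd _ fun a => ?_
    show (if bar a = x then (1 : ℚ) else if bar a = bar x then -1 else 0) =
      -(if a = x then (1 : ℚ) else if a = bar x then -1 else 0)
    by_cases h1 : a = x
    · rw [h1, if_neg (hbne x), if_pos rfl, if_pos rfl]
    · by_cases h2 : a = bar x
      · rw [h2, hbb, if_pos rfl, if_neg (hbne x), if_pos rfl, neg_neg]
      · have h3 : bar a ≠ x := by
          intro h4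
          apply h2
          rw [← h4, hbb]
        have h4 : bar a ≠ bar x := fun h5 => h1 (bar.injective h5)
        rw [if_neg h3, if_neg h4, if_neg h1, if_neg h2, neg_zero]
  have hFv : ∀ x a, F x a = 1 ∨ F x a = -1 ∨ F x a = 0 := by
    intro x a
    show (if a = x then (1 : ℚ) else if a = bar x then -1 else 0) = 1 ∨ _ ∨ _
    by_cases h1 : a = x
    · left; rw [if_pos h1]
    · by_cases h2 : a = bar x
      · right; left
        show (if a = x then (1 : ℚ) else if a = bar x then -1 else 0) = -1
        rw [if_neg h1, if_pos h2]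
      · right; right
        show (if a = x then (1 : ℚ) else if a = bar x then -1 else 0) = 0
        rw [if_neg h1, if_neg h2]
  have hF1 : ∀ x a, F x a = 1 → a = x := by
    intro x a h1
    by_contra h2
    have h3 : F x a = if a = bar x then -1 else 0 := if_neg h2
    rw [h3] at h1
    split_ifs at h1 <;> norm_num at h1
  have hFm : ∀ x a, F x a = -1 → a = bar x := by
    intro x a h1
    by_contra h2
    have h3 : F x a = if a = x then 1 else 0 := by
      show (if a = x then (1 : ℚ) else if a = bar x then -1 else 0) = _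
      rw [if_neg h2]
    rw [h3] at h1
    split_ifs at h1 <;> norm_num at h1
  -- the polynomials
  let p : Polynomial K := Polynomial.C (-(1 / 6 : K)) * ((Polynomial.X + Polynomial.C 2) * (Polynomial.X + Polynomial.C 1) *
    Polynomial.X * (Polynomial.X - Polynomial.C 2))
  let p' : Polynomial K := Polynomial.C ((1 / 6 : K)) * ((Polynomial.X - Polynomial.C 2) * (Polynomial.X - Polynomial.C 1) *
    Polynomial.X * (Polynomial.X + Polynomial.C 2))
  have hp : ∀ t : K, p.eval t = -(1 / 6) * ((t + 2) * (t + 1) * t * (t - 2)) := by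
    intro t
    show Polynomial.eval t (Polynomial.C (-(1 / 6 : K)) * ((Polynomial.X + Polynomial.C 2) * (Polynomial.X + Polynomial.C 1) *
      Polynomial.X * (Polynomial.X - Polynomial.C 2))) = _
    simp only [Polynomial.eval_mul, Polynomial.eval_C, Polynomial.eval_add, Polynomial.eval_sub, Polynomial.eval_X]
  have hp' : ∀ t : K, p'.eval t = (1 / 6) * ((t - 2) * (t - 1) * t * (t + 2)) := by
    intro t
    show Polynomial.eval t (Polynomial.C ((1 / 6 : K)) * ((Polynomial.X - Polynomial.C 2) * (Polynomial.X - Polynomial.C 1) *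
      Polynomial.X * (Polynomial.X + Polynomial.C 2))) = _
    simp only [Polynomial.eval_mul, Polynomial.eval_C, Polynomial.eval_add, Polynomial.eval_sub, Polynomial.eval_X]
  obtain ⟨Z, hZ, hZe⟩ := poly_diag h.lie (f := fun a => (F k a : K)) (hF k) p X hX
  obtain ⟨N, hN, hNe⟩ := poly_diag h.lie (f := fun a => (F l a : K)) (hF l) p' Z hZ
  have hpv : ∀ a b, p.eval ((F k a : K) - (F k b : K)) ≠ 0 → F k a - F k b = 1 := by
    intro a b h1
    rw [hp] at h1
    rcases hFv k a with e1 | e1 | e1 <;> rcases hFv k b with e2 | e2 | e2 <;> rw [e1, e2] at h1 ⊢ <;>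
      first
        | (exfalso; norm_num at h1; done)
        | (norm_num; done)
  have hpv' : ∀ a b, p'.eval ((F l a : K) - (F l b : K)) ≠ 0 → F l a - F l b = -1 := by
    intro a b h1
    rw [hp'] at h1
    rcases hFv l a with e1 | e1 | e1 <;> rcases hFv l b with e2 | e2 | e2 <;> rw [e1, e2] at h1 ⊢ <;>
      first
        | (exfalso; norm_num at h1; done)
        | (norm_num; done)
  -- the entries
  have hentry : ∀ a b, LinearMap.toMatrix' N a b ≠ 0 → (a = k ∧ b = l) ∨ (a = bar l ∧ b = bar k) := by
    intro a b hab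
    rw [hNe, hZe] at hab
    have h1 := left_ne_zero_of_mul hab
    have h2 := left_ne_zero_of_mul (right_ne_zero_of_mul hab)
    have h3 := hpv a b h2
    have h4 := hpv' a b h1
    rcases hFv k a with e1 | e1 | e1
    · left
      have ha := hF1 k a e1
      refine ⟨ha, ?_⟩
      rcases hFv l b with e2 | e2 | e2
      · exact hF1 l b e2
      · exfalso
        rw [e2] at h4
        rcases hFv l a with e3 | e3 | e3 <;> rw [e3] at h4 <;> norm_num at h4
      · exfalso
        rw [e2] at h4
        have e3 : F l a = -1 := by linarith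
        have h5 := hFm l a e3
        rw [ha] at h5
        apply hlbk
        rw [h5, hbb]
    · exfalso
      rw [e1] at h3
      rcases hFv k b with e3 | e3 | e3 <;> rw [e3] at h3 <;> norm_num at h3
    · right
      rw [e1] at h3
      have e2 : F k b = -1 := by linarith
      have hb := hFm k b e2
      refine ⟨?_, hb⟩
      rcases hFv l a with e3 | e3 | e3
      · exfalso
        rw [e3] at h4
        rcases hFv l b with e4 | e4 | e4 <;> rw [e4] at h4 <;> norm_num at h4
      · exact hFm l a e3
      · exfalso
        rw [e3] at h4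
        have e4 : F l b = 1 := by linarith
        have h5 := hF1 l b e4
        apply hlbk
        rw [← h5, hb]
  have hNkl : LinearMap.toMatrix' N k l ≠ 0 := by
    have e1 : F k k = 1 := if_pos rfl
    have e2 : F k l = 0 := by
      show (if l = k then (1 : ℚ) else if l = bar k then -1 else 0) = 0
      rw [if_neg hlk, if_neg hlbk]
    have e3 : F l l = 1 := if_pos rfl
    have e4 : F l k = 0 := by
      show (if k = l then (1 : ℚ) else if k = bar l then -1 else 0) = 0
      have : k ≠ bar l := by
        intro h5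
        apply hlbk
        rw [h5, hbb]
      rw [if_neg (Ne.symm hlk), if_neg this]
    rw [hNe, hZe, hp, hp', e1, e2, e3, e4]
    norm_num
    exact hXkl
  have hbl : bar l ≠ l := hbne l
  refine ⟨N, hN, ?_, ?_, ?_⟩
  · apply LinearMap.toMatrix'.injective
    rw [LinearMap.toMatrix'_mul, map_zero]
    ext a b
    rw [Matrix.mul_apply, Matrix.zero_apply]
    refine Finset.sum_eq_zero fun c _ => ?_
    by_contra h1
    rcases hentry a c (left_ne_zero_of_mul h1) with ⟨-, h2⟩ | ⟨-, h2⟩ <;>
      rcases hentry c b (right_ne_zero_of_mul h1) with ⟨h3, -⟩ | ⟨h3, -⟩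
    · exact hlk (h2.symm.trans h3)
    · exact hbl (h3.symm.trans h2)
    · exact hbne k (h2.symm.trans h3)
    · exact hlk (bar.injective (h3.symm.trans h2))
  · intro h0
    rw [h0, map_zero] at hNkl
    exact hNkl rfl
  · have h1 : LinearMap.range N ≤ Submodule.span K (({Pi.single k 1, Pi.single (bar l) 1} : Finset (κ → K)) : Set (κ → K)) := by
      rintro _ ⟨v, rfl⟩
      have h2 : N v = (N v k) • Pi.single k 1 + (N v (bar l)) • Pi.single (bar l) 1 := by
        ext a
        rw [Pi.add_apply, Pi.smul_apply, Pi.smul_apply, smul_eq_mul, smul_eq_mul]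
        have h3 : ∀ a, N v a = ∑ b, LinearMap.toMatrix' N a b * v b := by
          intro a
          have h4 : N v = LinearMap.toMatrix' N *ᵥ v := by
            rw [← Matrix.toLin'_apply, Matrix.toLin'_toMatrix']
          rw [h4]
          rfl
        have hkbl : k ≠ bar l := by
          intro h5
          apply hlbk
          rw [h5, hbb]
        by_cases ha : a = k
        · rw [ha, Pi.single_eq_same, Pi.single_eq_of_ne hkbl, mul_one, mul_zero, add_zero]
        · by_cases ha' : a = bar l
          · rw [ha', Pi.single_eq_same, Pi.single_eq_of_ne (Ne.symm hkbl), mul_one, mul_zero, zero_add]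
          · rw [Pi.single_eq_of_ne ha, Pi.single_eq_of_ne ha', mul_zero, mul_zero, add_zero, h3]
            refine Finset.sum_eq_zero fun b _ => ?_
            by_contra h5
            rcases hentry a b (left_ne_zero_of_mul h5) with ⟨h6, -⟩ | ⟨h6, -⟩
            · exact ha h6
            · exact ha' h6
      rw [h2]
      refine Submodule.add_mem _ (Submodule.smul_mem _ _ (Submodule.subset_span ?_))
        (Submodule.smul_mem _ _ (Submodule.subset_span ?_))
      · simp
      · simp
    calc finrank K (LinearMap.range N) ≤ finrank K (Submodule.span K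
          (({Pi.single k 1, Pi.single (bar l) 1} : Finset (κ → K)) : Set (κ → K))) := Submodule.finrank_mono h1
      _ ≤ ({Pi.single k 1, Pi.single (bar l) 1} : Finset (κ → K)).card := finrank_span_finset_le_card _
      _ ≤ 2 := Finset.card_le_two




theorem om_ne {J : Matrix κ κ K} (hdet : IsUnit J.det) : om J ≠ 0 := by
  intro h0
  obtain ⟨k⟩ := ‹Nonempty κ›
  have h1 : (Pi.single k (1 : K) : κ → K) = 0 := om_nd hdet _ (fun w => by rw [h0]; rfl)
  have h2 := congrFun h1 k
  rw [Pi.single_eq_same] at h2
  exact one_ne_zero h2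

/-- **One ideal, all odd functions**, symmetric forms. -/
theorem full_of_oddO (h : CmpN L) {I : Fin 1 → Submodule K (Module.End K (κ → K))} (hF : Fam L I)
    {J : Matrix κ κ K} (hJ : Jᵀ = J) (hdet : IsUnit J.det) (hskew : ∀ X ∈ L, adjE J X = -X)
    (hpow : ∀ m : ℕ, Fintype.card κ ≠ 2 ^ m)
    {bar : Equiv.Perm κ} (hbb : ∀ k, bar (bar k) = k) (hbne : ∀ k, bar k ≠ k)
    (hodd : ∀ f : κ → ℚ, (∀ k, f (bar k) = -f k) → dq f ∈ L)
    {X : Module.End K (κ → K)} (hX : adjE J X = -X) : X ∈ L := by
  rcases h.simpleO hF hJ hdet hskew with h1 | ⟨m, -, -, h1, -⟩ | ⟨k, hk, -, hk3, hk4⟩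
  · exact h1 X hX
  · exact absurd h1 (hpow m)
  · exfalso
    have h5 : 20 ≤ (k - 1).centralBinom := by
      have h6 : Nat.centralBinom 3 ≤ (k - 1).centralBinom := Nat.centralBinom_strictMono.monotone (by omega)
      have h7 : Nat.centralBinom 3 = 20 := by decide
      omega
    have h6 : (k - 1).centralBinom ≤ k.centralBinom := Nat.centralBinom_strictMono.monotone (by omega)
    obtain ⟨N, hN, hN2, hN0, hr⟩ := exists_smallN h hbb hbne hodd (by omega)
    have h7 := hk4 N hN hN2 hN0
    omega

/-- **One ideal, a flipped involution**, symmetric forms. -/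
theorem flip_fullJ (h : CmpN L) {I : Fin 1 → Submodule K (Module.End K (κ → K))} (hF : Fam L I)
    {J : Matrix κ κ K} (hJ : Jᵀ = J) (hdet : IsUnit J.det) (hskew : ∀ X ∈ L, adjE J X = -X)
    (hpow : ∀ m : ℕ, Fintype.card κ ≠ 2 ^ m)
    {y : Module.End K (κ → K)} (hy : y ∈ L) (hy2 : y * y = 1)
    {G G' : Module.End K (κ → K)} (hG : G ∈ Submonoid.closure (tset L)) (hGG : G * G' = 1)
    (hflip : G * y * G' = -y) {X : Module.End K (κ → K)} (hX : adjE J X = -X) : X ∈ L := by
  have hcore := h.coreN hF
  exact flip_fullO hcore (om_ne hdet) (om_sym hJ) (fun X hX => (skew_om hdet).1 (hskew X hX)) hy hy2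
    (fun m => by rw [Module.finrank_fintype_fun_eq_card]; exact hpow m) hG hGG hflip X ((skew_om hdet).1 hX)

end Pool.Agent.H86L
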