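import Pool.Agent.Lib.H25Y.FullO
import Pool.Agent.Lib.H86L.L7
import Pool.Agent.Lib.H76Q.A2

/-!
# M1: one block and a symmetric form: one simple ideal; the opposition on the configuration
-/

set_option autoImplicit false
set_option linter.unusedSectionVars false
namespace Pool.Agent.H86L
open Module Matrix Pool.Agent.H53Toric Pool.Agent.H76P Pool.Agent.H76Q Pool.Agent.H76Y
open Pool.Agent.H76T (IsIdeal Fam)

section
variable {κ : Type*} {K : Type*} [Field K] [CharZero K] [Fintype κ] [DecidableEq κ]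
  {L : Submodule K (Module.End K (κ → K))} {J : Matrix κ κ K} [IsAlgClosed K] [Nonempty κ]
  {Y : Submodule ℚ (κ → ℚ)}

/-- One block, and the dimension is not a power of two: the component is simple. -/
theorem simple_of_oneN (h : TM L) (hY : Yo L = Y) (h1 : IsBlock (1 : Module.End ℚ Y))
    (two : ∀ k : ℕ, Fintype.card κ ≠ 2 ^ k) :
    ∃ I : Fin 1 → Submodule K (Module.End K (κ → K)), Fam L I := by
  classical
  subst hY
  obtain ⟨m, I, hF⟩ := Pool.Agent.H76T.exists_fam h.cmp.lie h.cmp.irr h.cmp.tr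
  rcases Nat.lt_or_ge m 2 with hm | hm
  · interval_cases m
    · exfalso
      have hL : L = ⊥ := by
        rw [← hF.sup]
        exact iSup_of_empty _
      have h2 : ∀ y ∈ L, y * y = 1 → False := by
        intro y hy hy2
        rw [hL, Submodule.mem_bot] at hy
        rw [hy, mul_zero] at hy2
        exact zero_ne_one hy2
      have h3 : Subsingleton κ := by
        refine ⟨fun a b => ?_⟩
        by_contra hab
        obtain ⟨f, hf, hfab⟩ := h.sep a b hab
        obtain ⟨c', hc'⟩ := h.cmp.gen (dq f) fun y hy hy2 => (h2 y hy hy2).elim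
        apply hfab
        have h4 := congrFun (congrArg (fun T : Module.End K (κ → K) => T fun _ => 1) hc') a
        have h5 := congrFun (congrArg (fun T : Module.End K (κ → K) => T fun _ => 1) hc') b
        unfold dq at h4 h5
        simp only [dg_apply, LinearMap.smul_apply, Module.End.one_apply, Pi.smul_apply, smul_eq_mul, mul_one] at h4 h5
        have h6 : ((f a : ℚ) : K) = ((f b : ℚ) : K) := by rw [h4, h5]
        exact_mod_cast h6
      obtain ⟨a⟩ := ‹Nonempty κ›
      have : Unique κ := ⟨⟨a⟩, fun b => Subsingleton.elim b a⟩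
      exact two 0 (by rw [pow_zero]; exact Fintype.card_unique)
    · exact ⟨I, hF⟩
  · exfalso
    have hs : Spans (pt L) := pt_spans h.cmp
    have hij : (⟨0, by omega⟩ : Fin m) ≠ ⟨1, by omega⟩ := by
      intro e
      exact absurd (congrArg Fin.val e) (by norm_num)
    obtain ⟨i, hi⟩ : ∃ i : Fin m, i = ⟨0, by omega⟩ := ⟨_, rfl⟩
    obtain ⟨j, hj⟩ : ∃ j : Fin m, j = ⟨1, by omega⟩ := ⟨_, rfl⟩
    rw [← hi, ← hj] at hij
    -- an atom equal to one is impossible
    have caseA : Atom (pt L) (1 : Module.End ℚ (Module.Dual ℚ (Yo L))) → False := by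
      intro hA
      obtain ⟨P, hP1, hP2, hP3, hPS⟩ := exists_proj h.cmp hF i
      have g1 : P.dualMap = 1 := by
        rcases hA.2.2 P.dualMap hPS (mul_one _) with h2 | h2
        · exfalso
          obtain ⟨f, hf, hf0, hfi⟩ := h.exists_diag hF i
          have h3 : P = 0 := dualMap_inj (by rw [h2, dualMap_zero])
          have h4 := hP2 ⟨f, hf⟩ hfi
          rw [h3, LinearMap.zero_apply] at h4
          exact hf0 (congrArg Subtype.val h4).symm
        · exact h2
      have g2 : P = 1 := dualMap_inj (by rw [g1, dualMap_one])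
      obtain ⟨f, hf, hf0, hfi⟩ := h.exists_diag hF j
      have h3 := hP3 j (Ne.symm hij) ⟨f, hf⟩ hfi
      rw [g2, Module.End.one_apply] at h3
      exact hf0 (congrArg Subtype.val h3)
    rcases h1 with ⟨h8, hA⟩ | ⟨-, hA, hc⟩ | ⟨h8, hS, -, hat⟩
    · rw [dualMap_one] at hA
      exact (caseA hA).elim
    · rw [dualMap_one] at hA
      exact (caseA hA).elim
    · obtain ⟨s, hsm, hsum⟩ := atoms_sum hs
      have hcard : Fintype.card κ = 2 ^ s.card := by
        rw [card_prod hs h.pt_inj (s := s) (fun q hq => (hsm q).1 hq) hsum]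
        rw [← Finset.prod_const]
        refine Finset.prod_congr rfl fun q hq => ?_
        refine (hat q ((hsm q).1 hq)).1 ?_
        rw [dualMap_one, mul_one]
      exact two _ hcard

theorem phi_diagN {κ : Type*} [Fintype κ] [DecidableEq κ] {K : Type*} [Field K] (f : κ → K) :
    phi (Matrix.diagonal f) = dg f := by
  refine LinearMap.ext fun v => funext fun a => ?_
  rw [phi_apply, Matrix.mulVec_diagonal, dg_apply]

/-- A diagonal element is skew for a form: opposite values on the pairs with a nonzero entry of the form. -/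
theorem opp_entry (hdet : IsUnit J.det) (hsk : ∀ X ∈ L, adjE J X = -X) {f : κ → ℚ} (hf : dq f ∈ L) {k l : κ}
    (hkl : J k l ≠ 0) : f l = -f k := by
  have h1 := hsk _ hf
  unfold dq at h1
  rw [← phi_diagN] at h1
  have h2 := (skew_iff hdet _).1 h1
  have h3 := congrFun (congrFun h2 k) l
  rw [Matrix.diagonal_transpose, Matrix.add_apply, Matrix.diagonal_mul, Matrix.mul_diagonal, Matrix.zero_apply] at h3
  have h4 : (((f k + f l : ℚ) : K)) * J k l = 0 := by
    push_cast
    linear_combination h3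
  have h5 : f k + f l = 0 := by exact_mod_cast (mul_eq_zero.1 h4).resolve_right hkl
  linarith

/-- The opposition given by the form. -/
theorem entry_bar (h : TM L) (hdet : IsUnit J.det) (hsk : ∀ X ∈ L, adjE J X = -X) {bar : κ → κ}
    (hopp : ∀ f ∈ Yo L, ∀ k, f (bar k) = -f k) {k l : κ} (hkl : J k l ≠ 0) : l = bar k := by
  by_contra hne
  obtain ⟨f, hf, hfn⟩ := h.sep l (bar k) hne
  apply hfn
  rw [hopp f hf k, opp_entry hdet hsk (H76P.Yo_mem hf) hkl]

/-- The diagonal operator of an odd function is skew. -/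
theorem dq_skew (hdet : IsUnit J.det) {bar : κ → κ} (hJb : ∀ k l, J k l ≠ 0 → l = bar k) {f : κ → ℚ}
    (hf : ∀ k, f (bar k) = -f k) : adjE J (dq f : Module.End K (κ → K)) = -dq f := by
  unfold dq
  rw [← phi_diagN]
  refine (skew_iff hdet _).2 ?_
  ext k l
  rw [Matrix.diagonal_transpose, Matrix.add_apply, Matrix.diagonal_mul, Matrix.mul_diagonal, Matrix.zero_apply]
  by_cases hkl : J k l = 0
  · rw [hkl, mul_zero, zero_mul, add_zero]
  · have h1 := hJb k l hkl
    have h2 : ((f l : ℚ) : K) = -((f k : ℚ) : K) := by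
      rw [h1, hf k]
      push_cast
      ring
    rw [h2]
    ring

/-- **One block, all odd functions**, symmetric forms. -/
theorem full_of_oddM (h : TM L) (hJ : Jᵀ = J) (hdet : IsUnit J.det) (hsk : ∀ X ∈ L, adjE J X = -X)
    (hY : Yo L = Y) (h1 : IsBlock (1 : Module.End ℚ Y)) (two : ∀ k : ℕ, Fintype.card κ ≠ 2 ^ k)
    {bar : Equiv.Perm κ} (hbb : ∀ k, bar (bar k) = k) (hbne : ∀ k, bar k ≠ k)
    (hodd : ∀ f : κ → ℚ, (∀ k, f (bar k) = -f k) → f ∈ Y)
    {X : Module.End K (κ → K)} (hX : adjE J X = -X) : X ∈ L := by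
  obtain ⟨I, hF⟩ := simple_of_oneN h hY h1 two
  subst hY
  exact full_of_oddO h.cmp hF hJ hdet hsk two hbb hbne (fun f hf => H76P.Yo_mem (hodd f hf)) hX

end

/-- The opposition on the configuration. -/
theorem YS_opp {κ : Type*} [Fintype κ] [DecidableEq κ] [Nonempty κ] {K : Type*} [Field K] {d : κ → K} {q : K}
    (hq : q ≠ 0) {bar : κ → κ} (hbar : ∀ k, d k * d (bar k) = q) (hinj : Function.Injective bar) {f : κ → ℚ}
    (hf : f ∈ YS d) (k : κ) : f (bar k) = -f k := by
  classical
  have hd : ∀ k, d k ≠ 0 := by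
    intro k h0
    have h1 := hbar k
    rw [h0, zero_mul] at h1
    exact hq h1.symm
  obtain ⟨h1, c, h2⟩ := a2_mem.1 hf
  have h3 : ∀ k l, f k + f (bar k) = f l + f (bar l) := by
    intro k l
    have h4 := h2 (Pi.single k 1 + Pi.single (bar k) 1 - Pi.single l 1 - Pi.single (bar l) 1) (by
      have e1 : ∀ j, d j ^ ((Pi.single k 1 + Pi.single (bar k) 1 - Pi.single l 1 - Pi.single (bar l) 1 : κ → ℤ) j) =
          d j ^ (Pi.single k (1 : ℤ) : κ → ℤ) j * d j ^ (Pi.single (bar k) (1 : ℤ) : κ → ℤ) j *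
            (d j ^ (Pi.single l (1 : ℤ) : κ → ℤ) j)⁻¹ * (d j ^ (Pi.single (bar l) (1 : ℤ) : κ → ℤ) j)⁻¹ := by
        intro j
        rw [Pi.sub_apply, Pi.sub_apply, Pi.add_apply, zpow_sub₀ (hd j), zpow_sub₀ (hd j), zpow_add₀ (hd j),
          div_eq_mul_inv, div_eq_mul_inv]
      rw [Finset.prod_congr rfl fun j _ => e1 j, Finset.prod_mul_distrib, Finset.prod_mul_distrib,
        Finset.prod_mul_distrib, Finset.prod_inv_distrib, Finset.prod_inv_distrib, a2_single, a2_single, a2_single,
        a2_single, hbar k, mul_assoc, ← mul_inv, hbar l]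
      exact mul_inv_cancel₀ hq)
    have e2 : ∀ x : κ, ∑ j, ((Pi.single x (1 : ℤ) : κ → ℤ) j : ℚ) * (f j - c) = f x - c := by
      intro x
      rw [Fintype.sum_eq_single x]
      · rw [Pi.single_eq_same, Int.cast_one, one_mul]
      · intro j hj
        rw [Pi.single_eq_of_ne hj, Int.cast_zero, zero_mul]
    have e3 : ∑ j, (((Pi.single k 1 + Pi.single (bar k) 1 - Pi.single l 1 - Pi.single (bar l) 1 : κ → ℤ) j : ℤ) : ℚ) *
        (f j - c) = (f k - c) + (f (bar k) - c) - (f l - c) - (f (bar l) - c) := by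
      rw [← e2 k, ← e2 (bar k), ← e2 l, ← e2 (bar l), ← Finset.sum_add_distrib, ← Finset.sum_sub_distrib,
        ← Finset.sum_sub_distrib]
      refine Finset.sum_congr rfl fun j _ => ?_
      rw [Pi.sub_apply, Pi.sub_apply, Pi.add_apply]
      push_cast
      ring
    rw [e3] at h4
    linarith
  have h5 : ∑ l, (f l + f (bar l)) = 0 := by
    rw [Finset.sum_add_distrib, h1, zero_add]
    have h6 : ∑ l, f (bar l) = ∑ l, f l := by
      have hb : Function.Bijective bar := Finite.injective_iff_bijective.1 hinj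
      exact Function.Bijective.sum_comp hb f
    rw [h6, h1]
  rw [Finset.sum_congr rfl fun l _ => h3 l k, Finset.sum_const, Finset.card_univ, nsmul_eq_mul] at h5
  have h6 : ((Fintype.card κ : ℕ) : ℚ) ≠ 0 := by exact_mod_cast Fintype.card_ne_zero
  have h7 := (mul_eq_zero.1 h5).resolve_left h6
  linarith

end Pool.Agent.H86L
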