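import Pool.Agent.Lib.H86L.M1
import Pool.Agent.Lib.H86L.L8
import Pool.Agent.Lib.H76Z.F3
import Pool.Agent.Lib.H76Z.E4

/-!
# M2: the local situation at a prime where the automorphism acts as the opposition, components with a form
-/

set_option autoImplicit false
set_option linter.unusedSectionVars false
namespace Pool.Agent.H86L
open Module Matrix Polynomial Pool.Agent.H53Toric Pool.Agent.H76P Pool.Agent.H76Q
open Pool.Agent.H86K (tset simple_of_one flip_full)
open Pool.Agent.H76Y (LcN ThetaN TM CmpN)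
open Pool.Agent.H76Z (Cl LocN)
open Pool.Agent.H76T (IsIdeal Fam)
open Pool.Agent.H76U (cmp preL)
open Pool.Agent.H76RM (spanK similD)

variable {ι : Type*} [Fintype ι] [DecidableEq ι] {K : Type*} [Field K] [CharZero K]
  [IsAlgClosed K] {ct : Cl} {J : Matrix ι ι K} {S 𝓗 : Set (Matrix ι ι K)} {e x : Matrix ι ι K} {q : K} {n : ℕ}
  {U : Matrix ι (Fin n) K} {V : Matrix (Fin n) ι K} {d : Fin n → K}
  {Y : Submodule ℚ (Fin n → ℚ)}

/-- The elements of the group are products of one parameter groups. -/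
theorem gen_tsetM (h : LocN ct J S 𝓗 e x q U V d Y) {g : Matrix ι ι K}
    (hg : g ∈ Submonoid.closure {y | ∃ k ∈ 𝓗, ∃ t : K, t ≠ 0 ∧ y = 1 + (t - 1) • k}) :
    phi (cmp U V g) ∈ Submonoid.closure (tset (LcN J S U V)) := by
  refine Submonoid.closure_induction (motive := fun m _ =>
    phi (cmp U V m) ∈ Submonoid.closure (tset (LcN J S U V))) ?_ ?_ ?_ hg
  · rintro _ ⟨k, hk, t, ht, rfl⟩
    obtain ⟨hkk, hke, -, hkL⟩ := h.par k hk
    have h2 : ((2 : K) • k - 1) * e = e * ((2 : K) • k - 1) := by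
      rw [sub_mul, mul_sub, one_mul, mul_one, smul_mul_assoc, mul_smul_comm, hke]
    have h3 : ((2 : K) • k - 1) * ((2 : K) • k - 1) = 1 := by
      simp only [sub_mul, mul_sub, smul_mul_assoc, mul_smul_comm, hkk, mul_one, one_mul]
      module
    have hyy : phi (cmp U V ((2 : K) • k - 1)) * phi (cmp U V ((2 : K) • k - 1)) = 1 := by
      rw [← map_mul, ← H76U.cmp_mul h.UV h.VU h2, h3, H76U.cmp_one h.UV h.VU, map_one]
    have h4 : phi (cmp U V (1 + (t - 1) • k)) =
        ((1 + t) / 2) • (1 : Module.End K (Fin n → K)) + ((t - 1) / 2) • phi (cmp U V ((2 : K) • k - 1)) := by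
      have h5 : 1 + (t - 1) • k = ((1 + t) / 2) • (1 : Matrix ι ι K) + ((t - 1) / 2) • ((2 : K) • k - 1) := by
        rw [smul_sub, smul_smul]
        module
      rw [h5, map_add, map_smul, map_smul, H76U.cmp_one h.UV h.VU, map_add, map_smul, map_smul, map_one]
    rw [h4]
    exact Submonoid.subset_closure ⟨_, hkL, hyy, t, ht, rfl⟩
  · rw [H76U.cmp_one h.UV h.VU, map_one]
    exact Submonoid.one_mem _
  · rintro a b ha hb h1 h2
    rw [H76U.cmp_mul h.UV h.VU (H76Z.cmp_comm h hb), map_mul]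
    exact Submonoid.mul_mem _ h1 h2

/-- The local situation at a prime where the automorphism acts as the opposition. -/
theorem full_localM (h : LocN ct J S 𝓗 e x q U V d Y) (hct : ct ≠ .n) (hone : IsBlock (1 : Module.End ℚ Y))
    (two : ∀ k : ℕ, n ≠ 2 ^ k) {τ : K ≃+* K} {a a' : Matrix ι ι K}
    (h1 : a * a' = e.map τ) (h2 : a' * a = e) (h3 : e * a' = a') (h4 : a' * e.map τ = a')
    (h5 : e.map τ * a = a) (hxa : x * a' = a' * x)
    (hza : ∀ A ∈ zlie S, a * A = A * a)
    (hx : x.map τ = x) (hJ : J.map τ = J) (hS : ∀ s ∈ S, s.map τ = s)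
    {bar : Equiv.Perm (Fin n)} (hσ : ∀ k, τ (d k) = d (bar k)) (hopp : ∀ f ∈ Y, ∀ k, f (bar k) = -f k)
    {y : Matrix ι ι K} (hy : y ∈ 𝓗) (hyx : y * x = x * y) {g g' : Matrix ι ι K}
    (hg : g ∈ Submonoid.closure {y | ∃ k ∈ 𝓗, ∃ t : K, t ≠ 0 ∧ y = 1 + (t - 1) • k})
    (hgg : g * g' = 1) (hconj : y.map τ = g * y * g') (hay : a * y.map τ = y.map τ * a) :
    ∀ f : Fin n → ℚ, (∀ k, f (bar k) = -f k) → f ∈ Y := by
  classical
  have hne : Nonempty (Fin n) := ⟨⟨0, h.pos⟩⟩
  intro f hf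
  -- the involution
  obtain ⟨ε, hε⟩ := H76Z.exists_HT h hy hyx
  obtain ⟨hval, hεY, hε1⟩ := H76Z.HT_spec h hy hyx hε
  obtain ⟨hyy, hye, -, hyL⟩ := h.par y hy
  rw [hval] at hyL
  have hsq : (dq ε : Module.End K (Fin n → K)) * dq ε = 1 := by
    unfold dq
    rw [dg_mul, ← dg_one]
    congr 1
    funext k
    rw [Pi.mul_apply, Pi.one_apply]
    rcases hε1 k with h1 | h1
    · rw [h1]
      norm_num
    · rw [h1]
      norm_num
  -- the semilinear automorphism
  obtain ⟨θ, hθ, hθA⟩ := exists_theta2N h.UV h.VU h.ec h.ex h1 h2 h3 h4 h5 hxa hza hx hJ hS hσ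
  have hneg : θ (dq ε) = -dq ε := by
    unfold dq
    rw [hθ.diag]
    have h1 : ∀ k, (τ ((ε (bar.symm k) : ℚ) : K)) = -((ε k : ℚ) : K) := by
      intro k
      rw [map_ratCast]
      have h2 : ε k = -ε (bar.symm k) := by
        have h3 := hopp ε hεY (bar.symm k)
        rwa [Equiv.apply_symm_apply] at h3
      rw [h2]
      push_cast
      ring
    have h2 : (fun k => τ ((ε (bar.symm k) : ℚ) : K)) = fun k => -((ε k : ℚ) : K) := funext h1
    rw [h2]
    refine LinearMap.ext fun z => ?_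
    funext k
    simp [dg_apply]
  have hge : g * e = e * g := H76Z.cmp_comm h hg
  have hg'g : g' * g = 1 := _root_.mul_eq_one_comm.1 hgg
  have hg'e : g' * e = e * g' := by
    calc g' * e = g' * (e * (g * g')) := by rw [hgg, Matrix.mul_one]
      _ = g' * ((e * g) * g') := by rw [Matrix.mul_assoc e g g']
      _ = g' * ((g * e) * g') := by rw [hge]
      _ = (g' * g) * (e * g') := by simp only [Matrix.mul_assoc]
      _ = e * g' := by rw [hg'g, Matrix.one_mul]
  have hmul : ∀ A B : Matrix ι ι K, B * e = e * B → phi (cmp U V (A * B)) = phi (cmp U V A) * phi (cmp U V B) := by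
    intro A B hB
    rw [Pool.Agent.H76U.cmp_mul h.UV h.VU hB, map_mul]
  have h2y : ((2 : K) • y - 1) * e = e * ((2 : K) • y - 1) := by
    rw [sub_mul, mul_sub, one_mul, mul_one, smul_mul_assoc, mul_smul_comm, hye]
  have hGG : phi (cmp U V g) * phi (cmp U V g') = 1 := by
    rw [← hmul _ _ hg'e, hgg, Pool.Agent.H76U.cmp_one h.UV h.VU, map_one]
  have hflip : phi (cmp U V g) * dq ε * phi (cmp U V g') = -(dq ε : Module.End K (Fin n → K)) := by
    have h4' : ((2 : K) • y - 1).map τ = (2 : K) • y.map τ - 1 := by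
      ext a b
      rw [Matrix.map_apply, Matrix.sub_apply, Matrix.sub_apply, Matrix.smul_apply, Matrix.smul_apply, Matrix.map_apply,
        smul_eq_mul, smul_eq_mul, map_sub, map_mul, map_ofNat]
      congr 1
      by_cases hab : a = b
      · rw [hab, Matrix.one_apply_eq, map_one]
      · rw [Matrix.one_apply_ne hab, map_zero]
    have h5' : a * ((2 : K) • y - 1).map τ = ((2 : K) • y - 1).map τ * a := by
      rw [h4', Matrix.mul_sub, Matrix.sub_mul, Matrix.mul_smul, Matrix.smul_mul, hay, Matrix.mul_one, Matrix.one_mul]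
    have h6' := hθA _ h5'
    rw [hval, hneg, h4', hconj] at h6'
    have h7' : (2 : K) • (g * y * g') - 1 = g * ((2 : K) • y - 1) * g' := by
      rw [Matrix.mul_sub, Matrix.sub_mul, Matrix.mul_one, hgg, Matrix.mul_smul, Matrix.smul_mul]
    rw [h7', hmul _ _ hg'e, hmul _ _ h2y, hval] at h6'
    exact h6'.symm
  have hG := gen_tsetM h hg
  have hopp' : ∀ f ∈ Yo (LcN J S U V), ∀ k, f (bar k) = -f k := by
    intro f hf
    rw [h.yo] at hf
    exact hopp f hf
  rw [← h.yo]
  -- the Lie algebra is full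
  cases ct with
  | n => exact absurd rfl hct
  | s =>
    obtain ⟨J', hJt, hJd, hsk⟩ := h.cls.1 rfl
    have hTS : TS (LcN J S U V) J' := ⟨⟨h.ts.cmp.lie, h.ts.cmp.irr, hJt, hJd, hsk, h.ts.cmp.gen⟩, h.ts.diag, h.ts.sep⟩
    obtain ⟨I, hF⟩ := simple_of_one hTS h.yo hone fun k _ => by rw [Fintype.card_fin]; exact two k
    exact h.ts.diag f (flip_full hTS.cmp hF hyL hsq (fun m => by rw [Fintype.card_fin]; exact two m) hG hGG hflip
      (dq_skew hJd (fun k l hkl => entry_bar h.ts hJd hsk hopp' hkl) hf))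
  | o =>
    obtain ⟨J', hJt, hJd, hsk⟩ := h.cls.2.1 rfl
    obtain ⟨I, hF⟩ := simple_of_oneN h.ts h.yo hone fun k => by rw [Fintype.card_fin]; exact two k
    exact h.ts.diag f (flip_fullJ h.ts.cmp hF hJt hJd hsk (fun m => by rw [Fintype.card_fin]; exact two m) hyL hsq hG
      hGG hflip (dq_skew hJd (fun k l hkl => entry_bar h.ts hJd hsk hopp' hkl) hf))

end Pool.Agent.H86L
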