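import Pool.Agent.Lib.H86L.M2
import Pool.Agent.Lib.H86L.L3
import Pool.Agent.Lib.H76Z.W8d

/-!
# M3: fields with a real place, fourth version: one block which is its own conjugate
-/

set_option autoImplicit false
set_option linter.unusedSectionVars false
namespace Pool.Agent.H86L
open Module Matrix Polynomial Pool.Agent.H53Toric Pool.Agent.H76P Pool.Agent.H76Q Pool.Agent.H86K
open Pool.Agent.H76Y (LcN ThetaN TM CmpN)
open Pool.Agent.H76Z (Cl LocN Core3)
open Pool.Agent.H76T (IsIdeal Fam)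
open Pool.Agent.H76U (cmp preL IsSplitting)
open Pool.Agent.H76RM (spanK similD)

variable {ι : Type*} [Fintype ι] [DecidableEq ι] {ψ : Matrix ι ι ℚ}
    {D : Subalgebra ℚ (Matrix ι ι ℚ)} {M : Type*} [Field M] [NumberField M]
    {m : ℕ} {cl : Fin m → Cl} {bar : Fin m → Fin m} {e : Fin m → Matrix ι ι M} {u₀ : Matrix ι ι M}
    {G : Type*} [Group G]
    {ρ : ∀ (l : ℕ) [Fact l.Prime], G →* Matrix.GeneralLinearGroup ι ℚ_[l]}
    {p : ℕ} [Fact p.Prime] {σ : G} {q : ℚ} {F : Fin m → M[X]}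
    {φ μ ν : Matrix ι ι (AlgebraicClosure ℚ_[p])} {v : AlgebraicClosure ℚ_[p] → ℚ}
    {Δ : Set (AlgebraicClosure ℚ_[p] ≃+* AlgebraicClosure ℚ_[p])}
    {Ω : Type} [Field Ω] [CharZero Ω] [IsAlgClosed Ω] [Algebra.IsAlgebraic ℚ Ω] {j : M →+* Ω}
    {R : Finset Ω} {N : Set ℕ} (C : Core3 ψ D cl bar e u₀ ρ p σ q F φ μ ν v Δ j R N)

include C

/-- The elements of the span of `D` commute with the representation. -/
theorem lin_spanM (l : ℕ) [Fact l.Prime] {y : Matrix ι ι (AlgebraicClosure ℚ_[l])}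
    (hy : y ∈ spanK (AlgebraicClosure ℚ_[l]) D) (g : G) :
    (ρ l g).1.map (algebraMap ℚ_[l] (AlgebraicClosure ℚ_[l])) * y =
      y * (ρ l g).1.map (algebraMap ℚ_[l] (AlgebraicClosure ℚ_[l])) := by
  refine Submodule.span_induction (p := fun y _ => (ρ l g).1.map (algebraMap ℚ_[l] (AlgebraicClosure ℚ_[l])) * y =
      y * (ρ l g).1.map (algebraMap ℚ_[l] (AlgebraicClosure ℚ_[l]))) ?_ ?_ ?_ ?_ hy
  · rintro _ ⟨d, hd, rfl⟩
    have h7 := congrArg (fun m : Matrix ι ι ℚ_[l] => m.map (algebraMap ℚ_[l] (AlgebraicClosure ℚ_[l]))) (C.lin l g d hd)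
    have h8 : (d.map (algebraMap ℚ ℚ_[l])).map (algebraMap ℚ_[l] (AlgebraicClosure ℚ_[l])) =
        d.map (algebraMap ℚ (AlgebraicClosure ℚ_[l])) := by
      ext i j
      simp
    simp only [Matrix.map_mul] at h7
    rw [h8] at h7
    exact h7
  · rw [Matrix.mul_zero, Matrix.zero_mul]
  · intro y y' _ _ h7 h8
    rw [Matrix.mul_add, Matrix.add_mul, h7, h8]
  · intro c y _ h7
    rw [Matrix.mul_smul, Matrix.smul_mul, h7]

/-- The elements of the span of `D` commute with the monodromy. -/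
theorem zar_spanM (l : ℕ) [Fact l.Prime] {y : Matrix ι ι (AlgebraicClosure ℚ_[l])}
    (hy : y ∈ spanK (AlgebraicClosure ℚ_[l]) D) {A : Matrix ι ι (AlgebraicClosure ℚ_[l])}
    (hA : A ∈ zar (img (AlgebraicClosure ℚ_[l]) (ρ l) ⊤)) : A * y = y * A := by
  refine H76RM.zar_commute ?_ hA
  rintro _ ⟨s, -, rfl⟩
  exact lin_spanM C l hy s

/-- The elements of the span of `D` commute with the Hodge-Tate projectors. -/
theorem proj_spanM (l : ℕ) [Fact l.Prime] {y : Matrix ι ι (AlgebraicClosure ℚ_[l])}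
    (hy : y ∈ spanK (AlgebraicClosure ℚ_[l]) D) {h : Matrix ι ι (AlgebraicClosure ℚ_[l])}
    (hh : h ∈ properProj (AlgebraicClosure ℚ_[l]) (ρ l)) : h * y = y * h := by
  have h1 := hh.1.2 2 two_ne_zero
  have h2 := zar_spanM C l hy h1
  rw [add_mul, mul_add, one_mul, mul_one, smul_mul_assoc, mul_smul_comm] at h2
  have h3 := add_left_cancel h2
  have h4 : ((2 : AlgebraicClosure ℚ_[l]) - 1) = 1 := by norm_num
  rwa [h4, one_smul, one_smul] at h3

/-- The elements of the span of `D` commute with the group generated by the Hodge-Tate groups. -/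
theorem tgen_spanM (l : ℕ) [Fact l.Prime] {y : Matrix ι ι (AlgebraicClosure ℚ_[l])}
    (hy : y ∈ spanK (AlgebraicClosure ℚ_[l]) D) {g : Matrix ι ι (AlgebraicClosure ℚ_[l])}
    (hg : g ∈ tgen (AlgebraicClosure ℚ_[l]) (ρ l)) : g * y = y * g := by
  refine Submonoid.closure_induction (motive := fun g _ => g * y = y * g) ?_ ?_ ?_ hg
  · rintro _ ⟨k, hk, t, -, rfl⟩
    rw [add_mul, mul_add, one_mul, mul_one, smul_mul_assoc, mul_smul_comm, proj_spanM C l hy hk]
  · rw [one_mul, mul_one]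
  · intro a b _ _ h1 h2
    rw [mul_assoc, h2, ← mul_assoc, h1, mul_assoc]

/-- The opposition on the roots of a component which is its own conjugate. -/
theorem exists_barM (b : Fin m) (hb : bar b = b) {n : ℕ} {a : Fin n → Ω} (ha : Function.Injective a)
    (hroot : ∀ y : Ω, (F b).eval₂ j y = 0 ↔ ∃ k, y = a k) :
    ∃ π : Equiv.Perm (Fin n), ∀ k, a k * a (π k) = algebraMap ℚ Ω q := by
  have hlink : Linked D ((e (bar b)).map j) ((e b).map ((RingEquiv.refl Ω).toRingHom.comp j)) := by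
    refine ⟨1, ?_, ?_⟩
    · have h1 : (1 : Matrix ι ι Ω) = (1 : Matrix ι ι ℚ).map (algebraMap ℚ Ω) := by
        rw [Matrix.map_one _ (map_zero _) (map_one _)]
      rw [h1]
      exact Submodule.subset_span ⟨1, D.one_mem, rfl⟩
    · have h1 : (e b).map ((RingEquiv.refl Ω).toRingHom.comp j) = (e b).map j := rfl
      rw [hb, h1, mul_one, ← H76U.map_mul', C.hspl.idem b]
      exact (C.hspl.map j).ne_zero b
  obtain ⟨π, hπ, -⟩ := C.dual_linked b ha hroot (s := RingEquiv.refl Ω) hlink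
  exact ⟨π, hπ⟩

/-- The multiplier is not zero. -/
theorem q_neM (b : Fin m) : q ≠ 0 := by
  intro h1
  obtain ⟨-, hdet⟩ := gram_basic C.hψ C.hψ0 (AlgebraicClosure ℚ_[p])
  have hι : Nonempty ι := by
    by_contra hemp
    rw [not_nonempty_iff] at hemp
    apply C.hspl.ne_zero b
    ext i'
    exact (hemp.false i').elim
  have h3 := C.multp
  rw [h1, map_zero, zero_smul] at h3
  have h4 := congrArg Matrix.det h3
  rw [Matrix.det_mul, Matrix.det_mul, Matrix.det_transpose, Matrix.det_zero] at h4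
  exact mul_ne_zero (mul_ne_zero C.frobp.idc.1 hdet.ne_zero) C.frobp.idc.1 h4

/-- The opposition has no fixed points: there is an involution in the configuration. -/
theorem bar_neM (b : Fin m) {n : ℕ} {a : Fin n → Ω} (ha : Function.Injective a)
    (hroot : ∀ y : Ω, (F b).eval₂ j y = 0 ↔ ∃ k, y = a k) {bar' : Fin n → Fin n}
    (hopp : ∀ f ∈ YS a, ∀ k, f (bar' k) = -f k) (k : Fin n) : bar' k ≠ k := by
  let i : Ω →+* AlgebraicClosure ℚ_[p] :=
    (IsAlgClosed.lift (R := ℚ) (S := Ω) (M := AlgebraicClosure ℚ_[p])).toRingHom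
  obtain ⟨H₀, U, V, -, hL⟩ := C.locp b ha hroot i
  obtain ⟨ε, hε⟩ := H76Z.exists_HT hL C.crys.mu C.crys.muphi
  obtain ⟨-, hεY, hε1⟩ := H76Z.HT_spec hL C.crys.mu C.crys.muphi hε
  intro hk
  have h1 := hopp ε hεY k
  rw [hk] at h1
  rcases hε1 k with h2 | h2 <;> rw [h2] at h1 <;> norm_num at h1

/-- All odd functions are in the configuration. -/
theorem odd_gen4 {c : Ω ≃+* Ω} {T₀ : Finset Ω} {N' : Set ℕ}
    (hr : Real3 D ρ σ q bar e F j c T₀ N') (b : Fin m) (hcl : cl b ≠ .n)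
    {n : ℕ} {a : Fin n → Ω} (hn : 0 < n) (ha : Function.Injective a)
    (hroot : ∀ y : Ω, (F b).eval₂ j y = 0 ↔ ∃ k, y = a k) (hone : IsBlock (1 : Module.End ℚ (YS a)))
    (two : ∀ k : ℕ, n ≠ 2 ^ k) :
    ∃ bar' : Equiv.Perm (Fin n), (∀ k, bar' (bar' k) = k) ∧ (∀ k, bar' k ≠ k) ∧
      ∀ f : Fin n → ℚ, (∀ k, f (bar' k) = -f k) → f ∈ YS a := by
  classical
  have hb : bar b = b := (C.hspl.self b).2 hcl
  obtain ⟨bar', hbar⟩ := exists_barM C b hb ha hroot
  have hq0 : (algebraMap ℚ Ω q) ≠ 0 := by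
    rw [Ne, _root_.map_eq_zero]
    exact q_neM C b
  have hne : Nonempty (Fin n) := ⟨⟨0, hn⟩⟩
  have hopp : ∀ f ∈ YS a, ∀ k, f (bar' k) = -f k := fun f hf k => YS_opp hq0 hbar bar'.injective hf k
  have hbne : ∀ k, bar' k ≠ k := bar_neM C b ha hroot hopp
  have ha0 : ∀ k, a k ≠ 0 := by
    intro k hk
    have h1 := hbar k
    rw [hk, zero_mul] at h1
    exact hq0 h1.symm
  have hca : ∀ k, c (a k) = a (bar' k) := by
    intro k
    apply mul_left_cancel₀ (ha0 k)
    rw [hbar k, hr.weil b _ ((hroot _).2 ⟨k, rfl⟩)]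
  have hbb : ∀ k, bar' (bar' k) = k := by
    intro k
    apply ha
    rw [← hca, ← hca, hr.cc]
  refine ⟨bar', hbb, hbne, ?_⟩
  -- the finite set
  set T1 : Finset Ω := Finset.univ.image a ∪ T₀ ∪ Finset.univ.image (fun w : ι × ι => j ((e b) w.1 w.2)) with hT1
  set T : Finset Ω := T1 ∪ T1.image c with hT
  have hTc : ∀ x ∈ T, c x ∈ T := by
    intro x hx
    rw [hT, Finset.mem_union] at hx ⊢
    rcases hx with hx | hx
    · exact Or.inr (Finset.mem_image_of_mem _ hx)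
    · obtain ⟨y, hy, rfl⟩ := Finset.mem_image.1 hx
      rw [hr.cc]
      exact Or.inl hy
  have hTa : ∀ k, a k ∈ T := by
    intro k
    rw [hT, Finset.mem_union, hT1, Finset.mem_union, Finset.mem_union]
    exact Or.inl (Or.inl (Or.inl (Finset.mem_image_of_mem _ (Finset.mem_univ _))))
  have hT0 : ∀ x ∈ T₀, x ∈ T := by
    intro x hx
    rw [hT, Finset.mem_union, hT1, Finset.mem_union, Finset.mem_union]
    exact Or.inl (Or.inl (Or.inr hx))
  have hTe : ∀ u v, j ((e b) u v) ∈ T := by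
    intro u v
    rw [hT, Finset.mem_union, hT1, Finset.mem_union]
    exact Or.inl (Or.inr (Finset.mem_image_of_mem (fun w : ι × ι => j ((e b) w.1 w.2)) (Finset.mem_univ (u, v))))
  have hadj : ∀ x ∈ T, x ∈ IntermediateField.adjoin ℚ (T : Set Ω) :=
    fun x hx => IntermediateField.subset_adjoin ℚ _ hx
  obtain ⟨l, hlf, hlN, i, t, ht1, ht2⟩ := exists_flip c hr.cc T hTc (hTa ⟨0, hn⟩)
    (by rw [hca]; exact fun h => hbne _ (ha h)) (N := N' ∪ {p}) (hr.fin.union (Set.finite_singleton p))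
  have hlN' : l ∉ N' := fun h => hlN (Or.inl h)
  have hlp : l ≠ p := fun h => hlN (Or.inr h)
  obtain ⟨y, hy, hyx, hyt⟩ := hr.ht l hlN' i (fun x hx => ht2 x (hadj x (hT0 x hx)) (hr.cT x hx))
  obtain ⟨g, g', hg, hgg, hconj⟩ := hyt t
  obtain ⟨H₀, U, V, -, hL⟩ := C.locl b ha hroot l hlp i
  -- linked idempotents
  have hlink : Linked D ((e b).map j) ((e b).map (c.toRingHom.comp j)) := by
    have h1 := hr.link b
    rwa [hb] at h1
  obtain ⟨a₁, ha₁, a', ha', h1, h2, h3, h4, h5, h6⟩ := (Pool.Agent.H76Y.pr_of_linked C.hspl.zero j c b hlink).map i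
  have e1 : ((e b).map j).map i = (e b).map (i.comp j) := by
    ext x y
    rfl
  have e2 : ((e b).map (c.toRingHom.comp j)).map i = (e b).map (i.comp (c.toRingHom.comp j)) := by
    ext x y
    rfl
  have e3 : (e b).map (i.comp (c.toRingHom.comp j)) = ((e b).map (i.comp j)).map t.toRingEquiv := by
    ext x y
    exact (ht1 _ (hadj _ (hTe x y))).symm
  rw [e1] at h2 h3 h6
  rw [e2] at h1 h4 h5
  rw [e3] at h1 h4 h5
  have hz : ∀ y ∈ spanK (AlgebraicClosure ℚ_[l]) D, ∀ A ∈ zlie (img (AlgebraicClosure ℚ_[l]) (ρ l) H₀), y * A = A * y := by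
    intro y hy A hA
    refine (H76RM.zlie_commute (img_one (ρ l) H₀) ?_ hA).symm
    rintro _ ⟨g, -, rfl⟩
    exact lin_spanM C l hy g
  have hge : g' * a₁ = a₁ * g' := by
    have h7 := tgen_spanM C l ha₁ hg
    have hg'g : g' * g = 1 := _root_.mul_eq_one_comm.1 hgg
    calc g' * a₁ = g' * (a₁ * (g * g')) := by rw [hgg, mul_one]
      _ = g' * ((a₁ * g) * g') := by rw [mul_assoc a₁ g g']
      _ = g' * ((g * a₁) * g') := by rw [h7]
      _ = (g' * g) * (a₁ * g') := by noncomm_ring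
      _ = a₁ * g' := by rw [hg'g, one_mul]
  have hay : a₁ * y.map t.toRingEquiv = y.map t.toRingEquiv * a₁ := by
    have h7 := tgen_spanM C l ha₁ hg
    have h8 := proj_spanM C l ha₁ hy
    have h9 : y.map t.toRingEquiv = g * y * g' := hconj
    rw [h9]
    calc a₁ * (g * y * g') = (a₁ * g) * y * g' := by noncomm_ring
      _ = g * (a₁ * y) * g' := by rw [← h7]; noncomm_ring
      _ = g * y * (a₁ * g') := by rw [← h8]; noncomm_ring
      _ = g * y * g' * a₁ := by rw [← hge]; noncomm_ring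
  exact full_localM hL hcl hone two (τ := t.toRingEquiv) h1 h2 h3 h4 h5
    (lin_spanM C l ha' σ) (hz a₁ ha₁)
    (H76Q.e6_fix t _) (by
      ext x y
      show t (algebraMap ℚ (AlgebraicClosure ℚ_[l]) (ψ x y)) = algebraMap ℚ (AlgebraicClosure ℚ_[l]) (ψ x y)
      rw [IsScalarTower.algebraMap_apply ℚ ℚ_[l] (AlgebraicClosure ℚ_[l]), t.commutes]) (fun x hx => by
      obtain ⟨g, -, rfl⟩ := hx
      exact H76Q.e6_fix t _)
    (bar := bar')
    (by
      intro k
      show t (i (a k)) = i (a (bar' k))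
      rw [ht1 _ (hadj _ (hTa k)), hca])
    hopp
    hy hyx hg hgg hconj hay

/-- **Fields with a real place: no binomial exceptions** (fourth version, class `s`). -/
theorem core4_binomS {c : Ω ≃+* Ω} {T₀ : Finset Ω} {N' : Set ℕ}
    (hr : Real3 D ρ σ q bar e F j c T₀ N') (b : Fin m) (hcl : cl b ≠ .n)
    {n : ℕ} {a : Fin n → Ω} (ha : Function.Injective a)
    (hroot : ∀ y : Ω, (F b).eval₂ j y = 0 ↔ ∃ k, y = a k) (hone : IsBlock (1 : Module.End ℚ (YS a)))
    (hbin : ∃ k : ℕ, 3 ≤ k ∧ n = k.centralBinom) {K : Type*} [Field K] [CharZero K] [IsAlgClosed K]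
    {L : Submodule K (Module.End K (Fin n → K))} {J : Matrix (Fin n) (Fin n) K} (hT : TS L J) (hY : Yo L = YS a)
    {X : Module.End K (Fin n → K)} (hX : adjE J X = -X) : X ∈ L := by
  obtain ⟨k, hk, hnk⟩ := hbin
  have hn : 0 < n := by rw [hnk]; exact Nat.centralBinom_pos k
  have two : ∀ k : ℕ, n ≠ 2 ^ k := by
    intro k' h
    rw [hnk] at h
    exact Pool.Agent.H49M.R3_binom_pow (by omega) h
  obtain ⟨bar', hbb, hbne, hodd⟩ := odd_gen4 C hr b hcl hn ha hroot hone two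
  have : Nonempty (Fin n) := ⟨⟨0, hn⟩⟩
  exact full_of_odd hT hY hone (fun k _ => by rw [Fintype.card_fin]; exact two k) hbb hbne hodd hX

/-- **Fields with a real place: no binomial exceptions** (fourth version, class `o`). -/
theorem core4_binomO {c : Ω ≃+* Ω} {T₀ : Finset Ω} {N' : Set ℕ}
    (hr : Real3 D ρ σ q bar e F j c T₀ N') (b : Fin m) (hcl : cl b ≠ .n)
    {n : ℕ} {a : Fin n → Ω} (ha : Function.Injective a)
    (hroot : ∀ y : Ω, (F b).eval₂ j y = 0 ↔ ∃ k, y = a k) (hone : IsBlock (1 : Module.End ℚ (YS a)))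
    (hbin : ∃ k : ℕ, 3 ≤ k ∧ n = k.centralBinom) {K : Type*} [Field K] [CharZero K] [IsAlgClosed K]
    {L : Submodule K (Module.End K (Fin n → K))} (hT : TM L) {J : Matrix (Fin n) (Fin n) K} (hJ : Jᵀ = J)
    (hJd : IsUnit J.det) (hsk : ∀ X ∈ L, adjE J X = -X) (hY : Yo L = YS a)
    {X : Module.End K (Fin n → K)} (hX : adjE J X = -X) : X ∈ L := by
  obtain ⟨k, hk, hnk⟩ := hbin
  have hn : 0 < n := by rw [hnk]; exact Nat.centralBinom_pos k
  have two : ∀ k : ℕ, n ≠ 2 ^ k := by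
    intro k' h
    rw [hnk] at h
    exact Pool.Agent.H49M.R3_binom_pow (by omega) h
  obtain ⟨bar', hbb, hbne, hodd⟩ := odd_gen4 C hr b hcl hn ha hroot hone two
  have : Nonempty (Fin n) := ⟨⟨0, hn⟩⟩
  exact full_of_oddM hT hJ hJd hsk hY hone (fun k => by rw [Fintype.card_fin]; exact two k) hbb hbne hodd hX

end Pool.Agent.H86L
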