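import Pool.Agent.Lib.H86L.N3
import Pool.Agent.Lib.H45U.W9

/-!
# N4: fields with a real place, fifth version: the multiplicities at a real place, the binomial ranks
-/

set_option autoImplicit false
set_option linter.unusedSectionVars false
namespace Pool.Agent.H86L
open Module Matrix Polynomial Pool.Agent.H53Toric Pool.Agent.H76P Pool.Agent.H76Q Pool.Agent.H86K
open Pool.Agent.H76Y (LcN ThetaN TM CmpN SyL)
open Pool.Agent.H76Z (Cl LocN Splits OrL)
open Pool.Agent.H45U (Core5 LocU)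
open Pool.Agent.H76T (IsIdeal Fam)
open Pool.Agent.H76U (cmp preL IsSplitting)
open Pool.Agent.H76RM (spanK similD)

/-- The number of values `1` of a function with the values `1`, `-1` and of its opposite. -/
theorem card_neg {n : ℕ} {ε : Fin n → ℚ} (hε : ∀ k, ε k = 1 ∨ ε k = -1) (π : Equiv.Perm (Fin n)) :
    (Finset.univ.filter fun k => ε k = 1).card + (Finset.univ.filter fun k => -ε (π k) = 1).card = n := by
  classical
  have h1 : (Finset.univ.filter fun k => -ε (π k) = 1).card =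
      (Finset.univ.filter fun k => ¬ ε k = 1).card := by
    refine Finset.card_bij (fun k _ => π k) ?_ (fun a _ b _ h => π.injective h) ?_
    · intro k hk
      rw [Finset.mem_filter] at hk ⊢
      refine ⟨Finset.mem_univ _, fun h => ?_⟩
      rw [h] at hk
      exact absurd hk.2 (by norm_num)
    · intro k hk
      rw [Finset.mem_filter] at hk
      refine ⟨π.symm k, ?_, π.apply_symm_apply k⟩
      rw [Finset.mem_filter, π.apply_symm_apply, (hε k).resolve_left hk.2]
      exact ⟨Finset.mem_univ _, by norm_num⟩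
  rw [h1, Finset.card_filter_add_card_filter_not, Finset.card_univ, Fintype.card_fin]

variable {ι : Type*} [Fintype ι] [DecidableEq ι] {ψ : Matrix ι ι ℚ}
    {D : Subalgebra ℚ (Matrix ι ι ℚ)} {M : Type*} [Field M] [NumberField M]
    {m : ℕ} {cl : Fin m → Cl} {bar : Fin m → Fin m} {e : Fin m → Matrix ι ι M} {u₀ : Matrix ι ι M}
    {G : Type*} [Group G]
    {ρ : ∀ (l : ℕ) [Fact l.Prime], G →* Matrix.GeneralLinearGroup ι ℚ_[l]}
    {p : ℕ} [Fact p.Prime] {σ : G} {q : ℚ} {F : Fin m → M[X]}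
    {φ μ ν : Matrix ι ι (AlgebraicClosure ℚ_[p])} {v : AlgebraicClosure ℚ_[p] → ℚ}
    {Δ : Set (AlgebraicClosure ℚ_[p] ≃+* AlgebraicClosure ℚ_[p])}
    {Ω : Type} [Field Ω] [CharZero Ω] [IsAlgClosed Ω] [Algebra.IsAlgebraic ℚ Ω] {j : M →+* Ω}
    {R : Finset Ω} {N : Set ℕ} {hd : Fin m → Ω → ℕ} {ub : Fin m → Prop}
    (C : Core5 ψ D cl bar e u₀ ρ p σ q F φ μ ν v Δ j R N hd ub)

include C

/-- **The multiplicity at a real place is half of the rank**, for components of all classes. -/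
theorem hd_fix (b : Fin m) {c : Ω ≃+* Ω}
    (hlink : Linked D ((e (bar b)).map j) ((e b).map (c.toRingHom.comp j))) {r : Ω} (hr : r ∈ R)
    (hcr : c r = r) : 2 * hd b r = (e b).rank := by
  classical
  obtain ⟨a, ha, hroot⟩ := C.enum b
  obtain ⟨i, hi⟩ := C.w9_i b hr
  obtain ⟨hn, ε, c₀, hε, -, hε1, -, hcnt⟩ := C.w9_HT b ha hroot i
  have hhd := C.hdg b i r hr hi
  obtain ⟨π, -, hπ⟩ := C.dual_linked b ha hroot hlink
  have h1 := hπ i ε hε
  have hi' : v ((i.comp c.symm.toRingHom) r) = 1 := by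
    show v (i (c.symm r)) = 1
    have h2 : c.symm r = r := by rw [RingEquiv.symm_apply_eq, hcr]
    rw [h2, hi]
  have hhd' := C.hdg b (i.comp c.symm.toRingHom) r hr hi'
  obtain ⟨H₀, U, V, -, hL, -⟩ := C.locp b ha hroot (i.comp c.symm.toRingHom)
  have h2 := H45U.HT_rank hL C.crys.mu C.crys.muphi h1
  have h3 := card_neg hε1 π.symm
  rw [hcnt] at hhd
  rw [hhd'] at h2
  rw [← h2, hhd] at h3
  omega

/-- **Fields with a real place: no binomial exceptions** (fifth version, components with a form). -/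
theorem core5_binom {c : Ω ≃+* Ω} {T₀ : Finset Ω} {N' : Set ℕ}
    (hr : Real3 D ρ σ q bar e F j c T₀ N') (b : Fin m) (hcl : cl b ≠ .n)
    {n : ℕ} {a : Fin n → Ω} (ha : Function.Injective a)
    (hroot : ∀ y : Ω, (F b).eval₂ j y = 0 ↔ ∃ k, y = a k) (hone : IsBlock (1 : Module.End ℚ (YS a)))
    (hbin : ∃ k : ℕ, 3 ≤ k ∧ n = k.centralBinom) {K : Type*} [Field K] [CharZero K] [IsAlgClosed K]
    {L : Submodule K (Module.End K (Fin n → K))} (hT : H25U.TM L) (hY : H25U.Yo L = YS a)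
    {J : Matrix (Fin n) (Fin n) K} (hJ : Jᵀ = -J ∨ Jᵀ = J)
    (hJd : IsUnit J.det) (hsk : ∀ X ∈ L, adjE J X = -X)
    {X : Module.End K (Fin n → K)} (hX : adjE J X = -X) : X ∈ L := by
  rcases hJ with hJ | hJ
  · have hf : SyL L ∨ OrL L := Or.inl ⟨J, hJ, hJd, hsk⟩
    have hT' := (H45U.tm_iff hf).1 hT
    have hY' : Yo L = YS a := (H45U.Yo_eq hf).symm.trans hY
    exact core5_binomS C hr b hcl ha hroot hone hbin
      ⟨⟨hT'.cmp.lie, hT'.cmp.irr, hJ, hJd, hsk, hT'.cmp.gen⟩, hT'.diag, hT'.sep⟩ hY' hX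
  · have hf : SyL L ∨ OrL L := Or.inr ⟨J, hJ, hJd, hsk⟩
    exact core5_binomO C hr b hcl ha hroot hone hbin ((H45U.tm_iff hf).1 hT) hJ hJd hsk
      ((H45U.Yo_eq hf).symm.trans hY) hX

end Pool.Agent.H86L
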